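import Pool.Agent.Lib.MP_5f7e94_lc.Spec

section
/-!
# Module LOW: bits can be lowered, isolated linked pairs can be swapped
-/
set_option autoImplicit false

namespace Pool.Agent.Lib.MP5f7e94

namespace LOW

variable {A : Type}

theorem head0_append {u v : List (A × Bool)} (hu : Head0 u) (hv : Head0 v) : Head0 (u ++ v) := by
  cases u with
  | nil => exact hv
  | cons a u => exact hu

theorem head0_flatten (l : List (List (A × Bool))) (h : ∀ u ∈ l, Head0 u) : Head0 l.flatten := by
  induction l with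
  | nil => trivial
  | cons u l ih =>
    rw [List.flatten_cons]
    exact head0_append (h u (by simp)) (ih (fun v hv => h v (by simp [hv])))

/-- all words of `Lam f` have first bit `false` -/
theorem lam_head0 (f : Expr A) (u : List (A × Bool)) (h : u ∈ Lam f) : Head0 u := by
  induction f generalizing u with
  | eps =>
    have h' : u = [] := h
    rw [h']; trivial
  | act a =>
    have h' : u = [(a, false)] := h
    rw [h']; rfl
  | seq e f ihe ihf =>
    obtain ⟨v, hv, w, hw, rfl⟩ := h
    exact head0_append (ihe v hv) (ihf w hw)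
  | alt e f ihe ihf =>
    rcases h with h | h
    · exact ihe u h
    · exact ihf u h
  | conj e f ihe ihf => exact ihe u h.1
  | par e f ihe ihf => exact h.1
  | star e ih =>
    obtain ⟨l, hl, rfl⟩ := h
    exact head0_flatten l (fun u hu => ih u (hl u hu))

theorem lower_split {u1 u2 v : List (A × Bool)} (h : Lower (u1 ++ u2) v) :
    ∃ v1 v2, v = v1 ++ v2 ∧ Lower u1 v1 ∧ Lower u2 v2 := by
  induction u1 generalizing v with
  | nil => exact ⟨[], v, rfl, List.Forall₂.nil, h⟩
  | cons a u1 ih =>
    cases v with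
    | nil => cases h
    | cons b v =>
      have h0 : List.Forall₂ (fun a b : A × Bool => a.1 = b.1 ∧ (b.2 = true → a.2 = true))
        (a :: (u1 ++ u2)) (b :: v) := h
      rw [List.forall₂_cons] at h0
      obtain ⟨v1, v2, rfl, h1, h2⟩ := ih h0.2
      exact ⟨b :: v1, v2, rfl, List.Forall₂.cons h0.1 h1, h2⟩

theorem lower_flatten (l : List (List (A × Bool))) (v : List (A × Bool)) (h : Lower l.flatten v) :
    ∃ l' : List (List (A × Bool)), v = l'.flatten ∧ List.Forall₂ Lower l l' := by
  induction l generalizing v with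
  | nil =>
    have h' : v = [] := by
      cases v with
      | nil => rfl
      | cons b v => cases h
    exact ⟨[], h', List.Forall₂.nil⟩
  | cons u l ih =>
    rw [List.flatten_cons] at h
    obtain ⟨v1, v2, rfl, h1, h2⟩ := lower_split h
    obtain ⟨l', rfl, h3⟩ := ih v2 h2
    exact ⟨v1 :: l', by simp, List.Forall₂.cons h1 h3⟩

/-- a factor `(x, false) (y, true)` of a product lies in one of the two words -/
theorem split_pair {u1 u2 α β : List (A × Bool)} {x y : A} (h2 : Head0 u2) (hβ : Head0 β)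
    (h : u1 ++ u2 = α ++ (x, false) :: (y, true) :: β) :
    (∃ β', Head0 β' ∧ u1 = α ++ (x, false) :: (y, true) :: β' ∧ β = β' ++ u2) ∨
    (∃ α', α = u1 ++ α' ∧ u2 = α' ++ (x, false) :: (y, true) :: β) := by
  rw [List.append_eq_append_iff] at h
  rcases h with ⟨c, hc1, hc2⟩ | ⟨c, hc1, hc2⟩
  · exact Or.inr ⟨c, hc1, hc2⟩
  · cases c with
    | nil =>
      refine Or.inr ⟨[], ?_, ?_⟩
      · simpa using hc1.symm
      · simpa using hc2.symm
    | cons a c =>
      cases c with
      | nil =>
        simp only [List.cons_append, List.nil_append, List.cons.injEq] at hc2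
        rw [← hc2.2] at h2
        simp [Head0] at h2
      | cons b c =>
        simp only [List.cons_append, List.cons.injEq] at hc2
        obtain ⟨rfl, rfl, rfl⟩ := hc2
        refine Or.inl ⟨c, ?_, hc1, rfl⟩
        cases c with
        | nil => trivial
        | cons d c => exact hβ

theorem head0_view {w : CW A} (κ p : Bool) (h : Head0 (forget w)) : Head0 (view κ p w) := by
  cases w with
  | nil => trivial
  | cons a w =>
    have ha : a.2.1 = false := h
    by_cases hc : a.2.2 = κ
    · simp [view, hc, Head0, ha]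
    · simp only [view, hc, if_false]
      have h1 := view_head0 κ w
      have h2 : a.2.2 = !κ := by
        cases hκ : κ <;> cases h3 : a.2.2 <;> simp_all
      rw [h2]; exact h1

theorem view_indep {w : CW A} (κ p p' : Bool) (h : Head0 (forget w)) :
    view κ p w = view κ p' w := by
  cases w with
  | nil => rfl
  | cons a w =>
    have ha : a.2.1 = false := h
    simp [view, ha]

/-- decomposition of a coloured word with given underlying word -/
theorem forget_split (c : CW A) (u v : List (A × Bool)) (h : forget c = u ++ v) :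
    ∃ c1 c2 : CW A, c = c1 ++ c2 ∧ forget c1 = u ∧ forget c2 = v := by
  unfold forget at h
  rw [List.map_eq_append_iff] at h
  obtain ⟨c1, c2, h1, h2, h3⟩ := h
  exact ⟨c1, c2, h1, h2, h3⟩

theorem forget_cons (c : CW A) (a : A × Bool) (v : List (A × Bool)) (h : forget c = a :: v) :
    ∃ (κ : Bool) (c' : CW A), c = (a.1, a.2, κ) :: c' ∧ forget c' = v := by
  unfold forget at h
  rw [List.map_eq_cons_iff] at h
  obtain ⟨b, c', h1, h2, h3⟩ := h
  refine ⟨b.2.2, c', ?_, h3⟩
  rw [h1, ← h2]

end LOW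

open LOW in
theorem specPU : SpecPU := by
  intro A f
  induction f with
  | eps =>
    intro u v h hu
    have hu' : u = [] := hu
    subst hu'
    have : v = [] := by
      cases v with
      | nil => rfl
      | cons b v => cases h
    exact this
  | act a =>
    intro u v h hu
    have hu' : u = [(a, false)] := hu
    subst hu'
    change v = [(a, false)]
    cases v with
    | nil => cases h
    | cons b v =>
      have h0 : List.Forall₂ (fun a b : A × Bool => a.1 = b.1 ∧ (b.2 = true → a.2 = true))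
        ((a, false) :: []) (b :: v) := h
      rw [List.forall₂_cons] at h0
      have hv : v = [] := by
        cases v with
        | nil => rfl
        | cons c v => cases h0.2
      subst hv
      have h1 := h0.1.1
      have h2 : b.2 = false := by
        cases hb : b.2 with
        | false => rfl
        | true => exact absurd (h0.1.2 hb) (by simp)
      obtain ⟨b1, b2⟩ := b
      simp only at h1 h2
      rw [h1, h2]
  | seq e f ihe ihf =>
    intro u v h hu
    obtain ⟨u1, h1, u2, h2, rfl⟩ := hu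
    obtain ⟨v1, v2, rfl, h3, h4⟩ := lower_split h
    exact ⟨v1, ihe _ _ h3 h1, v2, ihf _ _ h4 h2, rfl⟩
  | alt e f ihe ihf =>
    intro u v h hu
    rcases hu with hu | hu
    · exact Or.inl (ihe _ _ h hu)
    · exact Or.inr (ihf _ _ h hu)
  | conj e f ihe ihf =>
    intro u v h hu
    exact ⟨ihe _ _ h hu.1, ihf _ _ h hu.2⟩
  | par e f ihe ihf =>
    intro u v h hu
    obtain ⟨h1, c, rfl, h2, h3⟩ := hu
    obtain ⟨c', h4, h5⟩ := exists_lower_colouring c v h
    exact ⟨h.head0 h1, c', h4, ihe _ _ (h5.2 true true) h2, ihf _ _ (h5.2 false true) h3⟩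
  | star e ih =>
    intro u v h hu
    obtain ⟨l, hl, rfl⟩ := hu
    obtain ⟨l', rfl, h1⟩ := lower_flatten l v h
    refine ⟨l', ?_, rfl⟩
    intro w hw
    clear h
    induction h1 with
    | nil => simp at hw
    | @cons a b l1 l2 hab _ ih' =>
      rcases List.mem_cons.1 hw with rfl | hw
      · exact ih _ _ hab (hl _ (by simp))
      · exact ih' (fun u hu => hl u (by simp [hu])) hw

open LOW in
theorem specPS : SpecPS := by
  intro A f
  induction f with
  | eps =>
    intro α β x y hβ h
    have h' : α ++ (x, false) :: (y, true) :: β = [] := h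
    simp at h'
  | act a =>
    intro α β x y hβ h
    have h' : α ++ (x, false) :: (y, true) :: β = [(a, false)] := h
    have := congrArg List.length h'
    simp only [List.length_append, List.length_cons, List.length_nil] at this
    omega
  | seq e f ihe ihf =>
    intro α β x y hβ h
    obtain ⟨u1, h1, u2, h2, h3⟩ := h
    rcases split_pair (lam_head0 f u2 h2) hβ h3.symm with ⟨β', hβ', rfl, rfl⟩ | ⟨α', rfl, rfl⟩
    · exact ⟨_, ihe α β' x y hβ' h1, u2, h2, by simp⟩
    · exact ⟨u1, h1, _, ihf α' β x y hβ h2, by simp⟩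
  | alt e f ihe ihf =>
    intro α β x y hβ h
    rcases h with h | h
    · exact Or.inl (ihe α β x y hβ h)
    · exact Or.inr (ihf α β x y hβ h)
  | conj e f ihe ihf =>
    intro α β x y hβ h
    exact ⟨ihe α β x y hβ h.1, ihf α β x y hβ h.2⟩
  | par e f ihe ihf =>
    intro α β x y hβ h
    obtain ⟨h1, c, h2, h3, h4⟩ := h
    obtain ⟨ca, c', rfl, h5, h6⟩ := forget_split c α _ h2
    obtain ⟨κ1, c'', rfl, h7⟩ := forget_cons c' _ _ h6
    obtain ⟨κ2, cb, rfl, h8⟩ := forget_cons c'' _ _ h7
    have hcb : Head0 (forget cb) := by rw [h8]; exact hβ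
    refine ⟨?_, ca ++ (y, false, κ2) :: (x, true, κ1) :: cb, ?_, ?_, ?_⟩
    · cases α with
      | nil => rfl
      | cons a α => exact h1
    · rw [forget_append, h5, ← h8]; simp [forget]
    · rw [view_append] at h3 ⊢
      cases κ1 <;> cases κ2
      · simpa [view] using h3
      · simpa [view, view_indep true false true hcb] using h3
      · simpa [view, view_indep true false true hcb] using h3
      · have h9 := ihe (view true true ca) (view true true cb) x y (head0_view _ _ hcb)
        simp only [view, if_true, Bool.false_and, Bool.true_and, beq_self_eq_true] at h3 ⊢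
        exact h9 h3
    · rw [view_append] at h4 ⊢
      cases κ1 <;> cases κ2
      · have h9 := ihf (view false true ca) (view false false cb) x y (head0_view _ _ hcb)
        simp only [view, if_true, Bool.false_and, Bool.true_and, beq_self_eq_true] at h4 ⊢
        exact h9 h4
      · simpa [view, view_indep false false true hcb] using h4
      · simpa [view, view_indep false false true hcb] using h4
      · simpa [view] using h4
  | star e ih =>
    intro α β x y hβ h
    obtain ⟨l, hl, h3⟩ := h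
    induction l generalizing α β with
    | nil => simp at h3
    | cons u l ih' =>
      rw [List.flatten_cons] at h3
      have hh : Head0 l.flatten :=
        head0_flatten l (fun v hv => lam_head0 e v (hl v (by simp [hv])))
      rcases split_pair hh hβ h3.symm with ⟨β', hβ', rfl, rfl⟩ | ⟨α', rfl, h4⟩
      · refine ⟨(α ++ (y, false) :: (x, true) :: β') :: l, ?_, by simp⟩
        intro v hv
        rcases List.mem_cons.1 hv with rfl | hv
        · exact ih α β' x y hβ' (hl _ (by simp))
        · exact hl v (by simp [hv])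
      · obtain ⟨l', h5, h6⟩ := ih' α' β hβ (fun v hv => hl v (by simp [hv])) h4.symm
        refine ⟨u :: l', ?_, by simp [← h6]⟩
        intro v hv
        rcases List.mem_cons.1 hv with rfl | hv
        · exact hl _ (by simp)
        · exact h5 v hv

end Pool.Agent.Lib.MP5f7e94
end

section
/-!
# Common lemmas of the modules BARTO and BARFROM
-/
set_option autoImplicit false

namespace Pool.Agent.Lib.MP5f7e94

namespace BARCORE

variable {A : Type}

/-! ## st-words -/

/-- powers of `x_s x_t` -/
def Good (x : A) (l : List (ST A)) : Prop :=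
  ∃ n : ℕ, l = (List.replicate n [ST.s x, ST.t x]).flatten

theorem good_nil (x : A) : Good x [] := ⟨0, rfl⟩

theorem good_st (x : A) (l : List (ST A)) : Good x (.s x :: .t x :: l) ↔ Good x l := by
  constructor
  · rintro ⟨n, h⟩
    cases n with
    | zero => simp at h
    | succ n =>
      rw [List.replicate_succ, List.flatten_cons] at h
      simp only [List.cons_append, List.nil_append, List.cons.injEq, true_and] at h
      exact ⟨n, h⟩
  · rintro ⟨n, h⟩
    exact ⟨n + 1, by rw [List.replicate_succ, List.flatten_cons, ← h]; rfl⟩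

theorem not_good_t (x : A) (l : List (ST A)) : ¬ Good x (.t x :: l) := by
  rintro ⟨n, h⟩
  cases n with
  | zero => simp at h
  | succ n =>
    rw [List.replicate_succ, List.flatten_cons] at h
    simp at h

theorem not_good_s (x : A) : ¬ Good x [.s x] := by
  rintro ⟨n, h⟩
  cases n with
  | zero => simp at h
  | succ n =>
    rw [List.replicate_succ, List.flatten_cons] at h
    simp at h

theorem not_good_ss (x : A) (l : List (ST A)) : ¬ Good x (.s x :: .s x :: l) := by
  rintro ⟨n, h⟩
  cases n with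
  | zero => simp at h
  | succ n =>
    rw [List.replicate_succ, List.flatten_cons] at h
    simp at h

theorem good_append {x : A} {l m : List (ST A)} (hl : Good x l) (hm : Good x m) :
    Good x (l ++ m) := by
  obtain ⟨a, rfl⟩ := hl
  obtain ⟨b, rfl⟩ := hm
  exact ⟨a + b, by rw [List.replicate_add, List.flatten_append]⟩

variable [DecidableEq A]

/-- projection to the letters of the action `x` -/
def pr (x : A) (l : List (ST A)) : List (ST A) := l.filter (fun l => decide (l.act = x))

theorem isST_iff (u : List (ST A)) : IsST u ↔ ∀ x, Good x (pr x u) := Iff.rfl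

theorem pr_nil (x : A) : pr x [] = [] := rfl

theorem pr_s_self (x : A) (l : List (ST A)) : pr x (.s x :: l) = .s x :: pr x l := by
  simp [pr, ST.act]

theorem pr_t_self (x : A) (l : List (ST A)) : pr x (.t x :: l) = .t x :: pr x l := by
  simp [pr, ST.act]

theorem pr_s_ne {x y : A} (h : y ≠ x) (l : List (ST A)) : pr x (.s y :: l) = pr x l := by
  simp [pr, ST.act, h]

theorem pr_t_ne {x y : A} (h : y ≠ x) (l : List (ST A)) : pr x (.t y :: l) = pr x l := by
  simp [pr, ST.act, h]

theorem pr_append (x : A) (l m : List (ST A)) : pr x (l ++ m) = pr x l ++ pr x m := by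
  simp [pr]

theorem isST_nil : IsST ([] : List (ST A)) := fun x => good_nil x

theorem isST_append {u v : List (ST A)} (hu : IsST u) (hv : IsST v) : IsST (u ++ v) := by
  rw [isST_iff] at *
  intro x
  rw [pr_append]
  exact good_append (hu x) (hv x)

theorem isST_flatten (l : List (List (ST A))) (h : ∀ u ∈ l, IsST u) : IsST l.flatten := by
  induction l with
  | nil => exact isST_nil
  | cons u l ih =>
    rw [List.flatten_cons]
    exact isST_append (h u (by simp)) (ih (fun v hv => h v (by simp [hv])))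

/-- `x_s x_t p` -/
theorem isST_st (x : A) (p : List (ST A)) : IsST (.s x :: .t x :: p) ↔ IsST p := by
  rw [isST_iff, isST_iff]
  refine forall_congr' fun z => ?_
  by_cases hz : x = z
  · subst hz
    rw [pr_s_self, pr_t_self, good_st]
  · rw [pr_s_ne hz, pr_t_ne hz]

/-- `x_s y_s x_t p` -/
theorem isST_sst {x y : A} (hxy : x ≠ y) (p : List (ST A)) :
    IsST (.s x :: .s y :: .t x :: p) ↔ IsST (.s y :: p) := by
  rw [isST_iff, isST_iff]
  refine forall_congr' fun z => ?_
  by_cases hz : x = z
  · subst hz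
    rw [pr_s_self, pr_s_ne hxy.symm, pr_t_self, good_st, pr_s_ne hxy.symm]
  · rw [pr_s_ne hz]
    by_cases hz' : y = z
    · subst hz'
      rw [pr_s_self, pr_s_self, pr_t_ne hz]
    · rw [pr_s_ne hz', pr_s_ne hz', pr_t_ne hz]

theorem not_isST_s (x : A) : ¬ IsST [ST.s x] := by
  intro h
  have h1 := (isST_iff _).1 h x
  rw [pr_s_self, pr_nil] at h1
  exact not_good_s x h1

theorem not_isST_ss (x y : A) : ¬ IsST [ST.s x, ST.s y] := by
  intro h
  have h1 := (isST_iff _).1 h x
  rw [pr_s_self] at h1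
  by_cases hy : y = x
  · subst hy
    rw [pr_s_self] at h1
    exact not_good_ss y _ h1
  · rw [pr_s_ne hy, pr_nil] at h1
    exact not_good_s x h1

theorem not_isST_t (x : A) (p : List (ST A)) : ¬ IsST (.t x :: p) := by
  intro h
  have h1 := (isST_iff _).1 h x
  rw [pr_t_self] at h1
  exact not_good_t x _ h1

theorem not_isST_st {x y : A} (h : y ≠ x) (p : List (ST A)) : ¬ IsST (.s y :: .t x :: p) := by
  intro h
  have h1 := (isST_iff _).1 h x
  rw [pr_s_ne (by assumption), pr_t_self] at h1
  exact not_good_t x _ h1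

/-- all words of an expression are st-words -/
theorem isST_lang (e : Expr A) (u : List (ST A)) (h : u ∈ e.lang) : IsST u := by
  induction e generalizing u with
  | eps =>
    have h' : u = [] := h
    rw [h']; exact isST_nil
  | act a =>
    have h' : u = [ST.s a, ST.t a] := h
    rw [h', isST_st]; exact isST_nil
  | seq e f ihe ihf =>
    obtain ⟨v, hv, w, hw, rfl⟩ := h
    exact isST_append (ihe v hv) (ihf w hw)
  | alt e f ihe ihf =>
    rcases h with h | h
    · exact ihe u h
    · exact ihf u h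
  | conj e f ihe ihf => exact ihe u h.1
  | par e f ihe ihf => exact h.1
  | star e ih =>
    have h' : u ∈ KStar.kstar e.lang := h
    rw [Language.mem_kstar] at h'
    obtain ⟨L, rfl, hL⟩ := h'
    exact isST_flatten L (fun v hv => ih v (hL v hv))

/-! ## the tail -/

omit [DecidableEq A] in
/-- `tl x u`: what is emitted by the bar word `u` read after the running event `x` -/
def tl (x : A) (u : List (A × Bool)) : List (ST A) := mid x u ++ [.t (lastL x u)]

omit [DecidableEq A] in
theorem stw_cons (x : A) (b : Bool) (u : List (A × Bool)) : stw ((x, b) :: u) = .s x :: tl x u :=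
  rfl

omit [DecidableEq A] in
theorem tl_nil (x : A) : tl x [] = [.t x] := rfl

omit [DecidableEq A] in
theorem tl_true (x y : A) (u : List (A × Bool)) :
    tl x ((y, true) :: u) = .s y :: .t x :: tl y u := rfl

omit [DecidableEq A] in
theorem tl_false (x y : A) (u : List (A × Bool)) :
    tl x ((y, false) :: u) = .t x :: .s y :: tl y u := rfl

omit [DecidableEq A] in
theorem tl_head0 (x : A) {u : List (A × Bool)} (h : Head0 u) : tl x u = .t x :: stw u := by
  cases u with
  | nil => rfl
  | cons a u =>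
    obtain ⟨y, b⟩ := a
    have hb : b = false := h
    subst hb
    rfl

omit [DecidableEq A] in
theorem tl_append (x : A) (u : List (A × Bool)) {v : List (A × Bool)} (h : Head0 v) :
    tl x (u ++ v) = tl x u ++ stw v := by
  induction u generalizing x with
  | nil => rw [List.nil_append, tl_head0 x h, tl_nil]; rfl
  | cons a u ih =>
    obtain ⟨y, b⟩ := a
    cases b with
    | true => rw [List.cons_append, tl_true, tl_true, ih]; rfl
    | false => rw [List.cons_append, tl_false, tl_false, ih]; rfl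

omit [DecidableEq A] in
theorem stw_append (u : List (A × Bool)) {v : List (A × Bool)} (h : Head0 v) :
    stw (u ++ v) = stw u ++ stw v := by
  cases u with
  | nil => rfl
  | cons a u =>
    obtain ⟨y, b⟩ := a
    rw [List.cons_append, stw_cons, stw_cons, tl_append y u h]; rfl

/-- linked neighbours are distinct -/
abbrev Lk (a b : A × Bool) : Prop := b.2 = true → a.1 ≠ b.1

theorem isST_tl (x : A) (b : Bool) (u : List (A × Bool)) (h : ((x, b) :: u).IsChain Lk) :
    IsST (.s x :: tl x u) := by
  induction u generalizing x b with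
  | nil => rw [tl_nil, isST_st]; exact isST_nil
  | cons a u ih =>
    obtain ⟨y, c⟩ := a
    rw [List.isChain_cons_cons] at h
    cases c with
    | true =>
      rw [tl_true, isST_sst (h.1 rfl)]
      exact ih y true h.2
    | false =>
      rw [tl_false, isST_st]
      exact ih y false h.2

theorem isST_stw {u : List (A × Bool)} (h : Proper u) : IsST (stw u) := by
  cases u with
  | nil => exact isST_nil
  | cons a u =>
    obtain ⟨x, b⟩ := a
    rw [stw_cons]
    exact isST_tl x b u h.2

omit [DecidableEq A] in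
/-- the views of a word with distinct linked neighbours -/
theorem chain_view (c : CW A) (κ : Bool) :
    (∀ (x : A) (b b' : Bool), ((x, b) :: forget c).IsChain Lk →
      ((x, b') :: view κ κ c).IsChain Lk) ∧
    (∀ a : A × Bool, (forget c).IsChain Lk → (a :: view κ (!κ) c).IsChain Lk) := by
  induction c with
  | nil => exact ⟨fun x b b' _ => by simp [view], fun a _ => by simp [view]⟩
  | cons d c ih =>
    obtain ⟨y, b0, κ'⟩ := d
    constructor
    · intro x b b' h
      have h0 : ((x, b) :: (y, b0) :: forget c).IsChain Lk := h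
      rw [List.isChain_cons_cons] at h0
      by_cases hκ : κ' = κ
      · subst hκ
        simp only [view, if_true, beq_self_eq_true, Bool.and_true]
        rw [List.isChain_cons_cons]
        exact ⟨h0.1, ih.1 y b0 b0 h0.2⟩
      · have hκ' : κ' = !κ := by cases κ <;> cases κ' <;> simp_all
        simp only [view, hκ, if_false]
        rw [hκ']
        exact ih.2 (x, b') (List.IsChain.of_cons h0.2)
    · intro a h
      have h0 : ((y, b0) :: forget c).IsChain Lk := h
      by_cases hκ : κ' = κ
      · subst hκ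
        have : ((!κ') == κ') = false := by cases κ' <;> rfl
        simp only [view, if_true, this, Bool.and_false]
        rw [List.isChain_cons_cons]
        exact ⟨fun h => by simp at h, ih.1 y b0 false h0⟩
      · have hκ' : κ' = !κ := by cases κ <;> cases κ' <;> simp_all
        simp only [view, hκ, if_false]
        rw [hκ']
        exact ih.2 a (List.IsChain.of_cons h0)

omit [DecidableEq A] in
/-- the views of a proper word are proper -/
theorem proper_view {c : CW A} (h : Proper (forget c)) (κ p : Bool) : Proper (view κ p c) := by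
  refine ⟨LOW.head0_view κ p h.1, ?_⟩
  rw [LOW.view_indep κ p (!κ) h.1]
  cases c with
  | nil => simp [view]
  | cons d c =>
    have h1 := (chain_view (d :: c) κ).2 (d.1, true) h.2
    exact List.IsChain.of_cons h1

omit [DecidableEq A] in
theorem shuffle_symm {B : Type} {u v w : List B} (h : IsShuffle u v w) : IsShuffle v u w := by
  induction h with
  | nil => exact .nil
  | left a u v w _ ih => exact .right a v u w ih
  | right a u v w _ ih => exact .left a v u w ih

end BARCORE

end Pool.Agent.Lib.MP5f7e94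
end

section
/-!
# Module BARFROM: words of `Lam` give words of the language
-/
set_option autoImplicit false

namespace Pool.Agent.Lib.MP5f7e94

namespace BARFROM

open BARCORE

variable {A : Type}

theorem bnn (κ : Bool) : (κ = !κ) = False := by cases κ <;> simp

theorem bnn' (κ : Bool) : ((!κ) = κ) = False := by cases κ <;> simp

/-- the word is a shuffle of its views, with one running event -/
theorem shuffle_tl (c : CW A) (x : A) (κ : Bool) :
    IsShuffle (tl x (view κ κ c)) (stw (view (!κ) κ c)) (tl x (forget c)) := by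
  induction c generalizing x κ with
  | nil => exact .left _ _ _ _ .nil
  | cons a c ih =>
    obtain ⟨y, b, κ'⟩ := a
    have hf : forget ((y, b, κ') :: c) = (y, b) :: forget c := rfl
    rw [hf]
    by_cases hκ : κ' = κ
    · subst hκ
      have h1 := ih y κ'
      simp only [view, if_true, bnn, if_false, beq_self_eq_true, Bool.and_true]
      cases b with
      | true =>
        rw [tl_true, tl_true]
        exact .left _ _ _ _ (.left _ _ _ _ h1)
      | false =>
        rw [tl_false, tl_false]
        exact .left _ _ _ _ (.left _ _ _ _ h1)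
    · have hκ' : κ' = !κ := by cases κ <;> cases κ' <;> simp_all
      subst hκ'
      have h1 := shuffle_symm (ih y (!κ))
      rw [Bool.not_not] at h1
      simp only [view, bnn', if_false, if_true]
      rw [tl_head0 x (view_head0 κ c), stw_cons]
      cases b with
      | true =>
        rw [tl_true]
        exact .right _ _ _ _ (.left _ _ _ _ h1)
      | false =>
        rw [tl_false]
        exact .left _ _ _ _ (.right _ _ _ _ h1)

/-- the word is a shuffle of its views -/
theorem shuffle (c : CW A) :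
    IsShuffle (stw (view true true c)) (stw (view false true c)) (stw (forget c)) := by
  cases c with
  | nil => exact .nil
  | cons a c =>
    obtain ⟨x, b, κ⟩ := a
    have hf : forget ((x, b, κ) :: c) = (x, b) :: forget c := rfl
    rw [hf, stw_cons]
    cases κ with
    | true =>
      have h1 := shuffle_tl c x true
      simp only [view, if_true, Bool.true_eq_false, if_false]
      rw [stw_cons]
      exact .left _ _ _ _ h1
    | false =>
      have h1 := shuffle_symm (shuffle_tl c x false)
      simp only [view, if_true, Bool.false_eq_true, if_false]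
      rw [stw_cons]
      exact .right _ _ _ _ h1

end BARFROM

open BARCORE BARFROM in
theorem specBarFrom : SpecBarFrom := by
  intro A _ e
  induction e with
  | eps =>
    intro w _ h
    have h' : w = [] := h
    subst h'
    exact rfl
  | act a =>
    intro w _ h
    have h' : w = [(a, false)] := h
    subst h'
    exact rfl
  | seq e f ihe ihf =>
    intro w hw h
    obtain ⟨u, hu, v, hv, rfl⟩ := h
    have hv0 : Head0 v := LOW.lam_head0 f v hv
    have hu0 : Head0 u := LOW.lam_head0 e u hu
    have hc := List.isChain_append.1 hw.2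
    rw [stw_append u hv0]
    exact ⟨stw u, ihe u ⟨hu0, hc.1⟩ hu, stw v, ihf v ⟨hv0, hc.2.1⟩ hv, rfl⟩
  | alt e f ihe ihf =>
    intro w hw h
    rcases h with h | h
    · exact Or.inl (ihe w hw h)
    · exact Or.inr (ihf w hw h)
  | conj e f ihe ihf =>
    intro w hw h
    exact ⟨ihe w hw h.1, ihf w hw h.2⟩
  | par e f ihe ihf =>
    intro w hw h
    obtain ⟨h0, c, rfl, h1, h2⟩ := h
    exact ⟨isST_stw hw, _, ihe _ (proper_view hw true true) h1, _,
      ihf _ (proper_view hw false true) h2, shuffle c⟩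
  | star e ih =>
    intro w hw h
    obtain ⟨l, hl, rfl⟩ := h
    change stw l.flatten ∈ KStar.kstar e.lang
    rw [Language.mem_kstar]
    induction l with
    | nil => exact ⟨[], rfl, by simp⟩
    | cons u l ih' =>
      rw [List.flatten_cons] at hw ⊢
      have hv0 : Head0 l.flatten :=
        LOW.head0_flatten l (fun v hv => LOW.lam_head0 e v (hl v (by simp [hv])))
      have hu0 : Head0 u := LOW.lam_head0 e u (hl u (by simp))
      have hc := List.isChain_append.1 hw.2
      obtain ⟨L, h1, h2⟩ := ih' (fun v hv => hl v (by simp [hv])) ⟨hv0, hc.2.1⟩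
      refine ⟨stw u :: L, ?_, ?_⟩
      · rw [stw_append u hv0, h1]; rfl
      · intro y hy
        rcases List.mem_cons.1 hy with rfl | hy
        · exact ih u ⟨hu0, hc.1⟩ (hl u (by simp))
        · exact h2 y hy

end Pool.Agent.Lib.MP5f7e94
end

section
/-!
# Module BARTO: bar words of the language are in `Lam`
-/
set_option autoImplicit false

namespace Pool.Agent.Lib.MP5f7e94

namespace BARTO

open BARCORE

variable {A : Type} [DecidableEq A]

/-- cutting a tail at a place where nothing is running -/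
theorem cut_tl (u : List (A × Bool)) (x : A) (b : Bool) (p q : List (ST A))
    (hc : ((x, b) :: u).IsChain Lk) (h : tl x u = p ++ q) (hp : IsST (.s x :: p)) :
    ∃ u1 u2, u = u1 ++ u2 ∧ p = tl x u1 ∧ q = stw u2 ∧ Head0 u2 := by
  induction u generalizing x b p with
  | nil =>
    rw [tl_nil] at h
    cases p with
    | nil => exact absurd hp (not_isST_s x)
    | cons a p =>
      simp only [List.cons_append, List.cons.injEq] at h
      obtain ⟨rfl, h⟩ := h
      have h' := List.append_eq_nil_iff.1 h.symm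
      obtain ⟨rfl, rfl⟩ := h'
      exact ⟨[], [], rfl, rfl, rfl, trivial⟩
  | cons a u ih =>
    obtain ⟨y, c⟩ := a
    rw [List.isChain_cons_cons] at hc
    cases c with
    | true =>
      have hxy : x ≠ y := hc.1 rfl
      rw [tl_true] at h
      cases p with
      | nil => exact absurd hp (not_isST_s x)
      | cons a p =>
        simp only [List.cons_append, List.cons.injEq] at h
        obtain ⟨rfl, h⟩ := h
        cases p with
        | nil => exact absurd hp (not_isST_ss x y)
        | cons a p =>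
          simp only [List.cons_append, List.cons.injEq] at h
          obtain ⟨rfl, h⟩ := h
          rw [isST_sst hxy] at hp
          obtain ⟨u1, u2, rfl, rfl, h3, h4⟩ := ih y true p hc.2 h hp
          exact ⟨(y, true) :: u1, u2, rfl, rfl, h3, h4⟩
    | false =>
      rw [tl_false] at h
      cases p with
      | nil => exact absurd hp (not_isST_s x)
      | cons a p =>
        simp only [List.cons_append, List.cons.injEq] at h
        obtain ⟨rfl, h⟩ := h
        cases p with
        | nil =>
          refine ⟨[], (y, false) :: u, rfl, rfl, ?_, rfl⟩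
          rw [stw_cons]
          simpa using h.symm
        | cons a p =>
          simp only [List.cons_append, List.cons.injEq] at h
          obtain ⟨rfl, h⟩ := h
          rw [isST_st] at hp
          obtain ⟨u1, u2, rfl, rfl, h3, h4⟩ := ih y false p hc.2 h hp
          exact ⟨(y, false) :: u1, u2, rfl, rfl, h3, h4⟩

/-- cutting a word at a place where nothing is running -/
theorem cut {w : List (A × Bool)} {p q : List (ST A)} (hw : Proper w) (h : stw w = p ++ q)
    (hp : IsST p) :
    ∃ u v, w = u ++ v ∧ p = stw u ∧ q = stw v ∧ Proper u ∧ Proper v := by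
  have key : ∃ u v, w = u ++ v ∧ p = stw u ∧ q = stw v ∧ Head0 v := by
    cases w with
    | nil =>
      have h' := List.append_eq_nil_iff.1 h.symm
      obtain ⟨rfl, rfl⟩ := h'
      exact ⟨[], [], rfl, rfl, rfl, trivial⟩
    | cons a w =>
      obtain ⟨x, b⟩ := a
      rw [stw_cons] at h
      cases p with
      | nil => exact ⟨[], (x, b) :: w, rfl, rfl, by rw [stw_cons]; simpa using h.symm, hw.1⟩
      | cons a p =>
        simp only [List.cons_append, List.cons.injEq] at h
        obtain ⟨rfl, h⟩ := h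
        obtain ⟨u1, u2, rfl, rfl, h3, h4⟩ := cut_tl w x b p q hw.2 h hp
        exact ⟨(x, b) :: u1, u2, rfl, rfl, h3, h4⟩
  obtain ⟨u, v, rfl, h1, h2, h3⟩ := key
  have hc := (List.isChain_append.1 hw.2)
  refine ⟨u, v, rfl, h1, h2, ⟨?_, hc.1⟩, ⟨h3, hc.2.1⟩⟩
  cases u with
  | nil => trivial
  | cons a u => exact hw.1

theorem bnn (κ : Bool) : (κ = !κ) = False := by cases κ <;> simp

theorem bnn' (κ : Bool) : ((!κ) = κ) = False := by cases κ <;> simp

/-- colouring along a shuffle, with one running event -/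
theorem colour_tl (u : List (A × Bool)) (x : A) (b κ : Bool) (p q : List (ST A))
    (hc : ((x, b) :: u).IsChain Lk) (h : IsShuffle p q (tl x u)) (hp : IsST (.s x :: p))
    (hq : IsST q) :
    ∃ c : CW A, forget c = u ∧ p = tl x (view κ κ c) ∧ q = stw (view (!κ) κ c) := by
  induction u generalizing x b κ p q with
  | nil =>
    rw [tl_nil] at h
    cases h with
    | left a u v w h =>
      cases h
      exact ⟨[], rfl, rfl, rfl⟩
    | right a u v w h =>
      exact absurd hq (not_isST_t x _)
  | cons a u ih =>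
    obtain ⟨y, c⟩ := a
    rw [List.isChain_cons_cons] at hc
    cases c with
    | true =>
      have hxy : x ≠ y := hc.1 rfl
      rw [tl_true] at h
      cases h with
      | left a p v w h =>
        cases h with
        | left a p v w h =>
          rw [isST_sst hxy] at hp
          obtain ⟨c, h1, h2, h3⟩ := ih y true κ p q hc.2 h hp hq
          refine ⟨(y, true, κ) :: c, ?_, ?_, ?_⟩
          · simp only [forget, List.map_cons]; rw [← h1]; rfl
          · simp only [view, if_true, beq_self_eq_true, Bool.and_true]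
            rw [tl_true, ← h2]
          · simp only [view, bnn, if_false]
            exact h3
        | right a p v w h => exact absurd hq (not_isST_t x _)
      | right a p v w h =>
        cases h with
        | left a p v w h =>
          rw [isST_st] at hp
          obtain ⟨c, h1, h2, h3⟩ := ih y true (!κ) v p hc.2 (shuffle_symm h) hq hp
          rw [Bool.not_not] at h3
          refine ⟨(y, true, !κ) :: c, ?_, ?_, ?_⟩
          · simp only [forget, List.map_cons]; rw [← h1]; rfl
          · simp only [view, bnn', if_false]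
            rw [tl_head0 x (view_head0 κ c), ← h3]
          · simp only [view, if_true]
            rw [stw_cons, ← h2]
        | right a p v w h => exact absurd hq (not_isST_st hxy.symm _)
    | false =>
      rw [tl_false] at h
      cases h with
      | left a p v w h =>
        rw [isST_st] at hp
        cases h with
        | left a p v w h =>
          obtain ⟨c, h1, h2, h3⟩ := ih y false κ p q hc.2 h hp hq
          refine ⟨(y, false, κ) :: c, ?_, ?_, ?_⟩
          · simp only [forget, List.map_cons]; rw [← h1]; rfl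
          · simp only [view, if_true, Bool.false_and]
            rw [tl_false, ← h2]
          · simp only [view, bnn, if_false]
            exact h3
        | right a p' v w h =>
          obtain ⟨c, h1, h2, h3⟩ := ih y false (!κ) v p hc.2 (shuffle_symm h) hq hp
          rw [Bool.not_not] at h3
          refine ⟨(y, false, !κ) :: c, ?_, ?_, ?_⟩
          · simp only [forget, List.map_cons]; rw [← h1]; rfl
          · simp only [view, bnn', if_false]
            rw [tl_head0 x (view_head0 κ c), ← h3]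
          · simp only [view, if_true, Bool.false_and]
            rw [stw_cons, ← h2]
      | right a p v w h => exact absurd hq (not_isST_t x _)

/-- colouring along a shuffle -/
theorem colour {w : List (A × Bool)} {p q : List (ST A)} (hw : Proper w)
    (h : IsShuffle p q (stw w)) (hp : IsST p) (hq : IsST q) :
    ∃ c : CW A, forget c = w ∧ p = stw (view true true c) ∧ q = stw (view false true c) := by
  cases w with
  | nil =>
    cases h
    exact ⟨[], rfl, rfl, rfl⟩
  | cons a w =>
    obtain ⟨x, b⟩ := a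
    rw [stw_cons] at h
    cases h with
    | left a p v w h =>
      obtain ⟨c, h1, h2, h3⟩ := colour_tl w x b true p q hw.2 h hp hq
      refine ⟨(x, b, true) :: c, ?_, ?_, ?_⟩
      · simp only [forget, List.map_cons]; rw [← h1]; rfl
      · simp only [view, if_true]
        rw [stw_cons, ← h2]
      · simpa [view] using h3
    | right a p' v w h =>
      obtain ⟨c, h1, h2, h3⟩ := colour_tl w x b false v p hw.2 (shuffle_symm h) hq hp
      refine ⟨(x, b, false) :: c, ?_, ?_, ?_⟩
      · simp only [forget, List.map_cons]; rw [← h1]; rfl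
      · simpa [view] using h3
      · simp only [view, if_true]
        rw [stw_cons, ← h2]

end BARTO

open BARCORE BARTO in
theorem specBarTo : SpecBarTo := by
  intro A _ e
  induction e with
  | eps =>
    intro w _ h
    have h' : stw w = [] := h
    cases w with
    | nil => rfl
    | cons a w => simp [stw] at h'
  | act a =>
    intro w hw h
    have h' : stw w = [ST.s a, ST.t a] := h
    change w = [(a, false)]
    cases w with
    | nil => simp [stw] at h'
    | cons b w =>
      obtain ⟨x, b⟩ := b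
      have hb : b = false := hw.1
      rw [stw_cons] at h'
      simp only [List.cons.injEq, ST.s.injEq] at h'
      obtain ⟨rfl, h'⟩ := h'
      cases w with
      | nil => rw [hb]
      | cons c w =>
        obtain ⟨y, c⟩ := c
        cases c with
        | true => rw [tl_true] at h'; simp at h'
        | false => rw [tl_false] at h'; simp at h'
  | seq e f ihe ihf =>
    intro w hw h
    obtain ⟨p, hp, q, hq, h1⟩ := h
    obtain ⟨u, v, rfl, rfl, rfl, h2, h3⟩ := cut hw h1.symm (isST_lang e p hp)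
    exact ⟨u, ihe u h2 hp, v, ihf v h3 hq, rfl⟩
  | alt e f ihe ihf =>
    intro w hw h
    rcases h with h | h
    · exact Or.inl (ihe w hw h)
    · exact Or.inr (ihf w hw h)
  | conj e f ihe ihf =>
    intro w hw h
    exact ⟨ihe w hw h.1, ihf w hw h.2⟩
  | par e f ihe ihf =>
    intro w hw h
    obtain ⟨_, p, hp, q, hq, hs⟩ := h
    obtain ⟨c, rfl, h2, h3⟩ := colour hw hs (isST_lang e p hp) (isST_lang f q hq)
    refine ⟨hw.1, c, rfl, ihe _ (proper_view hw true true) ?_, ihf _ (proper_view hw false true) ?_⟩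
    · rw [← h2]; exact hp
    · rw [← h3]; exact hq
  | star e ih =>
    intro w hw h
    have h' : stw w ∈ KStar.kstar e.lang := h
    rw [Language.mem_kstar] at h'
    obtain ⟨L, hL, hm⟩ := h'
    clear h
    induction L generalizing w with
    | nil =>
      cases w with
      | nil => exact ⟨[], by simp, rfl⟩
      | cons a w => simp [stw] at hL
    | cons p L ih' =>
      rw [List.flatten_cons] at hL
      obtain ⟨u, v, rfl, h1, h2, h3, h4⟩ := cut hw hL (isST_lang e p (hm p (by simp)))
      obtain ⟨l, h5, rfl⟩ := ih' v h4 h2.symm (fun y hy => hm y (by simp [hy]))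
      refine ⟨u :: l, ?_, by simp⟩
      intro z hz
      rcases List.mem_cons.1 hz with rfl | hz
      · exact ih _ h3 (by rw [← h1]; exact hm p (by simp))
      · exact h5 z hz

end Pool.Agent.Lib.MP5f7e94
end

section
/-!
# Module CASEA: a monochromatic factor
-/
set_option autoImplicit false

namespace Pool.Agent.Lib.MP5f7e94

namespace CASEA

variable {A : Type}

/-- the word `u` with colour `κ` -/
def colw (κ : Bool) (u : List (A × Bool)) : CW A := u.map (fun a => (a.1, a.2, κ))

theorem forget_colw (κ : Bool) (u : List (A × Bool)) : forget (colw κ u) = u := by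
  simp [forget, colw, Function.comp_def]

theorem lastCol_colw (κ : Bool) (u : List (A × Bool)) : lastCol κ (colw κ u) = κ := by
  induction u with
  | nil => rfl
  | cons a u ih => simpa [colw, lastCol] using ih

theorem lastCol_colw_ne (κ p : Bool) (u : List (A × Bool)) (hu : u ≠ []) :
    lastCol p (colw κ u) = κ := by
  cases u with
  | nil => exact absurd rfl hu
  | cons a u => simpa [colw, lastCol] using lastCol_colw κ u

theorem view_colw (κ : Bool) (u : List (A × Bool)) : view κ κ (colw κ u) = u := by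
  induction u with
  | nil => rfl
  | cons a u ih =>
    have h : view κ κ (List.map (fun a : A × Bool => (a.1, a.2, κ)) u) = u := ih
    simp [colw, view, h]

theorem view_colw_ne (κ κ' p : Bool) (h : κ ≠ κ') (u : List (A × Bool)) :
    view κ' p (colw κ u) = [] := by
  induction u generalizing p with
  | nil => rfl
  | cons a u ih =>
    have h' : view κ' κ (List.map (fun a : A × Bool => (a.1, a.2, κ)) u) = [] := ih κ
    simp [colw, view, h, h']

theorem eq_colw (κ : Bool) (w : CW A) (u : List (A × Bool)) (h : forget w = u)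
    (hc : ∀ a ∈ w, a.2.2 = κ) : w = colw κ u := by
  subst h
  rw [forget, colw, List.map_map]
  conv_lhs => rw [← List.map_id w]
  apply List.map_congr_left
  intro a ha
  have := hc a ha
  obtain ⟨x, b, c⟩ := a
  simp only at this
  simp [this]

theorem view_same (κ p : Bool) (l r : CW A) (E1 V : List (A × Bool)) (hE : E1 ≠ []) :
    view κ p (l ++ (colw κ E1 ++ colw κ V) ++ r) =
      (view κ p l ++ view κ (lastCol p l) (colw κ E1)) ++ V ++ view κ κ r := by
  simp only [view_append, lastCol_append]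
  rw [lastCol_colw_ne κ _ E1 hE, view_colw, lastCol_colw]
  simp [List.append_assoc]

theorem view_other (κ κ' p : Bool) (h : κ ≠ κ') (l r : CW A) (E1 V : List (A × Bool))
    (hE : E1 ≠ []) :
    view κ' p (l ++ (colw κ E1 ++ colw κ V) ++ r) = view κ' p l ++ view κ' κ r := by
  simp only [view_append, lastCol_append]
  rw [lastCol_colw_ne κ _ E1 hE, lastCol_colw, view_colw_ne κ κ' _ h, view_colw_ne κ κ' _ h]
  simp

end CASEA

open CASEA

theorem specCaseA : SpecCaseA := by
  intro E W f1 f2 l w r κ hE h1 h2 hw hκ hacc hl hln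
  have hEn : ones E ≠ [] := by
    intro h
    apply hE
    have := congrArg List.length h
    rw [ones_length] at this
    exact List.length_eq_zero_iff.1 this
  have hw' : w = colw κ (ones E) ++ colw κ (ones E) := by
    rw [eq_colw κ w _ hw hκ, ones_append, colw, List.map_append]
    rfl
  subst hw'
  have hc : forget (l ++ (colw κ (ones E) ++ colw κ W) ++ r) =
      forget l ++ ones E ++ W ++ forget r := by
    simp only [forget_append, forget_colw, List.append_assoc]
  refine ⟨?_, l ++ (colw κ (ones E) ++ colw κ W) ++ r, hc, ?_, ?_⟩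
  · rw [List.append_assoc, List.append_assoc, head0_append_of_ne]
    · exact hl
    · intro h
      apply hln
      simpa [forget] using h
  · have h := hacc.1
    cases κ with
    | true =>
      rw [view_same _ _ _ _ _ _ hEn] at h ⊢
      exact h1 _ _ h
    | false =>
      rw [view_other false true _ (by decide) _ _ _ _ hEn] at h ⊢
      exact h
  · have h := hacc.2
    cases κ with
    | true =>
      rw [view_other true false _ (by decide) _ _ _ _ hEn] at h ⊢
      exact h
    | false =>
      rw [view_same _ _ _ _ _ _ hEn] at h ⊢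
      exact h2 _ _ h

end Pool.Agent.Lib.MP5f7e94
end

section
/-!
# The stabiliser is closed under lowering of views; more common lemmas on windows
-/
set_option autoImplicit false

namespace Pool.Agent.Lib.MP5f7e94

theorem Stab.vlower (hPU : SpecPU) {A : Type} {f1 f2 : Expr A} {l w w' : CW A}
    (h : Stab f1 f2 l w) (hw : VLower w w') : Stab f1 f2 l w' := by
  refine ⟨?_, fun r hr => ?_⟩
  · rw [lastCol_append, ← hw.1, ← lastCol_append]
    exact h.1
  · have h1 := h.2 r hr
    have key : VLower (l ++ w ++ r) (l ++ w' ++ r) :=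
      ((VLower.refl l).append hw).append (VLower.refl r)
    exact ⟨hPU A f1 _ _ (key.2 true true) h1.1, hPU A f2 _ _ (key.2 false true) h1.2⟩

theorem blk_append_ones {A : Type} {n : ℕ} {u : List (A × Bool)} (hu : blk n u) (l : List A) :
    blk n (u ++ ones l) := by
  induction u generalizing n with
  | nil => rw [List.nil_append, blk_ones]; simp only [blk] at hu; omega
  | cons a u ih =>
    obtain ⟨x, b⟩ := a
    cases b with
    | true => exact ih hu
    | false => exact ⟨hu.1, ih hu.2⟩

theorem cseg_forget (a n : ℕ) (c : ℕ → Bool) : forget (cseg a n c) = ones (seg a n) := by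
  simp [forget, cseg, ones, seg]

theorem cseg_add (a m n : ℕ) (c : ℕ → Bool) :
    cseg a (m + n) c = cseg a m c ++ cseg (a + m) n c := by
  unfold cseg
  rw [← List.map_append]
  congr 1
  simp

theorem cseg_succ (a n : ℕ) (c : ℕ → Bool) :
    cseg a (n + 1) c = (xs a, true, c a) :: cseg (a + 1) n c := by
  simp [cseg, List.range'_succ]

end Pool.Agent.Lib.MP5f7e94
end

section
/-!
# Assembly of the final theorem from the Specs
-/
set_option autoImplicit false

namespace Pool.Agent.Lib.MP5f7e94.Final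

open Pool.Agent.Lib.MP5f7e94

theorem val_eq_one_of_idem {M : Type} [Monoid M] {φ : List (Act × Bool) → M} (hφ : IsMor φ)
    (hv : ∀ u v, φ u = φ v → theta tr u = theta tr v) (u : List (Act × Bool))
    (h : φ u * φ u = φ u) : theta tr u = 1 := by
  have h1 : φ (u ++ u) = φ u := by rw [hφ.2, h]
  have h2 := hv _ _ h1
  rw [theta_append] at h2
  exact mul_eq_left.mp h2

theorem sat_refine {M N : Type} (φ : List (Act × Bool) → M) (ψ : List (Act × Bool) → N)
    (h : ∀ u v, ψ u = ψ v → φ u = φ v) (S : Set (List (Act × Bool))) (hS : Sat φ S) : Sat ψ S :=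
  fun u v huv => hS u v (h u v huv)

theorem recAll_refine {M N : Type} (φ : List (Act × Bool) → M) (ψ : List (Act × Bool) → N)
    (h : ∀ u v, ψ u = ψ v → φ u = φ v) (e : Expr Act) (he : RecAll φ e) : RecAll ψ e := by
  induction e with
  | eps => exact sat_refine φ ψ h _ he
  | act a => exact sat_refine φ ψ h _ he
  | seq e f ihe ihf => exact ⟨sat_refine φ ψ h _ he.1, ihe he.2.1, ihf he.2.2⟩
  | alt e f ihe ihf => exact ⟨sat_refine φ ψ h _ he.1, ihe he.2.1, ihf he.2.2⟩
  | conj e f ihe ihf => exact ⟨sat_refine φ ψ h _ he.1, ihe he.2.1, ihf he.2.2⟩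
  | par e f ihe ihf => exact ⟨sat_refine φ ψ h _ he.1, ihe he.2.1, ihf he.2.2⟩
  | star e ihe => exact ⟨sat_refine φ ψ h _ he.1, ihe he.2⟩

/-- No expression denotes the language of the six transpositions of `S_4`. -/
theorem not_expressible (hTo : SpecBarTo) (hFrom : SpecBarFrom) (hRec : SpecRec)
    (hConn : SpecConn) (hEnd : SpecAmbEnd) (hSemi : SpecSemi) (hHgrp : SpecHgrp)
    (hY : SpecYprop) (hUniv : SpecUniv) (hMain : SpecMain) (e : Expr Act) :
    e.lang ≠ Lw tr := by
  intro heq
  obtain ⟨M₀, _, _, φ₀, hφ₀, hrec₀⟩ := hRec Act e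
  let φ : List (Act × Bool) → M₀ × G4 := fun u => (φ₀ u, theta tr u)
  have hφ : IsMor φ := by
    refine ⟨?_, fun u v => ?_⟩
    · simp only [φ, hφ₀.1, theta_nil]; rfl
    · simp only [φ, hφ₀.2, theta_append]; rfl
  have hv : ∀ u v, φ u = φ v → theta tr u = theta tr v := fun u v h => congrArg Prod.snd h
  have hrec : RecAll φ e :=
    recAll_refine φ₀ φ (fun u v h => congrArg Prod.fst h) e hrec₀
  obtain ⟨E, F, hE, hF, hFE, hee, hff, hef, hfe, hgV, hgD⟩ := hSemi (M₀ × G4) φ hφ
  obtain ⟨H, _, _, D, hD⟩ := hHgrp (M₀ × G4) φ F hφ hv hF hff hgD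
  obtain ⟨hY1, hY2, hY3, hY4⟩ := hY F H D hF
  obtain ⟨h0, hh0⟩ := hY4 g0 Data.is3_g0
  obtain ⟨m, hmE, hmA, hmD⟩ := hUniv F H D hF h0 hh0
  have hval : theta tr (ones E) = 1 := val_eq_one_of_idem hφ hv _ hee
  rw [theta_ones] at hval
  -- the test word
  have hch : (oc :: (E ++ [oc])).IsChain (· ≠ ·) := by
    rw [List.isChain_cons]
    refine ⟨?_, ?_⟩
    · intro y hy
      have hh : (E ++ [oc]).head? = some oa := by
        rw [List.head?_append, hE.2.2.1]; rfl
      rw [hh] at hy
      simp only [Option.mem_some_iff] at hy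
      subst hy
      exact Data.ends_ne.2.1
    · rw [List.isChain_append]
      refine ⟨hE.2.1, by simp, ?_⟩
      intro x hx y hy
      rw [hE.2.2.2] at hx
      simp only [Option.mem_some_iff, List.head?_cons] at hx hy
      subst hx hy
      exact Data.ends_ne.2.2.symm
  have hone : val tr (oc :: (E ++ [oc])) = 1 := by
    rw [Data.val_cons, Data.val_append, hval, Data.val_cons, Data.val_nil]
    simpa using Data.tr_mul_self oc
  have h1 : stw ((oc, false) :: ones (E ++ [oc])) ∈ Lw tr := hConn Act G4 tr oc _ hch hone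
  rw [← heq] at h1
  have hones : (oc, false) :: ones (E ++ [oc]) = [(oc, false)] ++ ones E ++ [(oc, true)] := by
    simp [ones]
  rw [hones] at h1
  have hprop : Proper ([(oc, false)] ++ ones E ++ [(oc, true)] : List (Act × Bool)) := by
    refine ⟨rfl, ?_⟩
    rw [← hones]
    have h2 : ((oc, false) :: ones (E ++ [oc])).IsChain
        (fun a b : Act × Bool => a.1 ≠ b.1) := by
      rw [← List.isChain_map (R := (· ≠ ·)) Prod.fst]
      simpa [ones_map_fst] using hch
    exact h2.imp (fun a b h _ => h)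
  have h2 := hTo Act e _ hprop h1
  have h3 := hMain (M₀ × G4) φ E F m H D h0 hφ hv hE hF hFE hee hff hef hfe hgV hD hh0 hmD e hrec
    [(oc, false)] [(oc, true)] h2
  have hprop' : Proper ([(oc, false)] ++ (F ++ m ++ F) ++ [(oc, true)] : List (Act × Bool)) := by
    refine ⟨rfl, ?_⟩
    have h4 : ([(oc, false)] ++ (F ++ m ++ F) ++ [(oc, true)] : List (Act × Bool)).IsChain
        (fun a b : Act × Bool => a.1 ≠ b.1) := by
      rw [← List.isChain_map (R := (· ≠ ·)) Prod.fst]
      rw [List.map_append, List.map_append]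
      simp only [List.map_cons, List.map_nil]
      rw [List.append_assoc, List.singleton_append, List.isChain_cons]
      refine ⟨?_, ?_⟩
      · intro y hy
        rw [List.head?_append, hmE.2.1] at hy
        simp only [Option.some_or, Option.mem_some_iff] at hy
        subst hy
        exact Data.ends_ne.2.1
      · rw [List.isChain_append]
        refine ⟨hmE.1, by simp, ?_⟩
        intro x hx y hy
        rw [hmE.2.2] at hx
        simp only [Option.mem_some_iff, List.head?_cons] at hx hy
        subst hx hy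
        exact Data.ends_ne.2.2.symm
    exact h4.imp (fun a b h _ => h)
  have h5 := hFrom Act e _ hprop' h3
  rw [heq] at h5
  have hne : F ++ m ++ F ≠ [] := by
    have := blk_zero_ne_nil hF.1
    simp [this]
  obtain ⟨v, ⟨i, j, rfl⟩, hv1⟩ := hEnd Act G4 tr oc (F ++ m ++ F) _ hne hmA (by
    simpa [List.append_assoc] using h5)
  have h6 := Data.tr_mul_self oc
  have h7 : a1 ^ i * a2 ^ j * g0 = 1 := by
    have h8 : tr oc * (a1 ^ i * a2 ^ j * g0) * tr oc = tr oc * tr oc := by rw [hv1, h6]
    exact mul_eq_left.mp (mul_right_cancel h8)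
  exact Data.g0_ne' i j h7

end Pool.Agent.Lib.MP5f7e94.Final
end

section
/-!
# Module HGRP: the group of the words `F d F`
-/
set_option autoImplicit false

namespace Pool.Agent.Lib.MP5f7e94

namespace HGRP

/-- values of the words `F d F` -/
@[ext]
structure HT {M : Type} (φ : List (Act × Bool) → M) (F : List (Act × Bool)) : Type where
  v : M
  ex : ∃ t, DF oa ob F t ∧ φ t = v

theorem ho : oa ≠ ob := Data.ends_ne.1

/-- a word of an element -/
noncomputable def wd {M : Type} {φ : List (Act × Bool) → M} {F : List (Act × Bool)}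
    (h : HT φ F) : List (Act × Bool) := Classical.choose h.ex

theorem wd_df {M : Type} {φ : List (Act × Bool) → M} {F : List (Act × Bool)} (h : HT φ F) :
    DF oa ob F (wd h) := (Classical.choose_spec h.ex).1

theorem wd_val {M : Type} {φ : List (Act × Bool) → M} {F : List (Act × Bool)} (h : HT φ F) :
    φ (wd h) = h.v := (Classical.choose_spec h.ex).2

theorem right_id {M : Type} [Monoid M] {φ : List (Act × Bool) → M} {F : List (Act × Bool)}
    (hφ : IsMor φ) (hid : φ F * φ F = φ F) {t : List (Act × Bool)}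
    (ht : DF oa ob F t) : φ t * φ F = φ t := by
  obtain ⟨d, _, rfl⟩ := ht
  rw [hφ.2, mul_assoc, hid]

theorem exists_inv {M : Type} [Monoid M] {φ : List (Act × Bool) → M} {F : List (Act × Bool)}
    (hφ : IsMor φ) (hid : φ F * φ F = φ F)
    (hr : ∀ d, InD oa ob d → ∃ r, InD oa ob r ∧ φ (F ++ d ++ F ++ r ++ F) = φ F)
    (h : HT φ F) : ∃ k : HT φ F, h.v * k.v = φ F := by
  obtain ⟨m, t, ⟨d, hd, rfl⟩, rfl⟩ := h
  obtain ⟨r, hr1, hr2⟩ := hr d hd
  refine ⟨⟨φ (F ++ r ++ F), F ++ r ++ F, ⟨r, hr1, rfl⟩, rfl⟩, ?_⟩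
  show φ (F ++ d ++ F) * φ (F ++ r ++ F) = φ F
  rw [← hr2]
  simp only [hφ.2]
  calc φ F * φ d * φ F * (φ F * φ r * φ F) = φ F * φ d * (φ F * φ F) * φ r * φ F := by
        simp only [mul_assoc]
    _ = φ F * φ d * φ F * φ r * φ F := by rw [hid]

end HGRP

open HGRP in
theorem specHgrp : SpecHgrp := by
  intro M _ _ φ F hφ hθ hF hid hr
  classical
  let iMul : Mul (HT φ F) := ⟨fun h k => ⟨h.v * k.v, wd h ++ wd k,
    (wd_df h).append ho hF (wd_df k), by rw [hφ.2, wd_val h, wd_val k]⟩⟩
  have hone : ∃ t, DF oa ob F t ∧ φ t = φ F := by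
    obtain ⟨r, hr1, hr2⟩ := hr F hF
    exact ⟨F ++ (F ++ F ++ r) ++ F, ⟨F ++ F ++ r, (hF.append ho hF).append ho hr1, rfl⟩,
      by rw [← hr2]; simp only [List.append_assoc]⟩
  let iOne : One (HT φ F) := ⟨⟨φ F, hone⟩⟩
  let iInv : Inv (HT φ F) := ⟨fun h => Classical.choose (exists_inv hφ hid hr h)⟩
  have hmul : ∀ h k : HT φ F, (h * k).v = h.v * k.v := fun _ _ => rfl
  have hone1 : (1 : HT φ F).v = φ F := rfl
  have hinv : ∀ h : HT φ F, h.v * (h⁻¹).v = φ F :=
    fun h => Classical.choose_spec (exists_inv hφ hid hr h)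
  let iG : Group (HT φ F) := Group.ofRightAxioms
    (fun a b c => HT.ext (by rw [hmul, hmul, hmul, hmul, mul_assoc]))
    (fun a => HT.ext (by
      rw [hmul, hone1]
      obtain ⟨t, ht, ht2⟩ := a.ex
      rw [← ht2]
      exact right_id hφ hid ht))
    (fun a => HT.ext (by rw [hmul, hone1]; exact hinv a))
  have iFin : Finite (HT φ F) := Finite.of_injective (fun h : HT φ F => h.v)
    (fun a b h => HT.ext h)
  have hGmul : ∀ h k : HT φ F, (h * k).v = h.v * k.v := fun _ _ => rfl
  let θ : HT φ F →* G4 := MonoidHom.mk' (fun h => theta tr (wd h)) (by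
    intro h k
    show theta tr (wd (h * k)) = theta tr (wd h) * theta tr (wd k)
    rw [← theta_append]
    apply hθ
    rw [wd_val (h * k), hφ.2, wd_val h, wd_val k, hGmul])
  let ρ : List (Act × Bool) → HT φ F := fun t =>
    if ht : DF oa ob F t then ⟨φ t, t, ht, rfl⟩ else 1
  have hρ : ∀ t, DF oa ob F t → (ρ t).v = φ t := by
    intro t ht
    have : ρ t = ⟨φ t, t, ht, rfl⟩ := dif_pos ht
    rw [this]
  refine ⟨HT φ F, iG, iFin, ⟨ρ, θ, ?_, ?_, ?_⟩, ?_⟩
  · intro t t' ht ht'
    apply HT.ext
    rw [hGmul, hρ _ (ht.append ho hF ht'), hρ _ ht, hρ _ ht', hφ.2]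
  · intro h
    obtain ⟨t, ht, ht2⟩ := h.ex
    exact ⟨t, ht, HT.ext (by rw [hρ t ht, ht2])⟩
  · intro t ht
    show theta tr (wd (ρ t)) = theta tr t
    apply hθ
    rw [wd_val (ρ t), hρ t ht]
  · intro t t' ht ht'
    show ρ t = ρ t' ↔ φ t = φ t'
    rw [← hρ t ht, ← hρ t' ht']
    exact ⟨fun h => by rw [h], fun h => HT.ext h⟩

end Pool.Agent.Lib.MP5f7e94
end

section
/-!
# Module IDEM: minimal idempotents
-/
set_option autoImplicit false

namespace Pool.Agent.Lib.MP5f7e94

namespace IDEM

/-- a power of every element of a finite monoid is idempotent -/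
theorem exists_pow {M : Type} [Monoid M] [Finite M] (u : M) :
    ∃ n : ℕ, 1 ≤ n ∧ u ^ n * u ^ n = u ^ n := by
  obtain ⟨i, j, hij, h⟩ := Finite.exists_ne_map_eq_of_infinite (fun n : ℕ => u ^ n)
  wlog hlt : i < j generalizing i j
  · exact this j i hij.symm h.symm (lt_of_le_of_ne (not_lt.1 hlt) hij.symm)
  obtain ⟨d, rfl⟩ := Nat.exists_eq_add_of_lt hlt
  have h' : u ^ i = u ^ (i + (d + 1)) := by simpa [add_assoc] using h
  have h1 : ∀ k, u ^ i = u ^ (i + k * (d + 1)) := by
    intro k
    induction k with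
    | zero => simp
    | succ k ih =>
      calc u ^ i = u ^ (i + (d + 1)) := h'
        _ = u ^ i * u ^ (d + 1) := pow_add _ _ _
        _ = u ^ (i + k * (d + 1)) * u ^ (d + 1) := by rw [← ih]
        _ = u ^ (i + (k + 1) * (d + 1)) := by
          rw [← pow_add]
          congr 1
          ring
  refine ⟨(i + 1) * (d + 1), Nat.mul_pos (Nat.succ_pos i) (Nat.succ_pos d), ?_⟩
  have h2 : i ≤ (i + 1) * (d + 1) := by nlinarith
  obtain ⟨r, hr⟩ := Nat.exists_eq_add_of_le h2
  rw [← pow_add]
  conv_rhs => rw [hr, pow_add, h1 (i + 1), ← pow_add]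
  congr 1
  omega

end IDEM

open IDEM

theorem specIdem : SpecIdem := by
  classical
  intro M _ _ T hne hmul
  have hpow : ∀ u ∈ T, ∀ n : ℕ, u ^ (n + 1) ∈ T := by
    intro u hu n
    induction n with
    | zero => simpa using hu
    | succ n ih =>
      rw [pow_succ]
      exact hmul _ ih _ hu
  have hpow' : ∀ u ∈ T, ∀ n : ℕ, 1 ≤ n → u ^ n ∈ T := by
    intro u hu n hn
    obtain ⟨k, rfl⟩ := Nat.exists_eq_add_of_le' hn
    exact hpow u hu k
  -- the sets `f T f`
  let S : M → Set M := fun f => {x | ∃ t ∈ T, x = f * t * f}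
  let P : ℕ → Prop := fun n => ∃ f ∈ T, f * f = f ∧ (S f).ncard = n
  have hP : ∃ n, P n := by
    obtain ⟨u, hu⟩ := hne
    obtain ⟨n, hn, h⟩ := exists_pow u
    exact ⟨_, u ^ n, hpow' u hu n hn, h, rfl⟩
  obtain ⟨f, hfT, hff, hcard⟩ := Nat.find_spec hP
  refine ⟨f, hfT, hff, fun s hs => ?_⟩
  have hu : f * s * f ∈ T := hmul _ (hmul _ hfT _ hs) _ hfT
  obtain ⟨n, hn, he⟩ := exists_pow (f * s * f)
  refine ⟨n, hn, ?_⟩
  set e := (f * s * f) ^ n with hedef
  have heT : e ∈ T := hpow' _ hu n hn
  obtain ⟨k, rfl⟩ := Nat.exists_eq_add_of_le' hn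
  have hfe : f * e = e := by
    rw [hedef, pow_succ']
    simp only [← mul_assoc, hff]
  have hef : e * f = e := by
    rw [hedef, pow_succ]
    simp only [mul_assoc, hff]
  have hsub : S e ⊆ S f := by
    rintro x ⟨t, ht, rfl⟩
    refine ⟨e * t * e, hmul _ (hmul _ heT _ ht) _ heT, ?_⟩
    have : f * (e * t * e) * f = (f * e) * t * (e * f) := by simp only [mul_assoc]
    rw [this, hfe, hef]
  have hle : (S f).ncard ≤ (S e).ncard := by
    rw [hcard]
    exact Nat.find_min' hP ⟨e, heT, he, rfl⟩
  have heq : S e = S f := Set.eq_of_subset_of_ncard_le hsub hle (Set.toFinite _)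
  have hf : f ∈ S e := by
    rw [heq]
    exact ⟨f, hfT, by rw [hff, hff]⟩
  obtain ⟨t, _, ht⟩ := hf
  have : e * f = f := by
    conv_lhs => rw [ht]
    rw [← mul_assoc, ← mul_assoc, he, ← ht]
  rw [← hef, this]

end Pool.Agent.Lib.MP5f7e94
end

section
/-!
# Common frame of the window modules
-/
set_option autoImplicit false

namespace Pool.Agent.Lib.MP5f7e94

namespace WFRAME

theorem conj_is3 {a : G4} (v : G4) (h : Is3 a) : Is3 (v * a * v⁻¹) := by
  obtain ⟨h1, h2⟩ := h
  refine ⟨fun h => h1 ?_, ?_⟩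
  · have e : a = v⁻¹ * (v * a * v⁻¹) * v := by group
    rw [e, h]
    group
  · have e : v * a * v⁻¹ * (v * a * v⁻¹) * (v * a * v⁻¹) = v * (a * a * a) * v⁻¹ := by group
    rw [e, h2]
    group

theorem conj_pt {a : G4} (v : G4) (h : a 0 ≠ 0) : (v * a * v⁻¹) (v 0) ≠ v 0 := by
  have e : v⁻¹ (v 0) = 0 := Equiv.symm_apply_apply v 0
  rw [Equiv.Perm.mul_apply, Equiv.Perm.mul_apply, e]
  exact fun h' => h (v.injective h')

theorem ends_replace {A B u1 u2 : List Act} (hA : A ≠ []) (hB : B ≠ [])
    (h : Ends oa ob (A ++ u1 ++ B)) (hc : u2.IsChain (· ≠ ·)) (hh : u2.head? = u1.head?)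
    (hl : u2.getLast? = u1.getLast?) : Ends oa ob (A ++ u2 ++ B) := by
  obtain ⟨h1, h2, h3⟩ := h
  rw [List.isChain_append, List.isChain_append] at h1
  obtain ⟨⟨h4, h5, h6⟩, h7, h8⟩ := h1
  refine ⟨?_, ?_, ?_⟩
  · rw [List.isChain_append, List.isChain_append]
    refine ⟨⟨h4, hc, ?_⟩, h7, ?_⟩
    · rw [hh]
      exact h6
    · rw [List.getLast?_append, hl, ← List.getLast?_append]
      exact h8
  · rw [List.head?_append_of_ne_nil _ (by simp [hA]), List.head?_append_of_ne_nil _ hA] at h2 ⊢
    exact h2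
  · rw [List.getLast?_append_of_ne_nil _ hB] at h3 ⊢
    exact h3

/-- The frame: two windows which form a swap pair. -/
theorem frame (hPU : SpecPU) {F : List (Act × Bool)} {X Z : List Act} {f1 f2 : Expr Act}
    {l wa wb W1 W2 : CW Act} (hF : InD oa ob F) (hX : 3 ≤ X.length)
    (ha : forget wa = ones (F.map Prod.fst ++ X)) (hb : forget wb = ones (Z ++ F.map Prod.fst))
    (h1 : Stab f1 f2 l (wa ++ W1 ++ wb)) (h2 : Stab f1 f2 l (wa ++ W2 ++ wb))
    {P0 Q0 : List (Act × Bool)} {x y z : Act} {b1 b2 c1 c2 : Bool}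
    (e1 : forget W1 ++ ones Z = P0 ++ (x, b1) :: (y, true) :: (z, b2) :: Q0)
    (e2 : forget W2 ++ ones Z = P0 ++ (y, c1) :: (x, true) :: (z, c2) :: Q0)
    (hP : blk 3 P0) (hQ : blk 1 Q0)
    (k1 : blk 3 (forget W1 ++ ones Z)) (k2 : blk 3 (forget W2 ++ ones Z))
    (n1 : Ends oa ob (X ++ (forget W1).map Prod.fst ++ Z))
    (n2 : Ends oa ob (X ++ (forget W2).map Prod.fst ++ Z))
    (h3 : Is3 (theta tr P0 * cm (tr x) (tr y) * (theta tr P0)⁻¹))
    (h0 : (theta tr P0 * cm (tr x) (tr y) * (theta tr P0)⁻¹) 0 ≠ 0) :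
    WinConcl F f1 f2 l (val tr (F.map Prod.fst ++ X) 0) := by
  obtain ⟨wa', ha', va⟩ := exists_lower_colouring wa (F ++ ones X) (by
    rw [ha, ones_append]
    exact (Lower.of_fst F).append (Lower.refl _))
  obtain ⟨wb', hb', vb⟩ := exists_lower_colouring wb (ones Z ++ F) (by
    rw [hb, ones_append]
    exact (Lower.refl _).append (Lower.of_fst F))
  have inD : ∀ W : CW Act, blk 3 (forget W ++ ones Z) →
      Ends oa ob (X ++ (forget W).map Prod.fst ++ Z) →
      DF oa ob F (forget (wa' ++ W ++ wb')) := by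
    intro W k n
    refine ⟨ones X ++ (forget W ++ ones Z), ⟨?_, ?_⟩, ?_⟩
    · rw [blk_ones_append]
      exact blk_mono (by omega) _ k
    · rw [List.map_append, List.map_append, ones_map_fst, ones_map_fst, ← List.append_assoc]
      exact n
    · rw [forget_append, forget_append, ha', hb']
      simp only [List.append_assoc]
  have hv : theta tr (F ++ ones X) = val tr (F.map Prod.fst ++ X) := by
    rw [theta_append, theta_ones, Data.val_append]
    rfl
  refine ⟨val tr (F.map Prod.fst ++ X) * (theta tr P0 * cm (tr x) (tr y) * (theta tr P0)⁻¹) *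
    (val tr (F.map Prod.fst ++ X))⁻¹, wa' ++ W1 ++ wb', wa' ++ W2 ++ wb', conj_is3 _ h3,
    conj_pt _ h0, h1.vlower hPU ((va.append (VLower.refl _)).append vb),
    h2.vlower hPU ((va.append (VLower.refl _)).append vb), inD W1 k1 n1, inD W2 k2 n2, ?_⟩
  refine ⟨F ++ ones X ++ P0, Q0 ++ F, x, y, z, b1, b2, c1, c2, ?_, ?_, ?_, ?_, ?_⟩
  · have : forget (wa' ++ W1 ++ wb') = F ++ ones X ++ (forget W1 ++ ones Z) ++ F := by
      rw [forget_append, forget_append, ha', hb']
      simp only [List.append_assoc]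
    rw [this, e1]
    simp only [List.append_assoc, List.cons_append]
  · have : forget (wa' ++ W2 ++ wb') = F ++ ones X ++ (forget W2 ++ ones Z) ++ F := by
      rw [forget_append, forget_append, ha', hb']
      simp only [List.append_assoc]
    rw [this, e2]
    simp only [List.append_assoc, List.cons_append]
  · rw [List.append_assoc]
    refine blk_append hF.1 ?_
    rw [blk_ones_append]
    exact blk_mono (by omega) _ hP
  · exact blk_append hQ hF.1
  · rw [theta_append, hv, mul_inv_rev]
    simp only [mul_assoc]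

end WFRAME

end Pool.Agent.Lib.MP5f7e94
end

section
/-!
# INS: insertion of letters of the other colour into a monochromatic window
-/
set_option autoImplicit false

namespace Pool.Agent.Lib.MP5f7e94

namespace INS

theorem seg_zero (a : ℕ) : seg a 0 = [] := rfl

theorem seg_head {a n : ℕ} (h : 0 < n) : (seg a n).head? = some (xs a) := by
  obtain ⟨k, rfl⟩ : ∃ k, n = k + 1 := ⟨n - 1, by omega⟩
  rw [Data.seg_succ]
  rfl

theorem seg_last {a n : ℕ} (h : 0 < n) : (seg a n).getLast? = some (xs (a + n - 1)) := by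
  obtain ⟨k, rfl⟩ : ∃ k, n = k + 1 := ⟨n - 1, by omega⟩
  rw [Data.seg_add, Data.seg_succ, seg_zero, List.getLast?_append_of_ne_nil _ (by simp)]
  rfl

theorem seg_chain (a n : ℕ) : (seg a n).IsChain (· ≠ ·) := by
  induction n generalizing a with
  | zero => exact List.IsChain.nil
  | succ n ih =>
      rw [Data.seg_succ, List.isChain_cons]
      refine ⟨fun y hy => ?_, ih _⟩
      rcases Nat.eq_zero_or_pos n with rfl | hn
      · simp [seg_zero] at hy
      · rw [seg_head hn] at hy
        simp only [Option.mem_some_iff] at hy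
        rw [← hy]
        exact (Data.xs_dist a).1

theorem xs_last {R : ℕ} (h : 0 < R) : xs (14 * R - 1) = xs 13 := by
  obtain ⟨k, rfl⟩ : ∃ k, R = k + 1 := ⟨R - 1, by omega⟩
  rw [show 14 * (k + 1) - 1 = 13 + 14 * k by omega, Data.xs_add]

/-! ## monochromatic words -/

theorem view_same (κ : Bool) (a n : ℕ) : view κ κ (cseg a n fun _ => κ) = ones (seg a n) := by
  induction n generalizing a with
  | zero => rfl
  | succ n ih =>
      rw [cseg_succ, Data.seg_succ, ones_cons, view, if_pos rfl, ih]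
      simp

theorem view_same' (κ : Bool) (a n : ℕ) (p : Bool) :
    view κ p (cseg a (n + 1) fun _ => κ) = (xs a, p == κ) :: ones (seg (a + 1) n) := by
  rw [cseg_succ, view, if_pos rfl, view_same]
  simp

theorem view_other (κ p : Bool) (a n : ℕ) : view (!κ) p (cseg a n fun _ => κ) = [] := by
  induction n generalizing a p with
  | zero => rfl
  | succ n ih =>
      rw [cseg_succ, view, if_neg (by cases κ <;> simp), ih]

theorem lastCol_mono (κ : Bool) (a n : ℕ) : lastCol κ (cseg a n fun _ => κ) = κ := by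
  induction n generalizing a with
  | zero => rfl
  | succ n ih => rw [cseg_succ, lastCol, ih]

theorem lastCol_pos (κ p : Bool) {a n : ℕ} (h : 0 < n) :
    lastCol p (cseg a n fun _ => κ) = κ := by
  obtain ⟨k, rfl⟩ : ∃ k, n = k + 1 := ⟨n - 1, by omega⟩
  rw [cseg_succ, lastCol, lastCol_mono]

/-! ## one block -/

/-- the window word with `v` inserted before the letter `xs i` -/
def block (κ : Bool) (i : ℕ) (v : Act) : CW Act :=
  cseg 0 i (fun _ => κ) ++ (v, true, !κ) :: cseg i (14 - i) (fun _ => κ)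

theorem block_forget (κ : Bool) (i : ℕ) (v : Act) :
    forget (block κ i v) = ones (seg 0 i ++ v :: seg i (14 - i)) := by
  rw [block, forget_append, cseg_forget, ones_append, ones_cons]
  congr 1
  change (v, true) :: forget (cseg i (14 - i) fun _ => κ) = _
  rw [cseg_forget]

theorem block_lastCol (κ p : Bool) {i : ℕ} (hi : i ≤ 13) (v : Act) :
    lastCol p (block κ i v) = κ := by
  rw [block, lastCol_append, lastCol]
  exact lastCol_pos _ _ (by omega)

theorem block_lower (κ : Bool) {i : ℕ} (hi : i ≤ 13) (v : Act) :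
    Lower (ones (seg 0 14)) (view κ κ (block κ i v)) := by
  have h1 : view κ κ (block κ i v) =
      ones (seg 0 i) ++ (xs i, false) :: ones (seg (i + 1) (13 - i)) := by
    rw [block, view_append, view_same, lastCol_mono, view, if_neg (by cases κ <;> simp)]
    rw [show 14 - i = (13 - i) + 1 by omega, view_same']
    cases κ <;> rfl
  have h2 : seg 0 14 = seg 0 i ++ xs i :: seg (i + 1) (13 - i) := by
    have h3 := Data.seg_add 0 i (13 - i + 1)
    rw [Nat.zero_add, Data.seg_succ, show i + (13 - i + 1) = 14 by omega] at h3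
    exact h3
  rw [h1, h2, ones_append, ones_cons]
  exact (Lower.refl _).append (List.Forall₂.cons ⟨rfl, fun _ => rfl⟩ (Lower.refl _))

theorem block_other (κ : Bool) (i : ℕ) (v : Act) :
    view (!κ) κ (block κ i v) = [(v, false)] := by
  rw [block, view_append, view_other, lastCol_mono, view, if_pos rfl, view_other]
  cases κ <;> rfl

/-- letters of `rest`, one in each of the first copies of the window word -/
structure Good (κ : Bool) (rest : List Act) (R : ℕ) (T : List Act) (m : CW Act) : Prop where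
  fg : forget m = ones T
  chain : T.IsChain (· ≠ ·)
  lc : lastCol κ m = κ
  low : Lower (ones (seg 0 (14 * R))) (view κ κ m)
  oth : view (!κ) κ m = rest.map (fun x => (x, false))
  zero : R = 0 → T = []
  head : 0 < R → T.head? = some (xs 0)
  last : 0 < R → T.getLast? = some (xs 13)

theorem block_chain {i : ℕ} (h1 : 1 ≤ i) (h2 : i ≤ 13) {v : Act} (hv1 : v ≠ xs (i - 1))
    (hv2 : v ≠ xs i) : (seg 0 i ++ v :: seg i (14 - i)).IsChain (· ≠ ·) := by
  rw [List.isChain_append, List.isChain_cons]
  refine ⟨seg_chain _ _, ⟨fun y hy => ?_, seg_chain _ _⟩, fun x hx y hy => ?_⟩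
  · rw [seg_head (by omega)] at hy
    simp only [Option.mem_some_iff] at hy
    rw [← hy]
    exact hv2
  · rw [seg_last (by omega)] at hx
    simp only [Option.mem_some_iff, List.head?_cons] at hx hy
    rw [← hx, ← hy, Nat.zero_add]
    exact hv1.symm

theorem seg_split (R : ℕ) : seg 0 (14 * (R + 1)) = seg 0 14 ++ seg 0 (14 * R) := by
  rw [show 14 * (R + 1) = 14 + 14 * R by ring, Data.seg_add]
  congr 1
  exact Data.seg_shift 0 1 (14 * R)

theorem good_cons {κ : Bool} {rest : List Act} {R : ℕ} {T : List Act} {m : CW Act}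
    (h : Good κ rest R T m) {v : Act} {i : ℕ} (h1 : 1 ≤ i) (h2 : i ≤ 13) (hv1 : v ≠ xs (i - 1))
    (hv2 : v ≠ xs i) :
    Good κ (v :: rest) (R + 1) ((seg 0 i ++ v :: seg i (14 - i)) ++ T) (block κ i v ++ m) := by
  have hlast : (seg 0 i ++ v :: seg i (14 - i)).getLast? = some (xs 13) := by
    rw [List.getLast?_append_of_ne_nil _ (by simp)]
    rw [List.getLast?_cons, seg_last (by omega)]
    simp only [Option.getD_some]
    congr 2
    omega
  refine ⟨?_, ?_, ?_, ?_, ?_, fun h => absurd h (Nat.succ_ne_zero R), fun _ => ?_, fun _ => ?_⟩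
  · rw [forget_append, block_forget, h.fg, ones_append _ T]
  · rw [List.isChain_append]
    refine ⟨block_chain h1 h2 hv1 hv2, h.chain, fun x hx y hy => ?_⟩
    rcases Nat.eq_zero_or_pos R with hR | hR
    · rw [h.zero hR] at hy
      simp at hy
    · rw [h.head hR] at hy
      rw [hlast] at hx
      simp only [Option.mem_some_iff] at hx hy
      rw [← hx, ← hy]
      decide +kernel
  · rw [lastCol_append, block_lastCol κ κ h2, h.lc]
  · rw [view_append, block_lastCol κ κ h2, seg_split, ones_append]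
    exact (block_lower κ h2 v).append h.low
  · rw [view_append, block_lastCol κ κ h2, block_other, h.oth]
    rfl
  · rw [List.head?_append_of_ne_nil _ (by simp), List.head?_append_of_ne_nil, seg_head (by omega)]
    intro h'
    have := congrArg List.length h'
    rw [Data.seg_length] at this
    simp at this
    omega
  · rcases Nat.eq_zero_or_pos R with hR | hR
    · rw [h.zero hR, List.append_nil, hlast]
    · have hT : T ≠ [] := by
        rintro rfl
        have := h.last hR
        simp at this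
      rw [List.getLast?_append_of_ne_nil _ hT, h.last hR]

theorem exists_good (κ : Bool) (rest : List Act) : ∀ R, rest.length ≤ R →
    ∃ T m, Good κ rest R T m := by
  induction rest with
  | nil =>
      intro R _
      refine ⟨seg 0 (14 * R), cseg 0 (14 * R) fun _ => κ, ⟨cseg_forget _ _ _, seg_chain _ _,
        lastCol_mono _ _ _, ?_, view_other _ _ _ _, ?_, fun h => seg_head (by omega), ?_⟩⟩
      · rw [view_same]
        exact Lower.refl _
      · rintro rfl
        rfl
      · intro h
        rw [seg_last (by omega), Nat.zero_add, xs_last h]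
  | cons v rest ih =>
      intro R hR
      rw [List.length_cons] at hR
      obtain ⟨R, rfl⟩ : ∃ R', R = R' + 1 := ⟨R - 1, by omega⟩
      obtain ⟨T, m, h⟩ := ih R (by omega)
      obtain ⟨i, h1, h2, h3, h4⟩ := Data.ins_any v
      exact ⟨_, _, good_cons h h1 h2 h3 h4⟩

end INS

theorem specIns : SpecIns := by
  intro v rest κ R hR
  obtain ⟨R, rfl⟩ : ∃ R', R = R' + 1 := ⟨R - 1, by omega⟩
  obtain ⟨T, m, h⟩ := INS.exists_good κ rest R (by omega)
  obtain ⟨j, h1, h2, h3, h4, h5, h6, h7⟩ := Data.ins_three v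
  have g1 := INS.good_cons h h1 (by omega : j ≤ 13) h3 h4
  have g2 := INS.good_cons h (i := j + 1) (by omega) (by omega) (by simpa using h4) h5
  have e1 : (seg 0 j ++ v :: seg j (14 - j)) ++ T =
      seg 0 j ++ v :: xs j :: (seg (j + 1) (13 - j) ++ T) := by
    rw [show 14 - j = 13 - j + 1 by omega, Data.seg_succ]
    simp
  have e2 : (seg 0 (j + 1) ++ v :: seg (j + 1) (14 - (j + 1))) ++ T =
      seg 0 j ++ xs j :: v :: (seg (j + 1) (13 - j) ++ T) := by
    rw [Data.seg_add, Data.seg_succ, INS.seg_zero, Nat.zero_add,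
      show 14 - (j + 1) = 13 - j by omega]
    simp
  have hne : seg (j + 1) (13 - j) ≠ [] := by
    intro h'
    have := congrArg List.length h'
    rw [Data.seg_length] at this
    simp at this
    omega
  refine ⟨j, seg (j + 1) (13 - j) ++ T, INS.block κ j v ++ m, INS.block κ (j + 1) v ++ m, h1, h6,
    h7, ?_, ?_, ?_, ?_, ?_, ?_, ?_, ?_, g1.low, g2.low, g1.oth, g2.oth⟩
  · rw [g1.fg, e1]
  · rw [g2.fg, e2]
  · rw [← e1]
    exact g1.chain
  · rw [← e2]
    exact g2.chain
  · simp [hne]
  · have := g1.last (Nat.succ_pos R)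
    rw [e1, List.getLast?_append_of_ne_nil _ (by simp), List.getLast?_cons_cons,
      List.getLast?_cons, ] at this
    rw [← this]
    cases hc : (seg (j + 1) (13 - j) ++ T).getLast? with
    | none =>
        rw [List.getLast?_eq_none_iff] at hc
        simp [hne] at hc
    | some a => rfl
  · intro p
    rw [lastCol_append, INS.block_lastCol κ p (by omega), h.lc]
  · intro p
    rw [lastCol_append, INS.block_lastCol κ p (by omega), h.lc]

end Pool.Agent.Lib.MP5f7e94
end

section
/-!
# Module LEMG: the group theoretical lemma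
-/
set_option autoImplicit false

namespace Pool.Agent.Lib.MP5f7e94

namespace LEMG

theorem fixpt : ∀ b : G4, Is3 b → ∃ p : Fin 4, b p = p := by decide +kernel

/-- two 3-cycles with different fixed points give all 3-cycles by conjugations and inverses -/
theorem gen : ∀ (b b' : G4) (p : Fin 4), Is3 b → Is3 b' → b p = p → b' p ≠ p →
    ∀ a : G4, Is3 a → a = b ∨ a = b' ∨ a = b * b' * b⁻¹ ∨ a = b⁻¹ * b' * b ∨
      a = b⁻¹ ∨ a = b'⁻¹ ∨ a = b * b'⁻¹ * b⁻¹ ∨ a = b⁻¹ * b'⁻¹ * b := by decide +kernel

theorem conj_g0 : a1 * g0 * a1⁻¹ = a2 := by decide +kernel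

end LEMG

theorem specLemG : SpecLemG := by
  intro H _ θ Y hθ hinv hconj hne S hS h hh
  have tinv : ∀ a : G4, (∃ y ∈ Y a, y ∈ S) → ∃ y ∈ Y a⁻¹, y ∈ S := by
    rintro a ⟨y, hy, hyS⟩
    exact ⟨y⁻¹, hinv a y hy, S.inv_mem hyS⟩
  have tconj : ∀ a b : G4, (∃ y ∈ Y a, y ∈ S) → (∃ y ∈ Y b, y ∈ S) →
      ∃ y ∈ Y (a * b * a⁻¹), y ∈ S := by
    rintro a b ⟨y, hy, hyS⟩ ⟨z, hz, hzS⟩
    refine ⟨y * z * y⁻¹, ?_, S.mul_mem (S.mul_mem hyS hzS) (S.inv_mem hyS)⟩
    have := hconj b z y hz
    rwa [hθ a y hy] at this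
  have tall : ∀ a : G4, Is3 a → ∃ y ∈ Y a, y ∈ S := by
    obtain ⟨b, hb3, _, hb⟩ := hS 0
    obtain ⟨p, hp⟩ := LEMG.fixpt b hb3
    obtain ⟨b', hb3', hp', hb'⟩ := hS p
    intro a ha
    rcases LEMG.gen b b' p hb3 hb3' hp hp' a ha with h | h | h | h | h | h | h | h
    · rw [h]; exact hb
    · rw [h]; exact hb'
    · rw [h]; exact tconj b b' hb hb'
    · rw [h]
      have := tconj b⁻¹ b' (tinv b hb) hb'
      rwa [inv_inv] at this
    · rw [h]; exact tinv b hb
    · rw [h]; exact tinv b' hb'
    · rw [h]; exact tconj b b'⁻¹ hb (tinv b' hb')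
    · rw [h]
      have := tconj b⁻¹ b'⁻¹ (tinv b hb) (tinv b' hb')
      rwa [inv_inv] at this
  obtain ⟨s, hs, hsS⟩ := tall g0 Data.is3_g0
  obtain ⟨y, hy⟩ := hne a1 Data.is3_a1
  have hz : y * s * y⁻¹ ∈ Y a2 := by
    have := hconj g0 s y hs
    rwa [hθ a1 y hy, LEMG.conj_g0] at this
  have hz' : y * h * y⁻¹ ∈ Y a2 := by
    have := hconj g0 h y hh
    rwa [hθ a1 y hy, LEMG.conj_g0] at this
  have hn : θ ((y * s * y⁻¹) * (y * h * y⁻¹)⁻¹) = 1 := by
    rw [map_mul, map_inv, hθ a2 _ hz, hθ a2 _ hz', mul_inv_cancel]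
  have hy' : ((y * s * y⁻¹) * (y * h * y⁻¹)⁻¹) * y * ((y * s * y⁻¹) * (y * h * y⁻¹)⁻¹)⁻¹ ∈
      Y a1 := by
    have := hconj a1 y ((y * s * y⁻¹) * (y * h * y⁻¹)⁻¹) hy
    rwa [hn, one_mul, inv_one, mul_one] at this
  refine ⟨y, hy, _, hy', y * s * y⁻¹, hz, y * h * y⁻¹, hz', ?_⟩
  have e : y⁻¹ * (((y * s * y⁻¹) * (y * h * y⁻¹)⁻¹) * y *
      ((y * s * y⁻¹) * (y * h * y⁻¹)⁻¹)⁻¹) * (y * s * y⁻¹ * (y * h * y⁻¹)⁻¹) * h = s := by
    group
  rw [e]
  exact hsS

end Pool.Agent.Lib.MP5f7e94
end

section
/-!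
# The main lemma
-/
set_option autoImplicit false

namespace Pool.Agent.Lib.MP5f7e94.Main

open Pool.Agent.Lib.MP5f7e94

/-! ## splitting coloured words -/

theorem forget_split {A : Type} {w : CW A} {a b : List (A × Bool)} (h : forget w = a ++ b) :
    ∃ w1 w2, w = w1 ++ w2 ∧ forget w1 = a ∧ forget w2 = b := by
  unfold forget at h ⊢
  rw [List.map_eq_append_iff] at h
  obtain ⟨w1, w2, h1, h2, h3⟩ := h
  exact ⟨w1, w2, h1, h2, h3⟩

/-! ## windows and connectors -/

theorem seg_mul_ne_nil {K : ℕ} (hK : 1 ≤ K) : seg 0 (14 * K) ≠ [] := by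
  intro h
  have := Data.seg_length 0 (14 * K)
  rw [h] at this
  simp at this
  omega

theorem ends_window (C C' : List Act) (h : Ends oa ob (C ++ seg 0 14 ++ C')) (K : ℕ)
    (hK : 1 ≤ K) : Ends oa ob (C ++ seg 0 (14 * K) ++ C') := by
  induction K, hK using Nat.le_induction with
  | base => simpa using h
  | succ K hK ih =>
    have e : seg 0 (14 * (K + 1)) = seg 0 14 ++ seg 0 (14 * K) := by
      rw [show 14 * (K + 1) = 14 + 14 * K by ring, Data.seg_add]
      congr 1
      exact Data.seg_shift 0 1 (14 * K)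
    have e2 : C ++ seg 0 (14 * (K + 1)) ++ C' = (C ++ seg 0 14) ++ (seg 0 (14 * K) ++ C') := by
      rw [e]; simp
    have ih' : Ends oa ob (C ++ (seg 0 (14 * K) ++ C')) := by simpa using ih
    have hne : seg 0 (14 * K) ++ C' ≠ [] := by simp [seg_mul_ne_nil hK]
    have hne2 : C ++ seg 0 14 ≠ [] := by simp [Data.seg14, om]
    rw [e2]
    refine ⟨?_, ?_, ?_⟩
    · rw [List.isChain_append]
      refine ⟨?_, ?_, ?_⟩
      · have := h.1
        rw [List.isChain_append] at this
        exact this.1
      · have := ih'.1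
        rw [List.isChain_append] at this
        exact this.2.1
      · intro x hx y hy
        have hx' : x = 2 := by
          rw [List.getLast?_append, Data.seg14] at hx
          simpa [om] using hx.symm
        have hy' : y = 0 := by
          obtain ⟨k, hk⟩ : ∃ k, 14 * K = k + 1 := ⟨14 * K - 1, by omega⟩
          rw [hk, Data.seg_succ] at hy
          simp only [List.cons_append, List.head?_cons, Option.mem_some_iff] at hy
          rw [← hy]; decide
        rw [hx', hy']; decide
    · have := h.2.1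
      rw [List.head?_append_of_ne_nil _ hne2] at this ⊢
      exact this
    · have := ih'.2.2
      rw [List.getLast?_append_of_ne_nil _ hne] at this ⊢
      exact this

/-- the window with connectors -/
def piece (K : ℕ) (i : Fin 4) : List Act := Data.con i ++ seg 0 (14 * K) ++ Data.con' i

theorem piece_inV {K : ℕ} (hK : 1 ≤ K) (i : Fin 4) : InV oa ob (piece K i) := by
  refine ⟨?_, ends_window _ _ ?_ K hK⟩
  · unfold piece
    rw [List.length_append, List.length_append, Data.seg_length]
    omega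
  · rw [Data.seg14]; exact Data.con_ends i

theorem piece_val (K : ℕ) (i : Fin 4) : val tr (piece K i) = 1 := by
  unfold piece
  rw [Data.val_append, Data.val_append, Data.val_seg_mul, mul_one]
  exact Data.con_val i

/-! ## powers -/

theorem seg_pow {M : Type} [Monoid M] {φ : List (Act × Bool) → M} (hφ : IsMor φ) (n : ℕ) :
    φ (ones (seg 0 (14 * n))) = φ (ones (seg 0 14)) ^ n := by
  induction n with
  | zero => rw [pow_zero]; exact hφ.1
  | succ n ih =>
    rw [show 14 * (n + 1) = 14 * n + 14 by ring, Data.seg_add, ones_append, hφ.2, ih, pow_succ,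
      Data.seg_shift 0 n 14]

theorem exists_window (hIdem : SpecIdem) {M : Type} [Monoid M] [Finite M]
    {φ : List (Act × Bool) → M} (hφ : IsMor φ) :
    ∃ N : ℕ, 1 ≤ N ∧ φ (ones (seg 0 (14 * N))) * φ (ones (seg 0 (14 * N))) =
      φ (ones (seg 0 (14 * N))) := by
  obtain ⟨f, ⟨n, hn, rfl⟩, hf, -⟩ := hIdem M {s | ∃ n : ℕ, 1 ≤ n ∧ s = φ (ones (seg 0 14)) ^ n}
    ⟨_, 1, le_rfl, rfl⟩ (by
      rintro s ⟨n, hn, rfl⟩ t ⟨k, hk, rfl⟩
      exact ⟨n + k, by omega, by rw [pow_add]⟩)
  exact ⟨n, hn, by rw [seg_pow hφ, hf]⟩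

theorem mor_replicate {M : Type} [Monoid M] {φ : List (Act × Bool) → M} (hφ : IsMor φ)
    (B : List (Act × Bool)) (n : ℕ) : φ (List.replicate n B).flatten = φ B ^ n := by
  induction n with
  | zero => rw [pow_zero]; exact hφ.1
  | succ n ih => rw [List.replicate_succ, List.flatten_cons, hφ.2, ih, pow_succ']

theorem ones_replicate (L : List Act) (n : ℕ) :
    (List.replicate n (ones L)).flatten = ones (List.replicate n L).flatten := by
  induction n with
  | zero => rfl
  | succ n ih => rw [List.replicate_succ, List.flatten_cons, ih, List.replicate_succ,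
      List.flatten_cons, ones_append]

/-- the word `E E v E r E` -/
def blockWord (E v r : List Act) : List Act := E ++ E ++ v ++ E ++ r ++ E

theorem replicate_block {E v r : List Act} (hE : InV oa ob E) (hv : InV oa ob v)
    (hr : InV oa ob r) (n : ℕ) (hn : 1 ≤ n) :
    ∃ R, InV oa ob R ∧ (List.replicate n (blockWord E v r)).flatten = blockWord E v R := by
  have ho := Data.ends_ne.1
  induction n, hn using Nat.le_induction with
  | base => exact ⟨r, hr, by simp⟩
  | succ n hn ih =>
    obtain ⟨R, hR, hRe⟩ := ih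
    refine ⟨r ++ E ++ E ++ E ++ v ++ E ++ R, ?_, ?_⟩
    · exact (((((hr.append ho hE).append ho hE).append ho hE).append ho hv).append ho hE).append
        ho hR
    · rw [List.replicate_succ, List.flatten_cons, hRe]
      simp [blockWord]

/-- one window inside the loop -/
theorem win_one (hWin : SpecWin) {M : Type} [Monoid M] [Finite M] {φ : List (Act × Bool) → M}
    {F : List (Act × Bool)} {E : List Act} {f1 f2 : Expr Act} {l w : CW Act} {N : ℕ}
    (hφ : IsMor φ) (h1 : Sat φ (Lam f1)) (h2 : Sat φ (Lam f2)) (hF : InD oa ob F) (hN : 1 ≤ N)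
    (hid : φ (ones (seg 0 (14 * N))) * φ (ones (seg 0 (14 * N))) = φ (ones (seg 0 (14 * N))))
    (hFE : F.map Prod.fst = E) (hvE : val tr E = 1) (i : Fin 4) (X Z : List Act)
    (hX : InV oa ob X) (hZ : InV oa ob Z) (hvX : val tr X = 1)
    (hw : forget w = ones (E ++ X ++ piece (3 * N) i ++ (Z ++ E)))
    (hs : Stab f1 f2 l w) (hc : ∀ κ : Bool, ∃ a ∈ w, a.2.2 = κ) :
    WinConcl F f1 f2 l i := by
  have ho := Data.ends_ne.1
  have hp := piece_inV (K := 3 * N) (by omega) i
  have key := hWin M φ F (X ++ Data.con i) (Data.con' i ++ Z) f1 f2 l w N hφ h1 h2 hF hN hid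
    (by rw [List.length_append]; have := hX.1; omega)
    (by rw [List.length_append]; have := hZ.1; omega)
    (by
      have := Ends.append ho (Ends.append ho hX.2 hp.2) hZ.2
      simpa [piece] using this)
    (by rw [hw, hFE]; simp [piece])
    hs hc
  have hpt : val tr (F.map Prod.fst ++ (X ++ Data.con i)) 0 = i := by
    rw [hFE, Data.val_append, Data.val_append, hvE, hvX, one_mul, one_mul]
    exact Data.con_pt i
  rw [hpt] at key
  exact key

/-- all four windows inside the loop -/
theorem win_all (hWin : SpecWin) {M : Type} [Monoid M] [Finite M] {φ : List (Act × Bool) → M}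
    {F : List (Act × Bool)} {E : List Act} {f1 f2 : Expr Act} {l w : CW Act} {N : ℕ}
    (hφ : IsMor φ) (h1 : Sat φ (Lam f1)) (h2 : Sat φ (Lam f2)) (hF : InD oa ob F) (hN : 1 ≤ N)
    (hid : φ (ones (seg 0 (14 * N))) * φ (ones (seg 0 (14 * N))) = φ (ones (seg 0 (14 * N))))
    (hFE : F.map Prod.fst = E) (hE : InV oa ob E) (hvE : val tr E = 1) (R : List Act)
    (hR : InV oa ob R)
    (hw : forget w = ones (blockWord E
      (piece (3 * N) 0 ++ piece (3 * N) 1 ++ piece (3 * N) 2 ++ piece (3 * N) 3) R))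
    (hs : Stab f1 f2 l w) (hc : ∀ κ : Bool, ∃ a ∈ w, a.2.2 = κ) (i : Fin 4) :
    WinConcl F f1 f2 l i := by
  have ho := Data.ends_ne.1
  have hp : ∀ j, InV oa ob (piece (3 * N) j) := fun j => piece_inV (by omega) j
  have hpv : ∀ j, val tr (piece (3 * N) j) = 1 := fun j => piece_val _ j
  have hER := hE.append ho hR
  fin_cases i
  · refine win_one hWin hφ h1 h2 hF hN hid hFE hvE 0 E
      (piece (3 * N) 1 ++ piece (3 * N) 2 ++ piece (3 * N) 3 ++ (E ++ R)) hE
      ((((hp 1).append ho (hp 2)).append ho (hp 3)).append ho hER) hvE ?_ hs hc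
    rw [hw]; simp [blockWord]
  · refine win_one hWin hφ h1 h2 hF hN hid hFE hvE 1 (E ++ piece (3 * N) 0)
      (piece (3 * N) 2 ++ piece (3 * N) 3 ++ (E ++ R)) (hE.append ho (hp 0))
      (((hp 2).append ho (hp 3)).append ho hER) ?_ ?_ hs hc
    · rw [Data.val_append, hvE, hpv, one_mul]
    · rw [hw]; simp [blockWord]
  · refine win_one hWin hφ h1 h2 hF hN hid hFE hvE 2 (E ++ piece (3 * N) 0 ++ piece (3 * N) 1)
      (piece (3 * N) 3 ++ (E ++ R)) ((hE.append ho (hp 0)).append ho (hp 1))
      ((hp 3).append ho hER) ?_ ?_ hs hc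
    · rw [Data.val_append, Data.val_append, hvE, hpv, hpv, one_mul, one_mul]
    · rw [hw]; simp [blockWord]
  · refine win_one hWin hφ h1 h2 hF hN hid hFE hvE 3
      (E ++ piece (3 * N) 0 ++ piece (3 * N) 1 ++ piece (3 * N) 2)
      (E ++ R) (((hE.append ho (hp 0)).append ho (hp 1)).append ho (hp 2))
      hER ?_ ?_ hs hc
    · rw [Data.val_append, Data.val_append, Data.val_append, hvE, hpv, hpv, hpv, one_mul,
        one_mul, one_mul]
    · rw [hw]; simp [blockWord]

/-! ## words of `Lam` start with bit `false` -/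

theorem lam_head0 {A : Type} (f : Expr A) : ∀ w ∈ Lam f, Head0 w := by
  induction f with
  | eps => intro w hw; rw [show w = [] from hw]; trivial
  | act a => intro w hw; rw [show w = [(a, false)] from hw]; rfl
  | seq e f ihe ihf =>
    rintro w ⟨u, hu, v, hv, rfl⟩
    cases u with
    | nil => exact ihf v hv
    | cons a u => exact ihe (a :: u) hu
  | alt e f ihe ihf =>
    rintro w (hw | hw)
    · exact ihe w hw
    · exact ihf w hw
  | conj e f ihe ihf => rintro w ⟨hw, -⟩; exact ihe w hw
  | par e f ihe ihf => rintro w ⟨hw, -⟩; exact hw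
  | star e ihe =>
    rintro w ⟨l, hl, rfl⟩
    induction l with
    | nil => trivial
    | cons u l ih =>
      rw [List.flatten_cons]
      cases u with
      | nil => exact ih (fun u hu => hl u (List.mem_cons_of_mem _ hu))
      | cons a u => exact ihe (a :: u) (hl _ List.mem_cons_self)

/-- a factor with all bits `true` lies in one of the two factors of a product -/
theorem cut_ones {A : Type} {E : List A} {α β u v : List (A × Bool)}
    (h : α ++ ones E ++ β = u ++ v) (hv : Head0 v) :
    (∃ β', u = α ++ ones E ++ β' ∧ β = β' ++ v) ∨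
    (∃ α', v = α' ++ ones E ++ β ∧ α = u ++ α') := by
  rw [List.append_assoc] at h
  rw [List.append_eq_append_iff] at h
  rcases h with ⟨a', h1, h2⟩ | ⟨c', h1, h2⟩
  · -- u = α ++ a', ones E ++ β = a' ++ v
    rw [List.append_eq_append_iff] at h2
    rcases h2 with ⟨b', h3, h4⟩ | ⟨d', h3, h4⟩
    · left
      exact ⟨b', by rw [h1, h3, List.append_assoc], h4⟩
    · -- ones E = a' ++ d', v = d' ++ β
      cases d' with
      | nil =>
        left
        refine ⟨[], ?_, ?_⟩
        · rw [h1]
          simp only [List.append_nil] at h3 ⊢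
          rw [h3]
        · simpa using h4.symm
      | cons a d' =>
        exfalso
        have hmem : a ∈ ones E := by rw [h3]; simp
        have ha : a.2 = true := by
          unfold ones at hmem
          rw [List.mem_map] at hmem
          obtain ⟨x, -, hx⟩ := hmem
          rw [← hx]
        rw [h4] at hv
        simp only [List.cons_append, Head0] at hv
        rw [hv] at ha
        exact Bool.false_ne_true ha
  · right
    exact ⟨c', by rw [h2, List.append_assoc], h1⟩

theorem ones_ne_nil {A : Type} {E : List A} (hE : E ≠ []) : ones E ≠ [] := by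
  simpa [ones] using hE

theorem specMain (hIdem : SpecIdem) (hWin : SpecWin) (hStabGrp : SpecStabGrp)
    (hPigeon : SpecPigeon) (hCaseA : SpecCaseA) : SpecMain := by
  intro M _ _ φ E F m H _ _ D h0 hφ hv hE hF hFE hee hff hef hfe hgV hD hh0 hmD f
  have ho := Data.ends_ne.1
  have hEne : E ≠ [] := hE.2.ne_nil
  have hvE : val tr E = 1 := by
    have h1 : φ (ones E ++ ones E) = φ (ones E) := by rw [hφ.2, hee]
    have h2 := hv _ _ h1
    rw [theta_append, theta_ones] at h2
    exact mul_eq_left.mp h2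
  -- the universal word
  obtain ⟨W, hW⟩ : ∃ W, W = F ++ m ++ F := ⟨_, rfl⟩
  rw [← hW] at hmD ⊢
  have heW : φ (ones E) * φ W = φ W := by
    rw [hW, List.append_assoc, hφ.2, ← mul_assoc, hef]
  have hWe : φ W * φ (ones E) = φ W := by
    rw [hW, hφ.2, mul_assoc, hfe]
  induction f with
  | eps =>
    intro _ α β h
    exfalso
    have h1 : α ++ ones E ++ β = [] := h
    simp only [List.append_eq_nil_iff] at h1
    exact ones_ne_nil hEne h1.1.2
  | act a =>
    intro _ α β h
    exfalso
    have h1 : α ++ ones E ++ β = [(a, false)] := h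
    have h2 := congrArg List.length h1
    simp only [List.length_append, List.length_cons, List.length_nil, ones_length] at h2
    have := hE.1
    omega
  | alt e f ihe ihf =>
    intro hr α β h
    rcases h with h | h
    · exact Or.inl (ihe hr.2.1 α β h)
    · exact Or.inr (ihf hr.2.2 α β h)
  | conj e f ihe ihf =>
    intro hr α β h
    exact ⟨ihe hr.2.1 α β h.1, ihf hr.2.2 α β h.2⟩
  | seq e f ihe ihf =>
    rintro hr α β ⟨u, hu, v, hv', huv⟩
    rcases cut_ones huv (lam_head0 f v hv') with ⟨β', h1, h2⟩ | ⟨α', h1, h2⟩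
    · refine ⟨α ++ W ++ β', ihe hr.2.1 α β' (h1 ▸ hu), v, hv', ?_⟩
      rw [h2]; simp
    · refine ⟨u, hu, α' ++ W ++ β, ihf hr.2.2 α' β (h1 ▸ hv'), ?_⟩
      rw [h2]; simp
  | star e ihe =>
    rintro hr α β ⟨l, hl, hlw⟩
    have ih := ihe hr.2
    clear hr ihe
    induction l generalizing α with
    | nil =>
      exfalso
      simp only [List.flatten_nil, List.append_eq_nil_iff] at hlw
      exact ones_ne_nil hEne hlw.1.2
    | cons u l ihl =>
      have hu := hl u List.mem_cons_self
      have hl' : ∀ u ∈ l, u ∈ Lam e := fun u hu => hl u (List.mem_cons_of_mem _ hu)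
      rw [List.flatten_cons] at hlw
      have hhead : Head0 l.flatten := lam_head0 (.star e) _ ⟨l, hl', rfl⟩
      rcases cut_ones hlw hhead with ⟨β', h1, h2⟩ | ⟨α', h1, h2⟩
      · refine ⟨(α ++ W ++ β') :: l, ?_, ?_⟩
        · intro x hx
          rw [List.mem_cons] at hx
          rcases hx with rfl | hx
          · exact ih α β' (h1 ▸ hu)
          · exact hl' x hx
        · rw [List.flatten_cons, h2]; simp
      · obtain ⟨l2, hl2, hl2e⟩ := ihl α' hl' h1.symm
        refine ⟨u :: l2, ?_, ?_⟩
        · intro x hx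
          rw [List.mem_cons] at hx
          rcases hx with rfl | hx
          · exact hu
          · exact hl2 x hx
        · rw [List.flatten_cons, ← hl2e, h2]; simp
  | par f1 f2 ih1 ih2 =>
    rintro ⟨hS, hr1, hr2⟩ α β h
    have hS1 : Sat φ (Lam f1) := by
      cases f1 with
      | eps => exact hr1
      | act a => exact hr1
      | seq e f => exact hr1.1
      | alt e f => exact hr1.1
      | conj e f => exact hr1.1
      | par e f => exact hr1.1
      | star e => exact hr1.1
    have hS2 : Sat φ (Lam f2) := by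
      cases f2 with
      | eps => exact hr2
      | act a => exact hr2
      | seq e f => exact hr2.1
      | alt e f => exact hr2.1
      | conj e f => exact hr2.1
      | par e f => exact hr2.1
      | star e => exact hr2.1
    obtain ⟨N, hN, hid⟩ := exists_window hIdem hφ
    obtain ⟨v, hvdef⟩ : ∃ v, v = piece (3 * N) 0 ++ piece (3 * N) 1 ++ piece (3 * N) 2 ++
      piece (3 * N) 3 := ⟨_, rfl⟩
    have hvV : InV oa ob v := by
      have hp : ∀ j, InV oa ob (piece (3 * N) j) := fun j => piece_inV (by omega) j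
      rw [hvdef]
      exact (((hp 0).append ho (hp 1)).append ho (hp 2)).append ho (hp 3)
    obtain ⟨r, hrV, hre⟩ := hgV v hvV
    have hB : φ (ones (blockWord E v r)) = φ (ones E) := by
      have : blockWord E v r = E ++ (E ++ v ++ E ++ r ++ E) := by simp [blockWord]
      rw [this, ones_append, hφ.2, hre, hee]
    have hBpow : ∀ n : ℕ, 1 ≤ n →
        φ (List.replicate n (ones (blockWord E v r))).flatten = φ (ones E) := by
      intro n hn
      rw [mor_replicate hφ, hB]
      induction n, hn using Nat.le_induction with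
      | base => rw [pow_one]
      | succ n _ ih => rw [pow_succ, ih, hee]
    -- head of α
    have hhead := lam_head0 _ _ h
    have hαne : α ≠ [] := by
      rintro rfl
      obtain ⟨x, E', rfl⟩ := List.exists_cons_of_ne_nil hEne
      simp [ones, Head0] at hhead
    have hα0 : Head0 α := by
      rw [List.append_assoc] at hhead
      exact (head0_append_of_ne hαne).1 hhead
    obtain ⟨k0, hk0, hpig⟩ := hPigeon M φ f1 f2 α β (ones (blockWord E v r)) hφ hS1 hS2
    have h1 : α ++ (List.replicate k0 (ones (blockWord E v r))).flatten ++ β ∈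
        Lam (.par f1 f2) := by
      refine (hS _ _ ?_).1 h
      rw [hφ.2, hφ.2, hφ.2, hφ.2, hBpow k0 hk0]
    obtain ⟨-, c, hc, hacc1, hacc2⟩ := h1
    obtain ⟨l, w, rr, i, n, k, hn, hcl, hfl, hfw, hfr, haccLR, hstab⟩ := hpig c hc ⟨hacc1, hacc2⟩
    obtain ⟨R, hR, hRe⟩ := replicate_block hE hvV hrV n hn
    have hfw' : forget w = ones (blockWord E v R) := by rw [hfw, ones_replicate, hRe]
    have hlne : l ≠ [] := by
      rintro rfl
      have : α ++ (List.replicate i (ones (blockWord E v r))).flatten = [] := by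
        rw [← hfl]; rfl
      simp only [List.append_eq_nil_iff] at this
      exact hαne this.1
    have hl0 : Head0 (forget l) := by
      rw [hfl]; exact (head0_append_of_ne hαne).2 hα0
    -- φ of the three parts
    have hpowi : ∀ j : ℕ, φ (List.replicate j (ones (blockWord E v r))).flatten * φ (ones E) =
        φ (ones E) := by
      intro j
      rcases Nat.eq_zero_or_pos j with rfl | hj
      · simp only [List.replicate_zero, List.flatten_nil]
        rw [hφ.1, one_mul]
      · rw [hBpow j hj, hee]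
    have hpowi' : ∀ j : ℕ, φ (ones E) * φ (List.replicate j (ones (blockWord E v r))).flatten =
        φ (ones E) := by
      intro j
      rcases Nat.eq_zero_or_pos j with rfl | hj
      · simp only [List.replicate_zero, List.flatten_nil]
        rw [hφ.1, mul_one]
      · rw [hBpow j hj, hee]
    have hleft : φ (forget l) * φ W = φ α * φ W := by
      rw [hfl, hφ.2, mul_assoc]
      congr 1
      rw [← heW, ← mul_assoc, hpowi]
    have hright : φ W * φ (forget rr) = φ W * φ β := by
      rw [hfr, hφ.2, ← mul_assoc]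
      congr 1
      rw [← hWe, mul_assoc, hpowi']
    obtain ⟨w1, w2, hw12, hfw1, hfw2⟩ := forget_split (w := w) (a := ones (E ++ E))
      (b := ones (v ++ E ++ R ++ E)) (by
        rw [hfw', ← ones_append]; simp [blockWord])
    by_cases hmono : ∃ κ : Bool, ∀ a ∈ w1, a.2.2 = κ
    · -- Case A
      obtain ⟨κ, hκ⟩ := hmono
      have hacc' : Acc f1 f2 (l ++ w1 ++ (w2 ++ rr)) := by
        have e : l ++ w1 ++ (w2 ++ rr) = c := by rw [hcl, hw12]; simp
        rw [e]
        exact ⟨hacc1, hacc2⟩
      have h2 := hCaseA E W f1 f2 l w1 (w2 ++ rr) κ hEne (ih1 hr1) (ih2 hr2) hfw1 hκ hacc' hl0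
        hlne
      refine (hS _ _ ?_).1 h2
      rw [hφ.2, hφ.2, hφ.2, forget_append, hφ.2, hfw2, hφ.2, hφ.2]
      -- φ(l) e φ(W) φ(v E R E) φ(rr)
      have h3 : φ (ones (E ++ E)) * φ (ones (v ++ E ++ R ++ E)) = φ (ones E) := by
        rw [← hφ.2, ← ones_append]
        have e : E ++ E ++ (v ++ E ++ R ++ E) = blockWord E v R := by simp [blockWord]
        rw [e, ← hRe, ← ones_replicate, hBpow n hn]
      have h4 : φ W * φ (ones (v ++ E ++ R ++ E)) = φ W := by
        have h5 : φ W * φ (ones (E ++ E)) = φ W := by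
          rw [ones_append, hφ.2, ← mul_assoc, hWe, hWe]
        calc φ W * φ (ones (v ++ E ++ R ++ E))
            = φ W * (φ (ones (E ++ E)) * φ (ones (v ++ E ++ R ++ E))) := by
              rw [← mul_assoc, h5]
          _ = φ W := by rw [h3, hWe]
      rw [← mul_assoc (_ * _) (φ (ones (v ++ E ++ R ++ E))) _]
      rw [mul_assoc (φ (forget l)) (φ (ones E)) (φ W), heW, mul_assoc (φ (forget l)) (φ W) _, h4,
        mul_assoc, hright, ← mul_assoc, hleft]
    · -- Case B
      have hcol : ∀ κ : Bool, ∃ a ∈ w, a.2.2 = κ := by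
        intro κ
        by_contra hcon
        apply hmono
        refine ⟨!κ, fun a ha => ?_⟩
        have : a.2.2 ≠ κ := fun h => hcon ⟨a, by rw [hw12]; exact List.mem_append_left _ ha, h⟩
        cases κ <;> cases hh : a.2.2 <;> simp_all
      have hwin : ∀ pt, WinConcl F f1 f2 l pt := by
        intro pt
        refine win_all hWin hφ hS1 hS2 hF hN hid hFE hE hvE R hR ?_ hstab hcol pt
        rw [hfw', hvdef]
      obtain ⟨y, hy, y', hy', z, hz, z', hz', c', hc's, hc'D, hc'ρ⟩ :=
        hStabGrp F H D f1 f2 l hF hwin h0 hh0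
      obtain ⟨t, htD, htρ, htdom⟩ := hmD y hy y' hy' z hz z' hz'
      have hφt : φ (forget c') = φ t := (hD _ _ hc'D htD).1 (by rw [hc'ρ, htρ])
      have hacc3 := hc's.2 rr haccLR
      have h5 : forget l ++ forget c' ++ forget rr ∈ Lam (.par f1 f2) := by
        refine ⟨?_, l ++ c' ++ rr, ?_, hacc3.1, hacc3.2⟩
        · rw [List.append_assoc]
          refine (head0_append_of_ne ?_).2 hl0
          intro h6
          apply hlne
          simpa [forget] using h6
        · rw [forget_append, forget_append]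
      have h6 : forget l ++ t ++ forget rr ∈ Lam (.par f1 f2) := by
        refine (hS _ _ ?_).1 h5
        rw [hφ.2, hφ.2, hφ.2, hφ.2, hφt]
      have h7 := htdom _ _ _ h6
      refine (hS _ _ ?_).1 h7
      rw [hφ.2, hφ.2, hφ.2, hφ.2, hleft, mul_assoc, hright, mul_assoc]

end Pool.Agent.Lib.MP5f7e94.Main
end

section
/-!
# Module PIGEON: a stable factor in a coloured power
-/
set_option autoImplicit false

namespace Pool.Agent.Lib.MP5f7e94

namespace PIGEON

theorem length_flatten_replicate {B : Type} (n : ℕ) (u : List B) :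
    (List.replicate n u).flatten.length = n * u.length := by
  simp

theorem split {c : CW Act} {u v : List (Act × Bool)} (h : forget c = u ++ v) :
    forget (c.take u.length) = u ∧ forget (c.drop u.length) = v := by
  unfold forget at h ⊢
  rw [List.map_take, List.map_drop, h]
  simp

theorem acc_iff {M : Type} [Monoid M] (φ : List (Act × Bool) → M) (f1 f2 : Expr Act)
    (hφ : IsMor φ) (h1 : Sat φ (Lam f1)) (h2 : Sat φ (Lam f2)) (l l' r : CW Act)
    (e1 : φ (view true true l) = φ (view true true l'))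
    (e2 : φ (view false true l) = φ (view false true l'))
    (e3 : lastCol true l = lastCol true l') : Acc f1 f2 (l ++ r) ↔ Acc f1 f2 (l' ++ r) := by
  unfold Acc
  simp only [view_append]
  rw [e3]
  refine and_congr (h1 _ _ ?_) (h2 _ _ ?_)
  · rw [hφ.2, hφ.2, e1]
  · rw [hφ.2, hφ.2, e2]

end PIGEON

open PIGEON

theorem specPigeon : SpecPigeon := by
  classical
  intro M _ _ φ f1 f2 α β B hφ h1 h2
  let m := Nat.card (M × M × Bool)
  have hm : 1 ≤ m := Nat.one_le_iff_ne_zero.2 (Nat.card_ne_zero.2 ⟨⟨(1, 1, true)⟩, inferInstance⟩)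
  refine ⟨m, hm, fun c hc hacc => ?_⟩
  -- the prefixes
  let p : ℕ → List (Act × Bool) := fun j => α ++ (List.replicate j B).flatten
  let q : ℕ → List (Act × Bool) := fun j => (List.replicate j B).flatten ++ β
  have hpq : ∀ j, j ≤ m → forget c = p j ++ q (m - j) := by
    intro j hj
    rw [hc]
    have : List.replicate m B = List.replicate j B ++ List.replicate (m - j) B := by
      rw [List.replicate_append_replicate]
      congr 1
      omega
    rw [this, List.flatten_append]
    simp [p, q, List.append_assoc]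
  let l : ℕ → CW Act := fun j => c.take (p j).length
  let st : Fin (m + 1) → M × M × Bool := fun j =>
    (φ (view true true (l j)), φ (view false true (l j)), lastCol true (l j))
  obtain ⟨i, j, hij, hst⟩ : ∃ i j : Fin (m + 1), i ≠ j ∧ st i = st j := by
    have hcard : Nat.card (M × M × Bool) < Nat.card (Fin (m + 1)) := by
      rw [Nat.card_fin]
      exact Nat.lt_succ_self m
    have : Fintype (M × M × Bool) := Fintype.ofFinite _
    have := Fintype.exists_ne_map_eq_of_card_lt st (by
      rw [← Nat.card_eq_fintype_card, ← Nat.card_eq_fintype_card]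
      exact hcard)
    obtain ⟨i, j, hij, h⟩ := this
    exact ⟨i, j, hij, h⟩
  wlog hlt : i < j generalizing i j
  · exact this j i hij.symm hst.symm (lt_of_le_of_ne (not_lt.1 hlt) hij.symm)
  have hlt' : (i : ℕ) < j := hlt
  have hjm : (j : ℕ) ≤ m := Nat.lt_succ_iff.1 j.2
  have him : (i : ℕ) ≤ m := hlt'.le.trans hjm
  obtain ⟨n, hn⟩ := Nat.exists_eq_add_of_lt hlt'
  have hpj : p j = p i ++ (List.replicate (n + 1) B).flatten := by
    simp only [p]
    rw [List.append_assoc, ← List.flatten_append, List.replicate_append_replicate, hn]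
    congr 3
  -- the pieces
  have hlen : (p j).length = (p i).length + ((List.replicate (n + 1) B).flatten).length := by
    rw [hpj, List.length_append]
  let w : CW Act := (c.drop (p i).length).take ((List.replicate (n + 1) B).flatten).length
  let r : CW Act := c.drop (p j).length
  have hlw : l j = l i ++ w := by
    simp only [l, w]
    rw [hlen, List.take_add]
  have hc' : c = l i ++ w ++ r := by
    rw [← hlw]
    exact (List.take_append_drop _ _).symm
  have hfl : forget (l i) = p i := (split (hpq i him)).1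
  have hflj : forget (l j) = p j := (split (hpq j hjm)).1
  have hfw : forget w = (List.replicate (n + 1) B).flatten := by
    have h3 := hflj
    rw [hlw, forget_append, hfl, hpj] at h3
    exact List.append_cancel_left h3
  have hfr : forget r = q (m - j) := (split (hpq j hjm)).2
  obtain ⟨e1, e23⟩ := Prod.ext_iff.1 hst
  obtain ⟨e2, e3⟩ := Prod.ext_iff.1 e23
  change φ (view true true (l i)) = φ (view true true (l j)) at e1
  change φ (view false true (l i)) = φ (view false true (l j)) at e2
  change lastCol true (l i) = lastCol true (l j) at e3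
  rw [hlw] at e1 e2 e3
  have key : ∀ r : CW Act, Acc f1 f2 (l i ++ r) ↔ Acc f1 f2 (l i ++ w ++ r) := fun r =>
    acc_iff φ f1 f2 hφ h1 h2 (l i) (l i ++ w) r e1 e2 e3
  refine ⟨l i, w, r, i, n + 1, m - j, by omega, hc', hfl, hfw, hfr, ?_, ?_, ?_⟩
  · rw [key r, ← hc']
    exact hacc
  · exact e3.symm
  · intro r' hr'
    exact (key r').1 hr'

end Pool.Agent.Lib.MP5f7e94
end

section
/-!
# Recognition by a finite congruence

`recog_of_map`: a map to a finite set which is compatible with concatenation and saturates `S`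
shows that `S` is recognisable.
-/
set_option autoImplicit false

namespace Pool.Agent.Lib.MP5f7e94.RECCORE

variable {B : Type}

/-- the congruence of a map compatible with concatenation -/
def con {D : Type} (d : List B → D)
    (hd : ∀ u u' v v', d u = d u' → d v = d v' → d (u ++ v) = d (u' ++ v')) :
    Con (FreeMonoid B) where
  r := fun u v => d (FreeMonoid.toList u) = d (FreeMonoid.toList v)
  iseqv := ⟨fun _ => rfl, fun h => h.symm, fun h h' => h.trans h'⟩
  mul' := fun h h' => by
    simpa [FreeMonoid.toList_mul] using hd _ _ _ _ h h'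

theorem recog_of_map {D : Type} [Finite D] (d : List B → D)
    (hd : ∀ u u' v v', d u = d u' → d v = d v' → d (u ++ v) = d (u' ++ v'))
    (S : Set (List B)) (hS : ∀ u v, d u = d v → (u ∈ S ↔ v ∈ S)) : Recog S := by
  classical
  have hfin : Finite (con d hd).Quotient := by
    have hinj : Function.Injective
        (fun q : (con d hd).Quotient =>
          Con.liftOn q (fun u => d (FreeMonoid.toList u)) (fun _ _ h => h)) := by
      intro p q
      induction p using Con.induction_on with
      | _ p =>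
      induction q using Con.induction_on with
      | _ q =>
      intro h
      exact (Con.eq _).2 h
    exact Finite.of_injective _ hinj
  refine ⟨(con d hd).Quotient, inferInstance, hfin,
    fun u => ((FreeMonoid.ofList u : FreeMonoid B) : (con d hd).Quotient), ⟨rfl, ?_⟩, ?_⟩
  · intro u v
    change ((FreeMonoid.ofList (u ++ v) : FreeMonoid B) : (con d hd).Quotient) = _
    rw [FreeMonoid.ofList_append]
    rfl
  · intro u v h
    have h2 := (Con.eq _).1 h
    exact hS u v h2

/-- the value of a recognised set only depends on the image -/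
theorem Sat.mem {M : Type} [Monoid M] {φ : List B → M} {S : Set (List B)} (h : Sat φ S)
    {u v : List B} (hu : u ∈ S) (he : φ u = φ v) : v ∈ S := (h u v he).1 hu

end Pool.Agent.Lib.MP5f7e94.RECCORE
end

section
/-!
# Module RECPAR: recognisable bar languages are closed under the parallel operation
-/
set_option autoImplicit false

namespace Pool.Agent.Lib.MP5f7e94

namespace RECPAR

variable {A M N : Type}

/-- values of the views of the colourings of `u`, the previous colour being `p` -/
def R (φ : List (A × Bool) → M) (ψ : List (A × Bool) → N) (u : List (A × Bool)) (p : Bool) :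
    Set (Bool × M × N) :=
  {x | ∃ c : CW A, forget c = u ∧ x = (lastCol p c, φ (view true p c), ψ (view false p c))}

theorem R_append [Monoid M] [Monoid N] {φ : List (A × Bool) → M} {ψ : List (A × Bool) → N}
    (hφ : IsMor φ) (hψ : IsMor ψ) (u v : List (A × Bool)) (p : Bool) :
    R φ ψ (u ++ v) p = {x | ∃ y ∈ R φ ψ u p, ∃ z ∈ R φ ψ v y.1,
      x = (z.1, y.2.1 * z.2.1, y.2.2 * z.2.2)} := by
  ext x
  constructor
  · rintro ⟨c, hc, rfl⟩
    obtain ⟨c1, c2, rfl, h1, h2⟩ := List.map_eq_append_iff.1 hc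
    refine ⟨_, ⟨c1, h1, rfl⟩, _, ⟨c2, h2, rfl⟩, ?_⟩
    rw [lastCol_append, view_append, view_append, hφ.2, hψ.2]
  · rintro ⟨_, ⟨c1, h1, rfl⟩, _, ⟨c2, h2, rfl⟩, rfl⟩
    refine ⟨c1 ++ c2, by rw [forget_append, h1, h2], ?_⟩
    rw [lastCol_append, view_append, view_append, hφ.2, hψ.2]

theorem head0_append (u v : List (A × Bool)) :
    Head0 (u ++ v) ↔ (u = [] ∧ Head0 v) ∨ (u ≠ [] ∧ Head0 u) := by
  cases u with
  | nil => simp
  | cons a u => simp [Head0]

end RECPAR

open RECPAR in
theorem specRecPar : SpecRecPar := by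
  rintro A S T ⟨M, _, _, φ, hφ, hS⟩ ⟨N, _, _, ψ, hψ, hT⟩
  refine RECCORE.recog_of_map (D := Prop × Prop × (Bool → Set (Bool × M × N)))
    (fun u => (u = [], Head0 u, R φ ψ u)) ?_ _ ?_
  · intro u u' v v' h h'
    simp only [Prod.mk.injEq] at h h' ⊢
    obtain ⟨h1, h2, h3⟩ := h
    obtain ⟨k1, k2, k3⟩ := h'
    refine ⟨?_, ?_, ?_⟩
    · rw [List.append_eq_nil_iff, List.append_eq_nil_iff, h1, k1]
    · rw [head0_append, head0_append, Ne, Ne, h1, h2, k2]
    · funext p
      rw [R_append hφ hψ, R_append hφ hψ, h3, k3]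
  · have key : ∀ u v : List (A × Bool), (Head0 u = Head0 v) → R φ ψ u = R φ ψ v →
        u ∈ {w | Head0 w ∧ ∃ c : CW A, forget c = w ∧ view true true c ∈ S ∧
          view false true c ∈ T} →
        v ∈ {w | Head0 w ∧ ∃ c : CW A, forget c = w ∧ view true true c ∈ S ∧
          view false true c ∈ T} := by
      rintro u v h h' ⟨hu, c, hc, hcS, hcT⟩
      have hx : (lastCol true c, φ (view true true c), ψ (view false true c)) ∈
          R φ ψ v true := by
        rw [← h']
        exact ⟨c, hc, rfl⟩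
      obtain ⟨c', hc', hxe⟩ := hx
      simp only [Prod.mk.injEq] at hxe
      exact ⟨h ▸ hu, c', hc', (hS _ _ hxe.2.1).1 hcS, (hT _ _ hxe.2.2).1 hcT⟩
    intro u v h
    simp only [Prod.mk.injEq] at h
    exact ⟨key u v h.2.1 h.2.2, key v u h.2.1.symm h.2.2.symm⟩

end Pool.Agent.Lib.MP5f7e94
end

section
/-!
# Module RECSEQ: recognisable languages are closed under products
-/
set_option autoImplicit false

namespace Pool.Agent.Lib.MP5f7e94

namespace RECSEQ

variable {B M N : Type}

/-- values of the cuts -/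
def cuts (φ : List B → M) (ψ : List B → N) (u : List B) : Set (M × N) :=
  {x | ∃ p s, u = p ++ s ∧ x = (φ p, ψ s)}

theorem cuts_append [Monoid M] [Monoid N] {φ : List B → M} {ψ : List B → N} (hφ : IsMor φ)
    (hψ : IsMor ψ) (u v : List B) :
    cuts φ ψ (u ++ v) = {x | ∃ y ∈ cuts φ ψ u, x = (y.1, y.2 * ψ v)} ∪
      {x | ∃ y ∈ cuts φ ψ v, x = (φ u * y.1, y.2)} := by
  ext x
  constructor
  · rintro ⟨p, s, h, rfl⟩
    rcases List.append_eq_append_iff.1 h with ⟨a, h1, h2⟩ | ⟨a, h1, h2⟩
    · right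
      exact ⟨(φ a, ψ s), ⟨a, s, h2, rfl⟩, by simp [h1, hφ.2]⟩
    · left
      exact ⟨(φ p, ψ a), ⟨p, a, h1, rfl⟩, by simp [h2, hψ.2]⟩
  · rintro (⟨y, ⟨p, s, h, rfl⟩, rfl⟩ | ⟨y, ⟨p, s, h, rfl⟩, rfl⟩)
    · exact ⟨p, s ++ v, by simp [h], by simp [hψ.2]⟩
    · exact ⟨u ++ p, s, by simp [h], by simp [hφ.2]⟩

end RECSEQ

open RECSEQ in
theorem specRecSeq : SpecRecSeq := by
  rintro B S T ⟨M, _, _, φ, hφ, hS⟩ ⟨N, _, _, ψ, hψ, hT⟩
  refine RECCORE.recog_of_map (D := M × N × Set (M × N))
    (fun u => (φ u, ψ u, cuts φ ψ u)) ?_ _ ?_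
  · intro u u' v v' h h'
    simp only [Prod.mk.injEq] at h h' ⊢
    obtain ⟨h1, h2, h3⟩ := h
    obtain ⟨h1', h2', h3'⟩ := h'
    refine ⟨by rw [hφ.2, hφ.2, h1, h1'], by rw [hψ.2, hψ.2, h2, h2'], ?_⟩
    rw [cuts_append hφ hψ, cuts_append hφ hψ, h3, h3', h1, h2']
  · have key : ∀ u v, cuts φ ψ u = cuts φ ψ v →
        u ∈ {w | ∃ u ∈ S, ∃ v ∈ T, w = u ++ v} → v ∈ {w | ∃ u ∈ S, ∃ v ∈ T, w = u ++ v} := by
      rintro u v h ⟨p, hp, s, hs, rfl⟩
      have hx : (φ p, ψ s) ∈ cuts φ ψ v := by
        rw [← h]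
        exact ⟨p, s, rfl, rfl⟩
      obtain ⟨p', s', rfl, hxe⟩ := hx
      simp only [Prod.mk.injEq] at hxe
      exact ⟨p', (hS p p' hxe.1).1 hp, s', (hT s s' hxe.2).1 hs, rfl⟩
    intro u v h
    simp only [Prod.mk.injEq] at h
    exact ⟨key u v h.2.2, key v u h.2.2.symm⟩

end Pool.Agent.Lib.MP5f7e94
end

section
/-!
# Module RECSTAR: recognisable languages are closed under Kleene star
-/
set_option autoImplicit false

namespace Pool.Agent.Lib.MP5f7e94

namespace RECSTAR

variable {B M : Type}

/-- the star of `S` -/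
def Star (S : Set (List B)) : Set (List B) :=
  {w | ∃ l : List (List B), (∀ u ∈ l, u ∈ S) ∧ w = l.flatten}

theorem star_nil (S : Set (List B)) : [] ∈ Star S := ⟨[], by simp, rfl⟩

theorem star_append {S : Set (List B)} {u v : List B} (hu : u ∈ Star S) (hv : v ∈ Star S) :
    u ++ v ∈ Star S := by
  obtain ⟨l, hl, rfl⟩ := hu
  obtain ⟨m, hm, rfl⟩ := hv
  refine ⟨l ++ m, ?_, by simp⟩
  intro w hw
  rcases List.mem_append.1 hw with h | h
  · exact hl w h
  · exact hm w h

theorem star_of_mem {S : Set (List B)} {u : List B} (hu : u ∈ S) : u ∈ Star S :=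
  ⟨[u], by simpa using hu, by simp⟩

/-- a factor which meets both sides of the cut -/
def Str (S : Set (List B)) (u v : List B) : Prop :=
  ∃ w1 p s w2, u = w1 ++ p ∧ v = s ++ w2 ∧ w1 ∈ Star S ∧ w2 ∈ Star S ∧ p ++ s ∈ S

theorem star_append_iff (S : Set (List B)) (u v : List B) :
    u ++ v ∈ Star S ↔ (u ∈ Star S ∧ v ∈ Star S) ∨ Str S u v := by
  constructor
  · rintro ⟨l, hl, h⟩
    induction l generalizing u with
    | nil =>
      simp only [List.flatten_nil, List.append_eq_nil_iff] at h
      obtain ⟨rfl, rfl⟩ := h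
      exact Or.inl ⟨star_nil S, star_nil S⟩
    | cons x l ih =>
      have hx : x ∈ S := hl x (by simp)
      have hl' : ∀ u ∈ l, u ∈ S := fun u hu => hl u (by simp [hu])
      rw [List.flatten_cons] at h
      rcases List.append_eq_append_iff.1 h with ⟨a, h1, h2⟩ | ⟨a, h1, h2⟩
      · right
        refine ⟨[], u, a, l.flatten, by simp, h2, star_nil S, ⟨l, hl', rfl⟩, ?_⟩
        rw [← h1]
        exact hx
      · rcases ih a hl' h2.symm with ⟨h3, h4⟩ | ⟨w1, p, s, w2, h3, h4, h5, h6, h7⟩
        · left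
          refine ⟨?_, h4⟩
          rw [h1]
          exact star_append (star_of_mem hx) h3
        · right
          refine ⟨x ++ w1, p, s, w2, ?_, h4, star_append (star_of_mem hx) h5, h6, h7⟩
          rw [h1, h3, List.append_assoc]
  · rintro (⟨h1, h2⟩ | ⟨w1, p, s, w2, rfl, rfl, h1, h2, h3⟩)
    · exact star_append h1 h2
    · have := star_append h1 (star_append (star_of_mem h3) h2)
      simpa [List.append_assoc] using this

/-- values of the remainders on the right -/
def RA (S : Set (List B)) (φ : List B → M) (u : List B) : Set M :=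
  {x | ∃ w s, w ∈ Star S ∧ u = w ++ s ∧ x = φ s}

/-- values of the remainders on the left -/
def RB (S : Set (List B)) (φ : List B → M) (u : List B) : Set M :=
  {x | ∃ p w, w ∈ Star S ∧ u = p ++ w ∧ x = φ p}

/-- values of the remainders on both sides -/
def RC (S : Set (List B)) (φ : List B → M) (u : List B) : Set (M × M) :=
  {x | ∃ p w s, w ∈ Star S ∧ u = p ++ (w ++ s) ∧ x = (φ p, φ s)}

/-- the values of the elements of `S` -/
def img (S : Set (List B)) (φ : List B → M) : Set M := {x | ∃ u ∈ S, x = φ u}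

theorem mem_img [Monoid M] {S : Set (List B)} {φ : List B → M} (hφ : IsMor φ) (hS : Sat φ S)
    (p s : List B) : φ p * φ s ∈ img S φ ↔ p ++ s ∈ S := by
  constructor
  · rintro ⟨u, hu, h⟩
    rw [← hφ.2] at h
    exact (hS _ _ h).2 hu
  · intro h
    exact ⟨_, h, by rw [hφ.2]⟩

theorem str_iff [Monoid M] {S : Set (List B)} {φ : List B → M} (hφ : IsMor φ) (hS : Sat φ S)
    (u v : List B) : Str S u v ↔ ∃ a ∈ RA S φ u, ∃ b ∈ RB S φ v, a * b ∈ img S φ := by
  constructor
  · rintro ⟨w1, p, s, w2, hu, hv, h1, h2, h3⟩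
    exact ⟨φ p, ⟨w1, p, h1, hu, rfl⟩, φ s, ⟨s, w2, h2, hv, rfl⟩, (mem_img hφ hS p s).2 h3⟩
  · rintro ⟨_, ⟨w1, p, h1, hu, rfl⟩, _, ⟨s, w2, h2, hv, rfl⟩, h⟩
    exact ⟨w1, p, s, w2, hu, hv, h1, h2, (mem_img hφ hS p s).1 h⟩

theorem RA_append [Monoid M] {S : Set (List B)} {φ : List B → M} (hφ : IsMor φ) (hS : Sat φ S)
    (u v : List B) : RA S φ (u ++ v) = {x | ∃ a ∈ RA S φ u, x = a * φ v} ∪
      ({x | u ∈ Star S ∧ x ∈ RA S φ v} ∪
       {x | ∃ a ∈ RA S φ u, ∃ y ∈ RC S φ v, a * y.1 ∈ img S φ ∧ x = y.2}) := by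
  ext x
  constructor
  · rintro ⟨w, s, hw, h, rfl⟩
    rcases List.append_eq_append_iff.1 h with ⟨a, h1, h2⟩ | ⟨a, h1, h2⟩
    · -- w = u ++ a, v = a ++ s
      rw [h1] at hw
      rcases (star_append_iff S u a).1 hw with ⟨h3, h4⟩ | ⟨w1, p, t, w2, h3, h4, h5, h6, h7⟩
      · exact Or.inr (Or.inl ⟨h3, ⟨a, s, h4, h2, rfl⟩⟩)
      · refine Or.inr (Or.inr ⟨φ p, ⟨w1, p, h5, h3, rfl⟩, (φ t, φ s),
          ⟨t, w2, s, h6, ?_, rfl⟩, (mem_img hφ hS p t).2 h7, rfl⟩)
        rw [h2, h4, List.append_assoc]
    · -- u = w ++ a, s = a ++ v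
      exact Or.inl ⟨φ a, ⟨w, a, hw, h1, rfl⟩, by rw [h2, hφ.2]⟩
  · rintro (⟨_, ⟨w, s, hw, h, rfl⟩, rfl⟩ | ⟨hu, ⟨w, s, hw, h, rfl⟩⟩ |
      ⟨_, ⟨w, s, hw, h, rfl⟩, _, ⟨p, w', t, hw', h', rfl⟩, hi, rfl⟩)
    · exact ⟨w, s ++ v, hw, by rw [h, List.append_assoc], by rw [hφ.2]⟩
    · exact ⟨u ++ w, s, star_append hu hw, by rw [h, List.append_assoc], rfl⟩
    · refine ⟨w ++ (s ++ p) ++ w', t, ?_, ?_, rfl⟩
      · exact star_append (star_append hw (star_of_mem ((mem_img hφ hS s p).1 hi))) hw'
      · rw [h, h']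
        simp [List.append_assoc]

theorem RB_append [Monoid M] {S : Set (List B)} {φ : List B → M} (hφ : IsMor φ) (hS : Sat φ S)
    (u v : List B) : RB S φ (u ++ v) = {x | ∃ b ∈ RB S φ v, x = φ u * b} ∪
      ({x | v ∈ Star S ∧ x ∈ RB S φ u} ∪
       {x | ∃ b ∈ RB S φ v, ∃ y ∈ RC S φ u, y.2 * b ∈ img S φ ∧ x = y.1}) := by
  ext x
  constructor
  · rintro ⟨p, w, hw, h, rfl⟩
    rcases List.append_eq_append_iff.1 h with ⟨a, h1, h2⟩ | ⟨a, h1, h2⟩
    · -- p = u ++ a, v = a ++ w
      exact Or.inl ⟨φ a, ⟨a, w, hw, h2, rfl⟩, by rw [h1, hφ.2]⟩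
    · -- u = p ++ a, w = a ++ v
      rw [h2] at hw
      rcases (star_append_iff S a v).1 hw with ⟨h3, h4⟩ | ⟨w1, q, t, w2, h3, h4, h5, h6, h7⟩
      · exact Or.inr (Or.inl ⟨h4, ⟨p, a, h3, h1, rfl⟩⟩)
      · refine Or.inr (Or.inr ⟨φ t, ⟨t, w2, h6, h4, rfl⟩, (φ p, φ q),
          ⟨p, w1, q, h5, ?_, rfl⟩, (mem_img hφ hS q t).2 h7, rfl⟩)
        rw [h1, h3]
  · rintro (⟨_, ⟨p, w, hw, h, rfl⟩, rfl⟩ | ⟨hv, ⟨p, w, hw, h, rfl⟩⟩ |
      ⟨_, ⟨s, w, hw, h, rfl⟩, _, ⟨p, w', t, hw', h', rfl⟩, hi, rfl⟩)
    · exact ⟨u ++ p, w, hw, by rw [h, List.append_assoc], by rw [hφ.2]⟩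
    · exact ⟨p, w ++ v, star_append hw hv, by rw [h, List.append_assoc], rfl⟩
    · refine ⟨p, w' ++ (t ++ s) ++ w, ?_, ?_, rfl⟩
      · exact star_append (star_append hw' (star_of_mem ((mem_img hφ hS t s).1 hi))) hw
      · rw [h, h']
        simp [List.append_assoc]

theorem RC_append [Monoid M] {S : Set (List B)} {φ : List B → M} (hφ : IsMor φ) (hS : Sat φ S)
    (u v : List B) : RC S φ (u ++ v) = {x | ∃ y ∈ RC S φ u, x = (y.1, y.2 * φ v)} ∪
      ({x | ∃ y ∈ RC S φ v, x = (φ u * y.1, y.2)} ∪
       ({x | ∃ a ∈ RB S φ u, ∃ b ∈ RA S φ v, x = (a, b)} ∪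
        {x | ∃ y ∈ RC S φ u, ∃ z ∈ RC S φ v, y.2 * z.1 ∈ img S φ ∧ x = (y.1, z.2)})) := by
  ext x
  constructor
  · rintro ⟨p, w, s, hw, h, rfl⟩
    rcases List.append_eq_append_iff.1 h with ⟨a, h1, h2⟩ | ⟨a, h1, h2⟩
    · -- p = u ++ a, v = a ++ (w ++ s)
      exact Or.inr (Or.inl ⟨(φ a, φ s), ⟨a, w, s, hw, h2, rfl⟩, by rw [h1, hφ.2]⟩)
    · -- u = p ++ a, w ++ s = a ++ v
      rcases List.append_eq_append_iff.1 h2 with ⟨c, h3, h4⟩ | ⟨c, h3, h4⟩
      · -- a = w ++ c, s = c ++ v
        exact Or.inl ⟨(φ p, φ c), ⟨p, w, c, hw, by rw [h1, h3], rfl⟩, by rw [h4, hφ.2]⟩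
      · -- w = a ++ c, v = c ++ s
        rw [h3] at hw
        rcases (star_append_iff S a c).1 hw with ⟨h5, h6⟩ | ⟨w1, q, t, w2, h5, h6, h7, h8, h9⟩
        · exact Or.inr (Or.inr (Or.inl ⟨φ p, ⟨p, a, h5, h1, rfl⟩, φ s, ⟨c, s, h6, h4, rfl⟩, rfl⟩))
        · refine Or.inr (Or.inr (Or.inr ⟨(φ p, φ q), ⟨p, w1, q, h7, by rw [h1, h5], rfl⟩,
            (φ t, φ s), ⟨t, w2, s, h8, ?_, rfl⟩, (mem_img hφ hS q t).2 h9, rfl⟩))
          rw [h4, h6, List.append_assoc]
  · rintro (⟨_, ⟨p, w, s, hw, h, rfl⟩, rfl⟩ | ⟨_, ⟨p, w, s, hw, h, rfl⟩, rfl⟩ |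
      ⟨_, ⟨p, w, hw, h, rfl⟩, _, ⟨w', s, hw', h', rfl⟩, rfl⟩ |
      ⟨_, ⟨p, w, s, hw, h, rfl⟩, _, ⟨p', w', s', hw', h', rfl⟩, hi, rfl⟩)
    · exact ⟨p, w, s ++ v, hw, by rw [h]; simp [List.append_assoc], by rw [hφ.2]⟩
    · exact ⟨u ++ p, w, s, hw, by rw [h]; simp [List.append_assoc], by rw [hφ.2]⟩
    · exact ⟨p, w ++ w', s, star_append hw hw', by rw [h, h']; simp [List.append_assoc], rfl⟩
    · refine ⟨p, w ++ (s ++ p') ++ w', s', ?_, ?_, rfl⟩
      · exact star_append (star_append hw (star_of_mem ((mem_img hφ hS s p').1 hi))) hw'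
      · rw [h, h']
        simp [List.append_assoc]

end RECSTAR

open RECSTAR in
theorem specRecStar : SpecRecStar := by
  rintro B S ⟨M, _, _, φ, hφ, hS⟩
  refine RECCORE.recog_of_map (D := M × Prop × Set M × Set M × Set (M × M))
    (fun u => (φ u, u ∈ RECSTAR.Star S, RA S φ u, RB S φ u, RC S φ u)) ?_ _ ?_
  · intro u u' v v' h h'
    simp only [Prod.mk.injEq] at h h' ⊢
    obtain ⟨h1, h2, h3, h4, h5⟩ := h
    obtain ⟨k1, k2, k3, k4, k5⟩ := h'
    refine ⟨by rw [hφ.2, hφ.2, h1, k1], ?_, ?_, ?_, ?_⟩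
    · rw [star_append_iff, star_append_iff, str_iff hφ hS, str_iff hφ hS, h2, k2, h3, k4]
    · rw [RA_append hφ hS, RA_append hφ hS, h2, h3, k1, k3, k5]
    · rw [RB_append hφ hS, RB_append hφ hS, h1, h4, h5, k2, k4]
    · rw [RC_append hφ hS, RC_append hφ hS, h1, h4, h5, k1, k3, k5]
  · intro u v h
    simp only [Prod.mk.injEq] at h
    exact iff_of_eq h.2.1

end Pool.Agent.Lib.MP5f7e94
end

section
/-!
# Module REC: one finite monoid recognises the bar languages of all subexpressions
-/
set_option autoImplicit false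

namespace Pool.Agent.Lib.MP5f7e94

namespace REC

theorem recog_nil (B : Type) : Recog ({[]} : Set (List B)) := by
  refine RECCORE.recog_of_map (D := Prop) (fun u => u = []) ?_ _ ?_
  · intro u u' v v' h h'
    simp only [List.append_eq_nil_iff] at h h' ⊢
    rw [h, h']
  · intro u v h
    exact iff_of_eq h

theorem recog_singleton {B : Type} (b : B) : Recog ({[b]} : Set (List B)) := by
  refine RECCORE.recog_of_map (D := Prop × Prop) (fun u => (u = [], u = [b])) ?_ _ ?_
  · intro u u' v v' h h'
    simp only [Prod.mk.injEq] at h h' ⊢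
    have key : ∀ u v : List B, (u ++ v = [b]) ↔ (u = [] ∧ v = [b]) ∨ (u = [b] ∧ v = []) := by
      intro u v
      cases u with
      | nil => simp
      | cons a u => simp
                    tauto
    refine ⟨?_, ?_⟩
    · rw [List.append_eq_nil_iff, List.append_eq_nil_iff, h.1, h'.1]
    · rw [key, key, h.1, h.2, h'.1, h'.2]
  · intro u v h
    simp only [Prod.mk.injEq] at h
    exact iff_of_eq h.2

theorem isMor_prod {B M N : Type} [Monoid M] [Monoid N] {φ : List B → M} {ψ : List B → N}
    (hφ : IsMor φ) (hψ : IsMor ψ) : IsMor (fun u => (φ u, ψ u)) := by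
  refine ⟨?_, ?_⟩
  · change (φ [], ψ []) = 1
    rw [hφ.1, hψ.1]
    rfl
  · intro u v
    change (φ (u ++ v), ψ (u ++ v)) = (φ u, ψ u) * (φ v, ψ v)
    rw [hφ.2, hψ.2]
    rfl

theorem recog_union {B : Type} {S T : Set (List B)} (hS : Recog S) (hT : Recog T) :
    Recog (S ∪ T) := by
  obtain ⟨M, _, _, φ, hφ, hS⟩ := hS
  obtain ⟨N, _, _, ψ, hψ, hT⟩ := hT
  refine ⟨M × N, inferInstance, inferInstance, _, isMor_prod hφ hψ, ?_⟩
  intro u v h
  simp only [Prod.mk.injEq] at h
  exact or_congr (hS u v h.1) (hT u v h.2)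

theorem recog_inter {B : Type} {S T : Set (List B)} (hS : Recog S) (hT : Recog T) :
    Recog (S ∩ T) := by
  obtain ⟨M, _, _, φ, hφ, hS⟩ := hS
  obtain ⟨N, _, _, ψ, hψ, hT⟩ := hT
  refine ⟨M × N, inferInstance, inferInstance, _, isMor_prod hφ hψ, ?_⟩
  intro u v h
  simp only [Prod.mk.injEq] at h
  exact and_congr (hS u v h.1) (hT u v h.2)

/-- all bar languages are recognisable -/
theorem recog_lam {A : Type} (e : Expr A) : Recog (Lam e) := by
  induction e with
  | eps => exact recog_nil _
  | act a => exact recog_singleton _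
  | seq e f he hf => exact specRecSeq _ _ _ he hf
  | alt e f he hf => exact recog_union he hf
  | conj e f he hf => exact recog_inter he hf
  | par e f he hf => exact specRecPar _ _ _ he hf
  | star e he => exact specRecStar _ _ he

theorem sat_of_refine {B M N : Type} [Monoid M] [Monoid N] {φ : List B → M} {ψ : List B → N}
    (h : ∀ u v, ψ u = ψ v → φ u = φ v) {S : Set (List B)} (hS : Sat φ S) : Sat ψ S :=
  fun u v huv => hS u v (h u v huv)

theorem recAll_of_refine {A M N : Type} [Monoid M] [Monoid N] {φ : List (A × Bool) → M}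
    {ψ : List (A × Bool) → N} (h : ∀ u v, ψ u = ψ v → φ u = φ v) (e : Expr A)
    (he : RecAll φ e) : RecAll ψ e := by
  induction e with
  | eps => exact sat_of_refine h he
  | act a => exact sat_of_refine h he
  | seq e f ihe ihf => exact ⟨sat_of_refine h he.1, ihe he.2.1, ihf he.2.2⟩
  | alt e f ihe ihf => exact ⟨sat_of_refine h he.1, ihe he.2.1, ihf he.2.2⟩
  | conj e f ihe ihf => exact ⟨sat_of_refine h he.1, ihe he.2.1, ihf he.2.2⟩
  | par e f ihe ihf => exact ⟨sat_of_refine h he.1, ihe he.2.1, ihf he.2.2⟩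
  | star e ihe => exact ⟨sat_of_refine h he.1, ihe he.2⟩

/-- there is a finite monoid for all subexpressions -/
def Good {A : Type} (e : Expr A) : Prop :=
  ∃ (M : Type) (_ : Monoid M) (_ : Finite M) (φ : List (A × Bool) → M), IsMor φ ∧ RecAll φ e

theorem good_bin {A : Type} {e f : Expr A} (he : Good e) (hf : Good f) (g : Expr A)
    (hg : ∀ {M : Type} [Monoid M] (φ : List (A × Bool) → M), Sat φ (Lam g) → RecAll φ e →
      RecAll φ f → RecAll φ g) : Good g := by
  obtain ⟨M1, _, _, φ1, h1, h1'⟩ := he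
  obtain ⟨M2, _, _, φ2, h2, h2'⟩ := hf
  obtain ⟨M3, _, _, φ3, h3, h3'⟩ := recog_lam g
  refine ⟨M3 × (M1 × M2), inferInstance, inferInstance, _,
    isMor_prod h3 (isMor_prod h1 h2), ?_⟩
  refine hg _ ?_ ?_ ?_
  · refine sat_of_refine ?_ h3'
    intro u v h
    simp only [Prod.mk.injEq] at h
    exact h.1
  · refine recAll_of_refine ?_ e h1'
    intro u v h
    simp only [Prod.mk.injEq] at h
    exact h.2.1
  · refine recAll_of_refine ?_ f h2'
    intro u v h
    simp only [Prod.mk.injEq] at h
    exact h.2.2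

end REC

open REC in
theorem specRec : SpecRec := by
  intro A e
  change Good e
  induction e with
  | eps =>
    obtain ⟨M, i1, i2, φ, h1, h2⟩ := recog_lam (Expr.eps : Expr A)
    exact ⟨M, i1, i2, φ, h1, h2⟩
  | act a =>
    obtain ⟨M, i1, i2, φ, h1, h2⟩ := recog_lam (Expr.act a)
    exact ⟨M, i1, i2, φ, h1, h2⟩
  | seq e f ihe ihf => exact good_bin ihe ihf _ (fun _ h1 h2 h3 => ⟨h1, h2, h3⟩)
  | alt e f ihe ihf => exact good_bin ihe ihf _ (fun _ h1 h2 h3 => ⟨h1, h2, h3⟩)
  | conj e f ihe ihf => exact good_bin ihe ihf _ (fun _ h1 h2 h3 => ⟨h1, h2, h3⟩)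
  | par e f ihe ihf => exact good_bin ihe ihf _ (fun _ h1 h2 h3 => ⟨h1, h2, h3⟩)
  | star e ihe => exact good_bin ihe ihe _ (fun _ h1 h2 _ => ⟨h1, h2⟩)

end Pool.Agent.Lib.MP5f7e94
end

section
/-!
# Module REG: the language is a regular, theta-closed st-language
-/
set_option autoImplicit false

namespace Pool.Agent.Lib.MP5f7e94

namespace REG

variable {A G : Type}

/-! ## Regularity -/

instance [Finite A] [Finite G] : Finite (Q A G) := by
  classical
  have h : Function.Surjective
      (fun x : Fin 6 × G × Option A × Option A => show Q A G from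
        match x with
        | (0, g, _, _) => .A0 g
        | (1, g, some a, _) => .A1 g a
        | (2, g, some a, some b) => .A2 g a b
        | (3, g, some a, _) => .A1p g a
        | (4, g, some a, _) => .G1 g a
        | (5, g, some a, _) => .G0 g a
        | (_, g, _, _) => .A0 g) := by
    intro q
    cases q with
    | A0 g => exact ⟨(0, g, none, none), rfl⟩
    | A1 g a => exact ⟨(1, g, some a, none), rfl⟩
    | A2 g a b => exact ⟨(2, g, some a, some b), rfl⟩
    | A1p g a => exact ⟨(3, g, some a, none), rfl⟩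
    | G1 g a => exact ⟨(4, g, some a, none), rfl⟩
    | G0 g a => exact ⟨(5, g, some a, none), rfl⟩
  exact Finite.of_surjective _ h

/-- the automaton -/
def nfa [Group G] (π : A → G) : NFA (ST A) (Q A G) where
  step := fun p l => {q | Step π p l q}
  start := {.A0 1}
  accept := {.A0 1}

theorem mem_evalFrom [Group G] (π : A → G) (S : Set (Q A G)) (u : List (ST A)) (q : Q A G) :
    q ∈ (nfa π).evalFrom S u ↔ ∃ p ∈ S, Run π p u q := by
  induction u generalizing S with
  | nil =>
    simp [Run]
  | cons l u ih =>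
    rw [NFA.evalFrom_cons, ih]
    constructor
    · rintro ⟨r, hr, h⟩
      rw [NFA.mem_stepSet] at hr
      obtain ⟨p, hp, hpr⟩ := hr
      exact ⟨p, hp, r, hpr, h⟩
    · rintro ⟨p, hp, r, hpr, h⟩
      refine ⟨r, ?_, h⟩
      rw [NFA.mem_stepSet]
      exact ⟨p, hp, hpr⟩

theorem accepts_eq [Group G] (π : A → G) : (nfa π).accepts = Lw π := by
  ext u
  rw [NFA.mem_accepts]
  constructor
  · rintro ⟨q, hq, h⟩
    rw [mem_evalFrom] at h
    obtain ⟨p, hp, h⟩ := h
    cases hp
    cases hq
    exact h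
  · intro h
    refine ⟨.A0 1, rfl, ?_⟩
    rw [mem_evalFrom]
    exact ⟨.A0 1, rfl, h⟩

theorem regular [Finite A] [Group G] [Finite G] (π : A → G) : (Lw π).IsRegular := by
  classical
  have := Fintype.ofFinite (Q A G)
  refine ⟨Set (Q A G), inferInstance, (nfa π).toDFA, ?_⟩
  rw [NFA.toDFA_correct, accepts_eq]

/-! ## Words of the language are st-words -/

/-- the events which are running -/
def Rn : Q A G → A → Prop
  | .A0 _, _ => False
  | .A1 _ a, x => x = a
  | .A2 _ a b, x => x = a ∨ x = b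
  | .A1p _ a, x => x = a
  | .G1 _ y, x => x = y
  | .G0 _ _, _ => False

/-- the two running events are distinct -/
def Ok : Q A G → Prop
  | .A2 _ a b => a ≠ b
  | _ => True

theorem step_s [Group G] (π : A → G) (p q : Q A G) (x : A) (h : Step π p (.s x) q) :
    Ok q ∧ ¬ Rn p x ∧ ∀ z, Rn q z ↔ (Rn p z ∨ z = x) := by
  cases p with
  | A0 g =>
    rcases h with rfl | rfl <;> simp [Ok, Rn]
  | A1 g a =>
    obtain ⟨h, rfl⟩ := h
    exact ⟨h.symm, h, fun z => Iff.rfl⟩
  | A2 g a b => exact h.elim
  | A1p g a => exact h.elim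
  | G1 g y =>
    obtain ⟨h, rfl⟩ := h
    exact ⟨h, h, fun z => or_comm⟩
  | G0 g y =>
    have h' : q = .A1p (g * π x * π y) x := h
    subst h'
    simp [Ok, Rn]

theorem step_t [Group G] (π : A → G) (p q : Q A G) (x : A) (hp : Ok p)
    (h : Step π p (.t x) q) :
    Ok q ∧ Rn p x ∧ ∀ z, Rn q z ↔ (Rn p z ∧ z ≠ x) := by
  cases p with
  | A0 g => exact h.elim
  | A1 g a =>
    obtain ⟨rfl, rfl⟩ := h
    simp [Ok, Rn]
  | A2 g a b =>
    have hab : a ≠ b := hp
    rcases h with ⟨rfl, rfl⟩ | ⟨rfl, rfl⟩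
    · refine ⟨trivial, Or.inl rfl, fun z => ?_⟩
      change z = b ↔ (z = x ∨ z = b) ∧ z ≠ x
      constructor
      · rintro rfl
        exact ⟨Or.inr rfl, hab.symm⟩
      · rintro ⟨h1 | h1, h2⟩
        · exact absurd h1 h2
        · exact h1
    · refine ⟨trivial, Or.inr rfl, fun z => ?_⟩
      change z = a ↔ (z = a ∨ z = x) ∧ z ≠ x
      constructor
      · rintro rfl
        exact ⟨Or.inl rfl, hab⟩
      · rintro ⟨h1 | h1, h2⟩
        · exact h1
        · exact absurd h1 h2
  | A1p g a =>
    obtain ⟨rfl, rfl⟩ := h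
    simp [Ok, Rn]
  | G1 g y =>
    obtain ⟨rfl, rfl⟩ := h
    simp [Ok, Rn]
  | G0 g y => exact h.elim

open Classical in
theorem run_filter [DecidableEq A] [Group G] (π : A → G) (x : A) (g' : G) (u : List (ST A)) :
    ∀ p : Q A G, Ok p → Run π p u (.A0 g') →
      ∃ n : ℕ, (if Rn p x then [ST.s x] else []) ++ u.filter (fun l => decide (l.act = x)) =
        (List.replicate n [ST.s x, ST.t x]).flatten := by
  induction u with
  | nil =>
    intro p _ hr
    have hr' : p = .A0 g' := hr
    subst hr'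
    exact ⟨0, by simp [Rn]⟩
  | cons l u ih =>
    rintro p hp ⟨r, hs, hr⟩
    cases l with
    | s y =>
      obtain ⟨h1, h2, h3⟩ := step_s π p r y hs
      obtain ⟨n, hn⟩ := ih r h1 hr
      by_cases hxy : y = x
      · subst hxy
        have hry : Rn r y := (h3 y).2 (Or.inr rfl)
        rw [if_pos hry] at hn
        rw [if_neg h2]
        refine ⟨n, ?_⟩
        rw [← hn]
        simp [ST.act]
      · refine ⟨n, ?_⟩
        rw [← hn]
        have : Rn r x ↔ Rn p x := by
          rw [h3 x]
          constructor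
          · rintro (h | h)
            · exact h
            · exact absurd h.symm hxy
          · exact Or.inl
        simp only [this]
        simp [ST.act, hxy]
    | t y =>
      obtain ⟨h1, h2, h3⟩ := step_t π p r y hp hs
      obtain ⟨n, hn⟩ := ih r h1 hr
      by_cases hxy : y = x
      · subst hxy
        have hry : ¬ Rn r y := fun h => ((h3 y).1 h).2 rfl
        rw [if_neg hry] at hn
        rw [if_pos h2]
        refine ⟨n + 1, ?_⟩
        rw [List.replicate_succ, List.flatten_cons, ← hn]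
        simp [ST.act]
      · refine ⟨n, ?_⟩
        rw [← hn]
        have : Rn r x ↔ Rn p x := by
          rw [h3 x]
          constructor
          · exact fun h => h.1
          · exact fun h => ⟨h, fun h' => hxy h'.symm⟩
        simp only [this]
        simp [ST.act, hxy]

/-! ## The language is closed -/

theorem run_append [Group G] (π : A → G) (u v : List (ST A)) :
    ∀ p q : Q A G, Run π p (u ++ v) q ↔ ∃ r, Run π p u r ∧ Run π r v q := by
  induction u with
  | nil => simp [Run]
  | cons l u ih =>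
    intro p q
    constructor
    · rintro ⟨r, h1, h2⟩
      obtain ⟨r', h3, h4⟩ := (ih r q).1 h2
      exact ⟨r', ⟨r, h1, h3⟩, h4⟩
    · rintro ⟨r', ⟨r, h1, h3⟩, h4⟩
      exact ⟨r, h1, (ih r q).2 ⟨r', h3, h4⟩⟩

theorem ss_swap [Group G] (π : A → G) (x y : A) (hxy : x ≠ y) (p q : Q A G)
    (h : Run π p [.s x, .s y] q) : Run π p [.s y, .s x] q := by
  obtain ⟨r, h1, r', h2, h3⟩ := h
  have h3' : r' = q := h3
  subst h3'
  cases p with
  | A0 g =>
    rcases h1 with rfl | rfl
    · obtain ⟨_, rfl⟩ := h2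
      exact ⟨.G1 g y, Or.inr rfl, _, ⟨hxy, rfl⟩, rfl⟩
    · obtain ⟨_, rfl⟩ := h2
      exact ⟨.A1 (g * π y) y, Or.inl rfl, _, ⟨hxy, rfl⟩, rfl⟩
  | A1 g a =>
    obtain ⟨_, rfl⟩ := h1
    exact h2.elim
  | A2 g a b => exact h1.elim
  | A1p g a => exact h1.elim
  | G1 g z =>
    obtain ⟨_, rfl⟩ := h1
    exact h2.elim
  | G0 g z =>
    have h1' : r = .A1p (g * π x * π z) x := h1
    subst h1'
    exact h2.elim

theorem tt_swap [Group G] (π : A → G) (x y : A) (p q : Q A G)
    (h : Run π p [.t x, .t y] q) : Run π p [.t y, .t x] q := by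
  obtain ⟨r, h1, r', h2, h3⟩ := h
  have h3' : r' = q := h3
  subst h3'
  cases p with
  | A0 g => exact h1.elim
  | A1 g a =>
    obtain ⟨_, rfl⟩ := h1
    exact h2.elim
  | A2 g a b =>
    rcases h1 with ⟨rfl, rfl⟩ | ⟨rfl, rfl⟩
    · obtain ⟨rfl, rfl⟩ := h2
      exact ⟨.A1p g x, Or.inr ⟨rfl, rfl⟩, _, ⟨rfl, rfl⟩, rfl⟩
    · obtain ⟨rfl, rfl⟩ := h2
      exact ⟨.A1 g x, Or.inl ⟨rfl, rfl⟩, _, ⟨rfl, rfl⟩, rfl⟩
  | A1p g a =>
    obtain ⟨_, rfl⟩ := h1
    exact h2.elim
  | G1 g z =>
    obtain ⟨_, rfl⟩ := h1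
    exact h2.elim
  | G0 g z => exact h1.elim

theorem st_swap [Group G] (π : A → G) (x y : A) (hxy : x ≠ y) (p q : Q A G)
    (h : Run π p [.s x, .t y] q) : Run π p [.t y, .s x] q := by
  obtain ⟨r, h1, r', h2, h3⟩ := h
  have h3' : r' = q := h3
  subst h3'
  cases p with
  | A0 g =>
    rcases h1 with rfl | rfl
    · exact absurd h2.1.symm hxy
    · exact absurd h2.1.symm hxy
  | A1 g a =>
    obtain ⟨_, rfl⟩ := h1
    rcases h2 with ⟨rfl, rfl⟩ | ⟨rfl, rfl⟩
    · exact ⟨.A0 g, ⟨rfl, rfl⟩, _, Or.inl rfl, rfl⟩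
    · exact absurd rfl hxy
  | A2 g a b => exact h1.elim
  | A1p g a => exact h1.elim
  | G1 g z =>
    obtain ⟨_, rfl⟩ := h1
    rcases h2 with ⟨rfl, rfl⟩ | ⟨rfl, rfl⟩
    · exact absurd rfl hxy
    · exact ⟨.G0 g y, ⟨rfl, rfl⟩, _, rfl, rfl⟩
  | G0 g z =>
    have h1' : r = .A1p (g * π x * π z) x := h1
    subst h1'
    exact absurd h2.1.symm hxy

theorem closed_aux [Group G] (π : A → G) (p q m m' : List (ST A))
    (hm : ∀ a b : Q A G, Run π a m b → Run π a m' b) (h : p ++ m ++ q ∈ Lw π) :
    p ++ m' ++ q ∈ Lw π := by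
  have h' : Run π (.A0 1) (p ++ m ++ q) (.A0 1) := h
  change Run π (.A0 1) (p ++ m' ++ q) (.A0 1)
  rw [run_append] at h' ⊢
  obtain ⟨r, h1, h2⟩ := h'
  rw [run_append] at h1
  obtain ⟨r', h3, h4⟩ := h1
  refine ⟨r, ?_, h2⟩
  rw [run_append]
  exact ⟨r', h3, hm _ _ h4⟩

end REG

open REG in
theorem specReg : SpecReg := by
  intro A G _ _ _ _ π
  refine ⟨regular π, ?_, ?_⟩
  · intro u hu x
    obtain ⟨n, hn⟩ := run_filter π x 1 u (.A0 1) trivial hu
    refine ⟨n, ?_⟩
    rw [← hn]
    simp [Rn]
  · intro u v h hu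
    cases h with
    | ss p q x y hxy => exact closed_aux π p q _ _ (ss_swap π x y hxy) hu
    | tt p q x y hxy => exact closed_aux π p q _ _ (tt_swap π x y) hu
    | st p q x y hxy => exact closed_aux π p q _ _ (st_swap π x y hxy) hu

end Pool.Agent.Lib.MP5f7e94
end

section
/-!
# Module SEMI: the words `E` and `F`
-/
set_option autoImplicit false

namespace Pool.Agent.Lib.MP5f7e94

namespace SEMI

theorem ho : oa ≠ ob := Data.ends_ne.1

/-- words of powers -/
theorem word_pow {B M : Type} [Monoid M] {φ : List B → M} (hφ : IsMor φ) (P : List B → Prop)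
    (hP : ∀ u v, P u → P v → P (u ++ v)) (F d : List B) (hF : P F) (hd : P d)
    (hid : φ F * φ F = φ F) (n : ℕ) :
    ∃ r, P r ∧ φ F * φ r * φ F = (φ F * φ d * φ F) ^ (n + 1) := by
  induction n with
  | zero => exact ⟨d, hd, by rw [zero_add, pow_one]⟩
  | succ n ih =>
    obtain ⟨r, hr, he⟩ := ih
    refine ⟨r ++ F ++ d, hP _ _ (hP _ _ hr hF) hd, ?_⟩
    rw [pow_succ, ← he]
    simp only [hφ.2]
    calc φ F * (φ r * φ F * φ d) * φ F = φ F * φ r * φ F * φ d * φ F := by simp only [mul_assoc]
      _ = φ F * φ r * (φ F * φ F) * φ d * φ F := by rw [hid]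
      _ = φ F * φ r * φ F * (φ F * φ d * φ F) := by simp only [mul_assoc]

/-- words of inverses -/
theorem word_inv {B M : Type} [Monoid M] {φ : List B → M} (hφ : IsMor φ) (P : List B → Prop)
    (hP : ∀ u v, P u → P v → P (u ++ v)) (F d : List B) (hF : P F) (hd : P d)
    (hid : φ F * φ F = φ F) (m : ℕ) (hm : 1 ≤ m) (hpow : (φ F * φ d * φ F) ^ m = φ F) :
    ∃ r, P r ∧ φ (F ++ d ++ F ++ r ++ F) = φ F := by
  obtain ⟨r, hr, he⟩ := word_pow hφ P hP F d hF hd hid (2 * m - 2)
  refine ⟨r, hr, ?_⟩
  simp only [hφ.2]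
  calc φ F * φ d * φ F * φ r * φ F = φ F * φ d * (φ F * φ F) * φ r * φ F := by rw [hid]
    _ = (φ F * φ d * φ F) * (φ F * φ r * φ F) := by simp only [mul_assoc]
    _ = (φ F * φ d * φ F) ^ (m * 2) := by
        rw [he, ← pow_succ']
        congr 1
        omega
    _ = φ F := by rw [pow_mul, hpow, pow_two, hid]

theorem phi_rep {B M : Type} [Monoid M] {φ : List B → M} (hφ : IsMor φ) (F : List B) (n : ℕ) :
    φ (List.replicate n F).flatten = φ F ^ n := by
  induction n with
  | zero => simp [hφ.1]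
  | succ n ih => rw [List.replicate_succ, List.flatten_cons, hφ.2, ih, pow_succ']

theorem rep_mem {B : Type} (P : List B → Prop) (hP : ∀ u v, P u → P v → P (u ++ v)) (F : List B)
    (hF : P F) (n : ℕ) (hn : 1 ≤ n) : P (List.replicate n F).flatten := by
  induction n, hn using Nat.le_induction with
  | base => simpa using hF
  | succ n _ ih => rw [List.replicate_succ, List.flatten_cons]; exact hP _ _ hF ih

theorem ones_rep (K : List Act) (n : ℕ) :
    ones (List.replicate n K).flatten = (List.replicate n (ones K)).flatten := by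
  induction n with
  | zero => simp [ones]
  | succ n ih =>
    rw [List.replicate_succ, List.flatten_cons, ones_append, ih, List.replicate_succ,
      List.flatten_cons]

theorem fst_rep (F : List (Act × Bool)) (n : ℕ) :
    (List.replicate n F).flatten.map Prod.fst = (List.replicate n (F.map Prod.fst)).flatten := by
  induction n with
  | zero => simp
  | succ n ih =>
    rw [List.replicate_succ, List.flatten_cons, List.map_append, ih, List.replicate_succ,
      List.flatten_cons]

theorem idem_pow {M : Type} [Monoid M] {f : M} (hf : f * f = f) (n : ℕ) (hn : 1 ≤ n) :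
    f ^ n = f := by
  induction n, hn using Nat.le_induction with
  | base => exact pow_one f
  | succ n _ ih => rw [pow_succ, ih, hf]

theorem exists_inV : ∃ l, InV oa ob l := by
  refine ⟨Data.con 0 ++ om ++ Data.con' 0, ?_, Data.con_ends 0⟩
  simp [om]
  omega

end SEMI

open SEMI in
theorem specSemi (hIdem : SpecIdem) : SpecSemi := by
  intro M _ _ φ hφ
  -- the idempotent `e`
  obtain ⟨l0, hl0⟩ := exists_inV
  obtain ⟨e, ⟨E0, hE0, rfl⟩, hee, hemin⟩ := hIdem M {m | ∃ l, InV oa ob l ∧ φ (ones l) = m}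
    ⟨_, l0, hl0, rfl⟩ (by
      rintro s ⟨l, hl, rfl⟩ t ⟨l', hl', rfl⟩
      exact ⟨l ++ l', hl.append ho hl', by rw [ones_append, hφ.2]⟩)
  -- the idempotent `f0`
  obtain ⟨f0, ⟨d0, hd0, rfl⟩, hff, hfmin⟩ := hIdem M
    {m | ∃ d, InD oa ob d ∧ φ (ones E0 ++ d ++ ones E0) = m}
    ⟨_, ones l0, hl0.inD, rfl⟩ (by
      rintro s ⟨l, hl, rfl⟩ t ⟨l', hl', rfl⟩
      refine ⟨l ++ ones E0 ++ ones E0 ++ l',
        ((hl.append ho hE0.inD).append ho hE0.inD).append ho hl', ?_⟩
      simp only [hφ.2, mul_assoc])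
  -- the words
  have hF0 : InD oa ob (ones E0 ++ d0 ++ ones E0) := (hE0.inD.append ho hd0).append ho hE0.inD
  have hK : (ones E0 ++ d0 ++ ones E0).map Prod.fst = E0 ++ d0.map Prod.fst ++ E0 := by
    rw [List.map_append, List.map_append, ones_map_fst]
  obtain ⟨n, hn, hpow⟩ := hemin (φ (ones (d0.map Prod.fst))) ⟨_, hd0.map_fst, rfl⟩
  have hEv : φ (ones (List.replicate n (E0 ++ d0.map Prod.fst ++ E0)).flatten) =
      φ (ones E0) := by
    rw [ones_rep, phi_rep hφ, ones_append, ones_append, hφ.2, hφ.2, hpow]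
  have hFv : φ (List.replicate n (ones E0 ++ d0 ++ ones E0)).flatten =
      φ (ones E0 ++ d0 ++ ones E0) := by
    rw [phi_rep hφ, idem_pow hff n hn]
  have hEin : InV oa ob (List.replicate n (E0 ++ d0.map Prod.fst ++ E0)).flatten :=
    rep_mem (InV oa ob) (fun u v hu hv => hu.append ho hv) _
      ((hE0.append ho hd0.map_fst).append ho hE0) n hn
  have hFin : InD oa ob (List.replicate n (ones E0 ++ d0 ++ ones E0)).flatten :=
    rep_mem (InD oa ob) (fun u v hu hv => hu.append ho hv) _ hF0 n hn
  refine ⟨(List.replicate n (E0 ++ d0.map Prod.fst ++ E0)).flatten,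
    (List.replicate n (ones E0 ++ d0 ++ ones E0)).flatten, hEin, hFin, ?_, ?_, ?_, ?_, ?_, ?_, ?_⟩
  · rw [fst_rep, hK]
  · rw [hEv, hee]
  · rw [hFv, hff]
  · rw [hEv, hFv]
    simp only [hφ.2, ← mul_assoc]
    rw [hee]
  · rw [hEv, hFv]
    simp only [hφ.2, mul_assoc]
    rw [hee]
  · intro v hv
    obtain ⟨m, hm, hpm⟩ := hemin (φ (ones v)) ⟨v, hv, rfl⟩
    obtain ⟨r, ⟨r', hr', rfl⟩, hr⟩ := word_inv hφ (fun w => ∃ l, InV oa ob l ∧ w = ones l)
      (by
        rintro _ _ ⟨l, hl, rfl⟩ ⟨l', hl', rfl⟩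
        exact ⟨l ++ l', hl.append ho hl', by rw [ones_append]⟩)
      (ones (List.replicate n (E0 ++ d0.map Prod.fst ++ E0)).flatten) (ones v)
      ⟨_, hEin, rfl⟩ ⟨v, hv, rfl⟩ (by rw [hEv, hee]) m hm (by rw [hEv]; exact hpm)
    exact ⟨r', hr', by simpa only [ones_append] using hr⟩
  · intro d hd
    obtain ⟨m, hm, hpm⟩ := hfmin (φ (ones E0 ++ d ++ ones E0)) ⟨d, hd, rfl⟩
    have h1 : φ (ones E0 ++ d0 ++ ones E0) * φ (ones E0 ++ d ++ ones E0) *
        φ (ones E0 ++ d0 ++ ones E0) =
        φ (ones E0 ++ d0 ++ ones E0) * φ d * φ (ones E0 ++ d0 ++ ones E0) := by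
      simp only [hφ.2]
      calc φ (ones E0) * φ d0 * φ (ones E0) * (φ (ones E0) * φ d * φ (ones E0)) *
            (φ (ones E0) * φ d0 * φ (ones E0))
          = φ (ones E0) * φ d0 * (φ (ones E0) * φ (ones E0)) * φ d *
            (φ (ones E0) * φ (ones E0)) * φ d0 * φ (ones E0) := by simp only [mul_assoc]
        _ = φ (ones E0) * φ d0 * φ (ones E0) * φ d *
            (φ (ones E0) * φ d0 * φ (ones E0)) := by rw [hee]; simp only [mul_assoc]
    rw [h1] at hpm
    exact word_inv hφ (InD oa ob) (fun u v hu hv => hu.append ho hv) _ d hFin hd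
      (by rw [hFv, hff]) m hm (by rw [hFv]; exact hpm)

end Pool.Agent.Lib.MP5f7e94
end

section
/-!
# Module STABGRP: the subgroup of the stabiliser
-/
set_option autoImplicit false

namespace Pool.Agent.Lib.MP5f7e94

namespace STABGRP

variable {F : List (Act × Bool)} {H : Type} [Group H]

/-- the values of the words in the stabiliser -/
def SS (D : HData F H) (f1 f2 : Expr Act) (l : CW Act) : Set H :=
  {h | ∃ c : CW Act, Stab f1 f2 l c ∧ DF oa ob F (forget c) ∧ D.ρ (forget c) = h}

theorem mul_mem (D : HData F H) (f1 f2 : Expr Act) (l : CW Act) (hF : InD oa ob F) {g h : H}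
    (hg : g ∈ SS D f1 f2 l) (hh : h ∈ SS D f1 f2 l) : g * h ∈ SS D f1 f2 l := by
  obtain ⟨c, hc1, hc2, rfl⟩ := hg
  obtain ⟨d, hd1, hd2, rfl⟩ := hh
  refine ⟨c ++ d, hc1.append hd1, ?_, ?_⟩
  · rw [forget_append]
    exact DF.append Data.ends_ne.1 hF hc2 hd2
  · rw [forget_append]
    exact D.mul _ _ hc2 hd2

theorem pow_mem (D : HData F H) (f1 f2 : Expr Act) (l : CW Act) (hF : InD oa ob F) {g : H}
    (hg : g ∈ SS D f1 f2 l) (n : ℕ) : g ^ (n + 1) ∈ SS D f1 f2 l := by
  induction n with
  | zero => simpa using hg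
  | succ n ih =>
    rw [pow_succ]
    exact mul_mem D f1 f2 l hF ih hg

theorem one_mem [Finite H] (D : HData F H) (f1 f2 : Expr Act) (l : CW Act) (hF : InD oa ob F)
    {g : H} (hg : g ∈ SS D f1 f2 l) : (1 : H) ∈ SS D f1 f2 l := by
  have h := pow_mem D f1 f2 l hF hg (orderOf g - 1)
  have h1 : orderOf g - 1 + 1 = orderOf g := Nat.sub_add_cancel (orderOf_pos g)
  rwa [h1, pow_orderOf_eq_one] at h

theorem inv_mem [Finite H] (D : HData F H) (f1 f2 : Expr Act) (l : CW Act) (hF : InD oa ob F)
    {g : H} (hg : g ∈ SS D f1 f2 l) : g⁻¹ ∈ SS D f1 f2 l := by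
  by_cases h0 : orderOf g = 1
  · rw [orderOf_eq_one_iff] at h0
    rw [h0, inv_one]
    rw [h0] at hg
    exact hg
  · have hpos := orderOf_pos g
    have h := pow_mem D f1 f2 l hF hg (orderOf g - 2)
    have h1 : g ^ (orderOf g - 2 + 1) * g = 1 := by
      rw [← pow_succ, show orderOf g - 2 + 1 + 1 = orderOf g by omega, pow_orderOf_eq_one]
    rw [eq_inv_of_mul_eq_one_left h1] at h
    exact h

end STABGRP

open STABGRP

theorem specStabGrp (hY : SpecYprop) (hL : SpecLemG) : SpecStabGrp := by
  intro F H _ _ D f1 f2 l hF hW h0 hh0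
  obtain ⟨hY1, hY2, hY3, hY4⟩ := hY F H D hF
  have key : ∀ pt : Fin 4, ∃ a, Is3 a ∧ a pt ≠ pt ∧ ∃ y ∈ Yset D a, y ∈ SS D f1 f2 l := by
    intro pt
    obtain ⟨a, c1, c2, ha, hapt, hs1, hs2, hd1, hd2, hsw⟩ := hW pt
    refine ⟨a, ha, hapt, D.ρ (forget c1) * (D.ρ (forget c2))⁻¹,
      ⟨forget c1, forget c2, hd1, hd2, hsw, rfl⟩, ?_⟩
    exact mul_mem D f1 f2 l hF ⟨c1, hs1, hd1, rfl⟩
      (inv_mem D f1 f2 l hF ⟨c2, hs2, hd2, rfl⟩)
  have hne : ∃ y, y ∈ SS D f1 f2 l := by
    obtain ⟨_, _, _, y, _, hy⟩ := key 0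
    exact ⟨y, hy⟩
  obtain ⟨y0, hy0⟩ := hne
  let S : Subgroup H :=
    { carrier := SS D f1 f2 l
      mul_mem' := fun hg hh => mul_mem D f1 f2 l hF hg hh
      one_mem' := one_mem D f1 f2 l hF hy0
      inv_mem' := fun hg => inv_mem D f1 f2 l hF hg }
  obtain ⟨y, hy, y', hy', z, hz, z', hz', hs⟩ :=
    hL H D.θ (Yset D) hY1 hY2 hY3 hY4 S key h0 hh0
  obtain ⟨c, hc1, hc2, hc3⟩ := hs
  exact ⟨y, hy, y', hy', z, hz, z', hz', c, hc1, hc2, hc3⟩

end Pool.Agent.Lib.MP5f7e94
end

section
/-!
# Module TRI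
-/
set_option autoImplicit false

namespace Pool.Agent.Lib.MP5f7e94

theorem specTri : SpecTri := by
  intro n c _hn
  by_cases hirr : ∃ J, 1 ≤ J ∧ J + 2 < n ∧ c J ≠ c (J + 1) ∧
      ¬ (c (J - 1) = c (J + 1) ∧ c J = c (J + 2))
  · exact Or.inl hirr
  right
  have hreg : ∀ J, 1 ≤ J → J + 2 < n → c J ≠ c (J + 1) →
      c (J - 1) = c (J + 1) ∧ c J = c (J + 2) := by
    intro J h1 h2 h3
    by_contra h4
    exact hirr ⟨J, h1, h2, h3, h4⟩
  by_cases hch : ∃ J, 1 ≤ J ∧ J + 2 < n ∧ c J ≠ c (J + 1)
  · left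
    obtain ⟨J, hJ1, hJ2, hJ3⟩ := hch
    -- upwards
    have up : ∀ k, J + k + 1 < n → c (J + k) ≠ c (J + k + 1) := by
      intro k
      induction k with
      | zero => intro _; exact hJ3
      | succ k ih =>
        intro hk
        have h1 := ih (by omega)
        have h2 := hreg (J + k) (by omega) (by omega) h1
        intro h3
        apply h1
        rw [h2.2]
        exact h3.symm
    have down : ∀ k, k ≤ J → c (J - k) ≠ c (J - k + 1) := by
      intro k
      induction k with
      | zero => intro _; exact hJ3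
      | succ k ih =>
        intro hk
        have h1 := ih (by omega)
        have h2 := hreg (J - k) (by omega) (by omega) h1
        intro h3
        apply h1
        have e1 : J - (k + 1) + 1 = J - k := by omega
        have e2 : J - k - 1 = J - (k + 1) := by omega
        rw [e1] at h3
        rw [e2] at h2
        rw [← h2.1, h3]
    intro i hi
    rcases le_total J i with h | h
    · have := up (i - J) (by omega)
      have e1 : J + (i - J) = i := by omega
      rwa [e1] at this
    · have := down (J - i) (by omega)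
      have e1 : J - (J - i) = i := by omega
      rwa [e1] at this
  · right
    intro i hi1
    induction i, hi1 using Nat.le_induction with
    | base => intro _; rfl
    | succ i hi ih =>
      intro h2
      have h3 := ih (by omega)
      rw [← h3]
      by_contra h4
      exact hch ⟨i, hi, by omega, fun h => h4 h.symm⟩

end Pool.Agent.Lib.MP5f7e94
end

section
/-!
# Module UNIV: the universal word
-/
set_option autoImplicit false

namespace Pool.Agent.Lib.MP5f7e94
namespace UNIV

variable {F : List (Act × Bool)} {H : Type} [Group H]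

/-- `W` dominates words `F d F` realising all elements of `S`, and has its values in `V`. -/
structure Good (D : HData F H) (W : List (Act × Bool)) (V : Set G4) (S : Set H) : Prop where
  dom : ∀ h ∈ S, ∃ t, DF oa ob F t ∧ D.ρ t = h ∧ Dom W t
  amb : Amb tr W V
  ff : ∃ d, W = F ++ d ++ F
  ends : Ends oa ob (W.map Prod.fst)

theorem Good.append (hM : SpecAmbMul) (hF : InD oa ob F) {D : HData F H}
    {W W' : List (Act × Bool)} {V V' V'' : Set G4} {S S' S'' : Set H}
    (h : Good D W V S) (h' : Good D W' V' S')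
    (hV : ∀ g ∈ V, ∀ g' ∈ V', g * g' ∈ V'')
    (hS : ∀ s ∈ S'', ∃ a ∈ S, ∃ b ∈ S', a * b = s) : Good D (W ++ W') V'' S'' where
  dom := by
    intro s hs
    obtain ⟨a, ha, b, hb, rfl⟩ := hS s hs
    obtain ⟨t, ht, hta, hdt⟩ := h.dom a ha
    obtain ⟨t', ht', htb, hdt'⟩ := h'.dom b hb
    exact ⟨t ++ t', DF.append Data.ends_ne.1 hF ht ht', by rw [D.mul t t' ht ht', hta, htb],
      hdt.append hdt'⟩
  amb := hM Act G4 tr W W' V V' V'' h.amb h'.amb hV
  ff := by
    obtain ⟨d, rfl⟩ := h.ff
    obtain ⟨d', rfl⟩ := h'.ff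
    exact ⟨d ++ F ++ F ++ d', by simp [List.append_assoc]⟩
  ends := by
    rw [List.map_append]
    exact Ends.append Data.ends_ne.1 h.ends h'.ends

theorem Good.of_DF (h1 : SpecAmb1) (hF : InD oa ob F) {D : HData F H}
    {t : List (Act × Bool)} (ht : DF oa ob F t) : Good D t {D.θ (D.ρ t)} {D.ρ t} where
  dom := by
    intro s hs
    rw [Set.mem_singleton_iff] at hs
    exact ⟨t, ht, hs.symm, Dom.refl t⟩
  amb := by
    rw [D.val t ht]
    exact h1 Act G4 tr t (DF.inD Data.ends_ne.1 hF ht).1
  ff := by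
    obtain ⟨d, _, rfl⟩ := ht
    exact ⟨d, rfl⟩
  ends := (DF.inD Data.ends_ne.1 hF ht).2

/-- the word with the isolated pair -/
theorem middle (hPU : SpecPU) (hPS : SpecPS) (h2 : SpecAmb2) {a : G4}
    {t1 t2 : List (Act × Bool)} (h : Swap tr a t1 t2) :
    theta tr t1 * (theta tr t2)⁻¹ = a ∧
    ∃ A, Dom A t1 ∧ Dom A t2 ∧ Amb tr A {theta tr t1, theta tr t2} ∧
      A.map Prod.fst = t1.map Prod.fst := by
  obtain ⟨P, Q, x, y, z, b1, b2, c1, c2, rfl, rfl, hP, hQ, ha⟩ := h
  refine ⟨?_, P ++ (x, false) :: (y, true) :: (z, false) :: Q, ?_, ?_, ?_, ?_⟩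
  · rw [ha]
    simp only [theta_append, theta_cons, cm]
    group
  · intro f α β hf
    refine hPU Act f _ _ ?_ hf
    refine ((Lower.refl α).append ((Lower.refl P).append ?_)).append (Lower.refl β)
    exact List.Forall₂.cons ⟨rfl, by simp⟩ (List.Forall₂.cons ⟨rfl, by simp⟩
      (List.Forall₂.cons ⟨rfl, by simp⟩ (Lower.refl Q)))
  · intro f α β hf
    have h1 : α ++ (P ++ (y, false) :: (x, true) :: (z, false) :: Q) ++ β ∈ Lam f := by
      refine hPU Act f _ _ ?_ hf
      refine ((Lower.refl α).append ((Lower.refl P).append ?_)).append (Lower.refl β)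
      exact List.Forall₂.cons ⟨rfl, by simp⟩ (List.Forall₂.cons ⟨rfl, by simp⟩
        (List.Forall₂.cons ⟨rfl, by simp⟩ (Lower.refl Q)))
    have h2 := hPS Act f (α ++ P) ((z, false) :: Q ++ β) y x (by simp [Head0])
      (by simpa [List.append_assoc] using h1)
    simpa [List.append_assoc] using h2
  · have h3 := h2 Act G4 tr P Q x y z hP hQ
    have e : ({theta tr (P ++ (x, b1) :: (y, true) :: (z, b2) :: Q),
        theta tr (P ++ (y, c1) :: (x, true) :: (z, c2) :: Q)} : Set G4) =
        {theta tr P * (tr x * tr y) * (tr z * theta tr Q),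
          theta tr P * (tr y * tr x) * (tr z * theta tr Q)} := by
      simp only [theta_append, theta_cons, mul_assoc]
    rw [e]
    exact h3
  · simp

theorem Swap.symm' {a : G4} {t1 t2 : List (Act × Bool)} (h : Swap tr a t1 t2) :
    Swap tr a⁻¹ t2 t1 := by
  obtain ⟨P, Q, x, y, z, b1, b2, c1, c2, h1, h2, hP, hQ, ha⟩ := h
  refine ⟨P, Q, y, x, z, c1, c2, b1, b2, h2, h1, hP, hQ, ?_⟩
  rw [ha]
  simp only [cm]
  group

theorem yset_inv {D : HData F H} {a : G4} {h : H} (hh : h ∈ Yset D a) : h⁻¹ ∈ Yset D a⁻¹ := by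
  obtain ⟨t1, t2, h1, h2, hs, rfl⟩ := hh
  exact ⟨t2, t1, h2, h1, Swap.symm' hs, by group⟩

theorem base (hPU : SpecPU) (hPS : SpecPS) (hA1 : SpecAmb1) (hA2 : SpecAmb2) (hM : SpecAmbMul)
    (hF : InD oa ob F) (D : HData F H) {a : G4} {h : H} (hh : h ∈ Yset D a) :
    D.θ h = a ∧ ∃ W, Good D W {1, a} {1, h} := by
  obtain ⟨t1, t2, h1, h2, hs, rfl⟩ := hh
  obtain ⟨hval, A, hA1', hA2', hAmb, hfst⟩ := middle hPU hPS hA2 hs
  have hθ : D.θ (D.ρ t1 * (D.ρ t2)⁻¹) = a := by
    rw [map_mul, map_inv, D.val t1 h1, D.val t2 h2, hval]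
  refine ⟨hθ, ?_⟩
  obtain ⟨te, hte, hte1⟩ := D.surj 1
  obtain ⟨t3, ht3, ht31⟩ := D.surj (D.ρ t2)⁻¹
  have hte' := Good.of_DF hA1 hF (D := D) hte
  have ht3' := Good.of_DF hA1 hF (D := D) ht3
  rw [hte1, map_one] at hte'
  rw [ht31, map_inv, D.val t2 h2] at ht3'
  refine ⟨te ++ A ++ t3, ?_⟩
  constructor
  · intro s hs'
    rcases hs' with hs' | hs'
    · refine ⟨te ++ t2 ++ t3, DF.append Data.ends_ne.1 hF (DF.append Data.ends_ne.1 hF hte h2) ht3,
        ?_, ((Dom.refl te).append hA2').append (Dom.refl t3)⟩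
      rw [D.mul _ _ (DF.append Data.ends_ne.1 hF hte h2) ht3, D.mul _ _ hte h2, hte1, ht31, hs']
      group
    · rw [Set.mem_singleton_iff] at hs'
      refine ⟨te ++ t1 ++ t3, DF.append Data.ends_ne.1 hF (DF.append Data.ends_ne.1 hF hte h1) ht3,
        ?_, ((Dom.refl te).append hA1').append (Dom.refl t3)⟩
      rw [D.mul _ _ (DF.append Data.ends_ne.1 hF hte h1) ht3, D.mul _ _ hte h1, hte1, ht31, hs']
      group
  · refine hM Act G4 tr (te ++ A) t3 {theta tr t1, theta tr t2} _ _ ?_ ht3'.amb ?_
    · refine hM Act G4 tr te A _ _ _ hte'.amb hAmb ?_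
      intro g hg g' hg'
      rw [Set.mem_singleton_iff] at hg
      rw [hg, one_mul]
      exact hg'
    · intro g hg g' hg'
      rw [Set.mem_singleton_iff] at hg'
      rcases hg with hg | hg
      · right
        rw [hg, hg', hval]
        rfl
      · left
        rw [Set.mem_singleton_iff] at hg
        rw [hg, hg']
        group
  · obtain ⟨d, hd⟩ := hte'.ff
    obtain ⟨d', hd'⟩ := ht3'.ff
    exact ⟨d ++ F ++ A ++ F ++ d', by rw [hd, hd']; simp [List.append_assoc]⟩
  · rw [List.map_append, List.map_append, hfst]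
    exact Ends.append Data.ends_ne.1 (Ends.append Data.ends_ne.1 hte'.ends
      (DF.inD Data.ends_ne.1 hF h1).2) ht3'.ends

theorem prod (hPU : SpecPU) (hPS : SpecPS) (hA1 : SpecAmb1) (hA2 : SpecAmb2) (hM : SpecAmbMul)
    (hF : InD oa ob F) (D : HData F H) (a : G4) (s : Finset H) (hs : ∀ h ∈ s, h ∈ Yset D a) :
    ∃ W, Good D W {v | ∃ i : ℕ, v = a ^ i} ({1} ∪ (s : Set H)) := by
  classical
  induction s using Finset.induction_on with
  | empty =>
    obtain ⟨te, hte, hte1⟩ := D.surj 1
    have hte' := Good.of_DF hA1 hF (D := D) hte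
    rw [hte1, map_one] at hte'
    refine ⟨te, ⟨?_, ?_, hte'.ff, hte'.ends⟩⟩
    · intro h hh
      apply hte'.dom
      simpa using hh
    · intro p q q' h1 h2
      obtain ⟨g, hg, v, hv, hq⟩ := hte'.amb p q q' h1 h2
      exact ⟨g, hg, v, ⟨0, by rw [Set.mem_singleton_iff.1 hv, pow_zero]⟩, hq⟩
  | insert y s hy ih =>
    obtain ⟨W, hW⟩ := ih (fun h hh => hs h (Finset.mem_insert_of_mem hh))
    obtain ⟨-, W', hW'⟩ := base hPU hPS hA1 hA2 hM hF D (hs y (Finset.mem_insert_self y s))
    refine ⟨W' ++ W, hW'.append hM hF hW ?_ ?_⟩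
    · rintro g hg g' ⟨i, rfl⟩
      rcases hg with hg | hg
      · exact ⟨i, by rw [hg, one_mul]⟩
      · rw [Set.mem_singleton_iff] at hg
        exact ⟨i + 1, by rw [hg, pow_succ']⟩
    · intro h hh
      rcases hh with hh | hh
      · exact ⟨1, by simp, 1, by simp, by rw [Set.mem_singleton_iff.1 hh, one_mul]⟩
      · rw [Finset.coe_insert] at hh
        rcases hh with hh | hh
        · exact ⟨y, by simp, 1, by simp, by rw [hh, mul_one]⟩
        · exact ⟨1, by simp, h, Or.inr hh, one_mul h⟩

theorem prod' (hPU : SpecPU) (hPS : SpecPS) (hA1 : SpecAmb1) (hA2 : SpecAmb2) (hM : SpecAmbMul)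
    [Finite H] (hF : InD oa ob F) (D : HData F H) (a : G4) :
    ∃ W, Good D W {v | ∃ i : ℕ, v = a ^ i} (Yset D a) := by
  obtain ⟨W, hW⟩ := prod hPU hPS hA1 hA2 hM hF D a (Set.toFinite (Yset D a)).toFinset
    (fun h hh => by simpa using hh)
  exact ⟨W, ⟨fun h hh => hW.dom h (Or.inr (by simpa using hh)), hW.amb, hW.ff, hW.ends⟩⟩

theorem a1_inv : a1⁻¹ = a1 ^ 2 := by decide +kernel

theorem a2_inv : a2⁻¹ = a2 ^ 2 := by decide +kernel

end UNIV

open UNIV in
theorem specUniv (hPU : SpecPU) (hPS : SpecPS) (hA1 : SpecAmb1) (hA2 : SpecAmb2)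
    (hM : SpecAmbMul) : SpecUniv := by
  intro F H _ _ D hF h0 hh0
  obtain ⟨W1, hW1⟩ := prod' hPU hPS hA1 hA2 hM hF D a1⁻¹
  obtain ⟨W2, hW2⟩ := prod' hPU hPS hA1 hA2 hM hF D a1
  obtain ⟨W3, hW3⟩ := prod' hPU hPS hA1 hA2 hM hF D a2
  obtain ⟨W4, hW4⟩ := prod' hPU hPS hA1 hA2 hM hF D a2⁻¹
  obtain ⟨t, ht, ht0⟩ := D.surj h0
  have hW5 := Good.of_DF hA1 hF (D := D) ht
  rw [ht0, (base hPU hPS hA1 hA2 hM hF D hh0).1] at hW5
  have h12 : Good D (W1 ++ W2) {v | ∃ i : ℕ, v = a1 ^ i}
      {h | ∃ y ∈ Yset D a1, ∃ y' ∈ Yset D a1, h = y⁻¹ * y'} := by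
    refine hW1.append hM hF hW2 ?_ ?_
    · rintro g ⟨i, rfl⟩ g' ⟨j, rfl⟩
      exact ⟨2 * i + j, by rw [a1_inv, ← pow_mul, ← pow_add]⟩
    · rintro s ⟨y, hy, y', hy', rfl⟩
      exact ⟨y⁻¹, yset_inv hy, y', hy', rfl⟩
  have h34 : Good D (W3 ++ W4) {v | ∃ i : ℕ, v = a2 ^ i}
      {h | ∃ z ∈ Yset D a2, ∃ z' ∈ Yset D a2, h = z * z'⁻¹} := by
    refine hW3.append hM hF hW4 ?_ ?_
    · rintro g ⟨i, rfl⟩ g' ⟨j, rfl⟩
      exact ⟨i + 2 * j, by rw [a2_inv, ← pow_mul, ← pow_add]⟩
    · rintro s ⟨z, hz, z', hz', rfl⟩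
      exact ⟨z, hz, z'⁻¹, yset_inv hz', rfl⟩
  have h1234 : Good D (W1 ++ W2 ++ (W3 ++ W4)) {v | ∃ i j : ℕ, v = a1 ^ i * a2 ^ j}
      {h | ∃ y ∈ Yset D a1, ∃ y' ∈ Yset D a1, ∃ z ∈ Yset D a2, ∃ z' ∈ Yset D a2,
        h = y⁻¹ * y' * (z * z'⁻¹)} := by
    refine h12.append hM hF h34 ?_ ?_
    · rintro g ⟨i, rfl⟩ g' ⟨j, rfl⟩
      exact ⟨i, j, rfl⟩
    · rintro s ⟨y, hy, y', hy', z, hz, z', hz', rfl⟩
      exact ⟨y⁻¹ * y', ⟨y, hy, y', hy', rfl⟩, z * z'⁻¹, ⟨z, hz, z', hz', rfl⟩, rfl⟩
  have hall : Good D (W1 ++ W2 ++ (W3 ++ W4) ++ t) {v | ∃ i j : ℕ, v = a1 ^ i * a2 ^ j * g0}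
      {h | ∃ y ∈ Yset D a1, ∃ y' ∈ Yset D a1, ∃ z ∈ Yset D a2, ∃ z' ∈ Yset D a2,
        h = y⁻¹ * y' * (z * z'⁻¹) * h0} := by
    refine h1234.append hM hF hW5 ?_ ?_
    · rintro g ⟨i, j, rfl⟩ g' hg'
      rw [Set.mem_singleton_iff] at hg'
      exact ⟨i, j, by rw [hg']⟩
    · rintro s ⟨y, hy, y', hy', z, hz, z', hz', rfl⟩
      exact ⟨y⁻¹ * y' * (z * z'⁻¹), ⟨y, hy, y', hy', z, hz, z', hz', rfl⟩, h0, rfl, rfl⟩
  obtain ⟨m, hm⟩ := hall.ff
  rw [hm] at hall
  refine ⟨m, hall.ends, hall.amb, ?_⟩
  intro y hy y' hy' z hz z' hz'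
  exact hall.dom _ ⟨y, hy, y', hy', z, hz, z', hz', rfl⟩

end Pool.Agent.Lib.MP5f7e94
end
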