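import Pool.Agent.Lib.MP_5f7e94_lc.Univ

section
/-!
# WALT: an alternating window
-/
set_option autoImplicit false

namespace Pool.Agent.Lib.MP5f7e94

namespace WALT

theorem block1 (y0 y1 y2 y3 y4 y5 y6 y7 : Act) (c : Bool) :
    VLower [(y0, true, c), (y1, true, !c), (y2, true, c), (y3, true, !c), (y4, true, c),
      (y5, true, !c), (y6, true, c), (y7, true, !c)]
      [(y0, true, c), (y2, false, c), (y1, true, !c), (y4, true, c), (y3, true, !c),
      (y5, false, !c), (y6, true, c), (y7, true, !c)] := by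
  refine ⟨fun p => rfl, fun κ p => ?_⟩
  cases c <;> cases κ <;> cases p <;> simp [view, Lower]

theorem block2 (y0 y1 y2 y3 y4 y5 y6 y7 : Act) (c : Bool) :
    VLower [(y0, true, c), (y1, true, !c), (y2, true, c), (y3, true, !c), (y4, true, c),
      (y5, true, !c), (y6, true, c), (y7, true, !c)]
      [(y0, true, c), (y2, false, c), (y1, true, !c), (y4, true, c), (y3, true, !c),
      (y6, true, c), (y5, true, !c), (y7, false, !c)] := by
  refine ⟨fun p => rfl, fun κ p => ?_⟩
  cases c <;> cases κ <;> cases p <;> simp [view, Lower]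

theorem cseg_eight (c : ℕ → Bool) : cseg 0 8 c =
    [(xs 0, true, c 0), (xs 1, true, c 1), (xs 2, true, c 2), (xs 3, true, c 3),
      (xs 4, true, c 4), (xs 5, true, c 5), (xs 6, true, c 6), (xs 7, true, c 7)] := by
  simp [cseg, List.range']

theorem chains : List.IsChain (· ≠ ·) [xs 0, xs 2, xs 1, xs 4, xs 3, xs 5, xs 6, xs 7] ∧
    List.IsChain (· ≠ ·) [xs 0, xs 2, xs 1, xs 4, xs 3, xs 6, xs 5, xs 7] := by
  decide +kernel

end WALT

theorem specWAlt (hPU : SpecPU) : SpecWAlt := by
  intro F X Z f1 f2 l wa wb n c hF hX hZ hE ha hb hst hn hc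
  obtain ⟨k, rfl⟩ : ∃ k, n = 8 + k := ⟨n - 8, by omega⟩
  have hcc : ∀ i, i + 1 < 8 + k → c (i + 1) = !(c i) := by
    intro i hi
    have := hc i hi
    revert this
    cases c i <;> cases c (i + 1) <;> simp
  have h1 := hcc 0 (by omega)
  have h2 := hcc 1 (by omega)
  have h3 := hcc 2 (by omega)
  have h4 := hcc 3 (by omega)
  have h5 := hcc 4 (by omega)
  have h6 := hcc 5 (by omega)
  have h7 := hcc 6 (by omega)
  simp only [Nat.zero_add, Nat.reduceAdd] at h1 h2 h3 h4 h5 h6 h7
  rw [h1, Bool.not_not] at h2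
  rw [h2] at h3
  rw [h3, Bool.not_not] at h4
  rw [h4] at h5
  rw [h5, Bool.not_not] at h6
  rw [h6] at h7
  have e1 : cseg 0 (8 + k) c = cseg 0 8 c ++ cseg 8 k c := by
    rw [cseg_add]
  have s1 : seg 0 (8 + k) = [xs 0, xs 1, xs 2, xs 3, xs 4, xs 5, xs 6, xs 7] ++ seg 8 k := by
    rw [Data.seg_add]
    rfl
  set κ := c 0 with hκ
  set W1 : CW Act := [(xs 0, true, κ), (xs 2, false, κ), (xs 1, true, !κ), (xs 4, true, κ),
    (xs 3, true, !κ), (xs 5, false, !κ), (xs 6, true, κ), (xs 7, true, !κ)] ++ cseg 8 k c with hW1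
  set W2 : CW Act := [(xs 0, true, κ), (xs 2, false, κ), (xs 1, true, !κ), (xs 4, true, κ),
    (xs 3, true, !κ), (xs 6, true, κ), (xs 5, true, !κ), (xs 7, false, !κ)] ++ cseg 8 k c with hW2
  have hv1 : VLower (cseg 0 (8 + k) c) W1 := by
    rw [e1, WALT.cseg_eight, h1, h2, h3, h4, h5, h6, h7]
    exact (WALT.block1 _ _ _ _ _ _ _ _ _).append (VLower.refl _)
  have hv2 : VLower (cseg 0 (8 + k) c) W2 := by
    rw [e1, WALT.cseg_eight, h1, h2, h3, h4, h5, h6, h7]
    exact (WALT.block2 _ _ _ _ _ _ _ _ _).append (VLower.refl _)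
  have hst1 : Stab f1 f2 l (wa ++ W1 ++ wb) :=
    hst.vlower hPU (((VLower.refl _).append hv1).append (VLower.refl _))
  have hst2 : Stab f1 f2 l (wa ++ W2 ++ wb) :=
    hst.vlower hPU (((VLower.refl _).append hv2).append (VLower.refl _))
  have hfW1 : forget W1 ++ ones Z =
      [(xs 0, true), (xs 2, false), (xs 1, true), (xs 4, true), (xs 3, true)] ++
        (xs 5, false) :: (xs 6, true) :: (xs 7, true) :: ones (seg 8 k ++ Z) := by
    rw [hW1, forget_append, cseg_forget, ones_append]
    simp [forget]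
  have hfW2 : forget W2 ++ ones Z =
      [(xs 0, true), (xs 2, false), (xs 1, true), (xs 4, true), (xs 3, true)] ++
        (xs 6, true) :: (xs 5, true) :: (xs 7, false) :: ones (seg 8 k ++ Z) := by
    rw [hW2, forget_append, cseg_forget, ones_append]
    simp [forget]
  have hlen : 3 ≤ (seg 8 k ++ Z).length := by
    rw [List.length_append]
    omega
  have hne : X ≠ [] := by
    rintro rfl
    simp at hX
  have hne' : seg 8 k ++ Z ≠ [] := by
    intro h
    rw [h] at hlen
    simp at hlen
  have key : ∀ u2 : List Act, u2.IsChain (· ≠ ·) → u2.head? = some (xs 0) →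
      u2.getLast? = some (xs 7) → Ends oa ob (X ++ (u2 ++ seg 8 k) ++ Z) := by
    intro u2 k1 k2 k3
    have h := WFRAME.ends_replace (A := X) (B := seg 8 k ++ Z)
      (u1 := [xs 0, xs 1, xs 2, xs 3, xs 4, xs 5, xs 6, xs 7]) (u2 := u2) hne hne' (by
        rw [s1] at hE
        simpa only [List.append_assoc] using hE) k1 k2 k3
    simpa only [List.append_assoc] using h
  refine WFRAME.frame hPU (Q0 := ones (seg 8 k ++ Z))
    (P0 := [(xs 0, true), (xs 2, false), (xs 1, true), (xs 4, true), (xs 3, true)])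
    (x := xs 5) (y := xs 6) (z := xs 7) hF hX ha hb hst1 hst2 hfW1 hfW2
    ?_ ?_ ?_ ?_ ?_ ?_ ?_ ?_
  · simp [blk]
  · rw [blk_ones]
    omega
  · rw [hfW1]
    simp only [List.cons_append, List.nil_append, blk, blk_ones]
    omega
  · rw [hfW2]
    simp only [List.cons_append, List.nil_append, blk, blk_ones]
    omega
  · have h := key [xs 0, xs 2, xs 1, xs 4, xs 3, xs 5, xs 6, xs 7] WALT.chains.1 rfl rfl
    have e : (forget W1).map Prod.fst =
        [xs 0, xs 2, xs 1, xs 4, xs 3, xs 5, xs 6, xs 7] ++ seg 8 k := by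
      rw [hW1, forget_append, cseg_forget]
      simp [ones, forget, Function.comp_def]
    rw [e]
    exact h
  · have h := key [xs 0, xs 2, xs 1, xs 4, xs 3, xs 6, xs 5, xs 7] WALT.chains.2 rfl rfl
    have e : (forget W2).map Prod.fst =
        [xs 0, xs 2, xs 1, xs 4, xs 3, xs 6, xs 5, xs 7] ++ seg 8 k := by
      rw [hW2, forget_append, cseg_forget]
      simp [ones, forget, Function.comp_def]
    rw [e]
    exact h
  · exact Data.alt_three.1
  · exact Data.alt_three.2

end Pool.Agent.Lib.MP5f7e94
end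

section
/-!
# WI: a window with an irregular change of colour
-/
set_option autoImplicit false

namespace Pool.Agent.Lib.MP5f7e94

namespace WI

theorem block (y0 y1 y2 y3 : Act) (c0 c1 c2 c3 : Bool) (h : c1 ≠ c2) :
    VLower [(y0, true, c0), (y1, true, c1), (y2, true, c2), (y3, true, c3)]
      [(y0, true, c0), (y2, xor c0 c2, c2), (y1, true, c1), (y3, xor c1 c3, c3)] := by
  refine ⟨fun p => rfl, fun κ p => ?_⟩
  cases c0 <;> cases c1 <;> cases c2 <;> cases c3 <;> cases κ <;> cases p <;>
    first
    | exact absurd rfl h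
    | simp [view, Lower]

theorem cseg_four (a : ℕ) (c : ℕ → Bool) : cseg a 4 c =
    [(xs a, true, c a), (xs (a + 1), true, c (a + 1)), (xs (a + 2), true, c (a + 2)),
      (xs (a + 3), true, c (a + 3))] := by
  simp [cseg, List.range']

theorem blk_aux {m : ℕ} (hm : 3 ≤ m) (y0 y1 y2 y3 : Act) (b b' : Bool)
    (hb : b = true ∨ b' = true) (S : List Act) (hS : 3 ≤ S.length) :
    blk m ((y0, true) :: (y2, b) :: (y1, true) :: (y3, b') :: ones S) := by
  cases b <;> cases b' <;> simp only [blk, blk_ones]
  · simp at hb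
  · omega
  · omega
  · omega

end WI

theorem specWI (hPU : SpecPU) : SpecWI := by
  intro F X Z f1 f2 l wa wb n c J hF hX hZ hE ha hb hst hJ hJn hc hirr
  obtain ⟨J, rfl⟩ : ∃ J', J = J' + 1 := ⟨J - 1, by omega⟩
  obtain ⟨k, rfl⟩ : ∃ k, n = J + 4 + k := ⟨n - J - 4, by omega⟩
  simp only [Nat.add_sub_cancel] at hirr
  have e1 : cseg 0 (J + 4 + k) c = cseg 0 J c ++ cseg J 4 c ++ cseg (J + 4) k c := by
    rw [cseg_add, cseg_add]
    simp only [Nat.zero_add]
  have s1 : seg 0 (J + 4 + k) = seg 0 J ++ [xs J, xs (J + 1), xs (J + 2), xs (J + 3)] ++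
      seg (J + 4) k := by
    rw [Data.seg_add, Data.seg_add]
    simp only [Nat.zero_add]
    congr 2
  set W2 : CW Act := cseg 0 J c ++ [(xs J, true, c J), (xs (J + 2), xor (c J) (c (J + 2)), c (J + 2)),
    (xs (J + 1), true, c (J + 1)), (xs (J + 3), xor (c (J + 1)) (c (J + 3)), c (J + 3))] ++
    cseg (J + 4) k c with hW2
  have hv : VLower (cseg 0 (J + 4 + k) c) W2 := by
    rw [e1, WI.cseg_four]
    exact ((VLower.refl _).append (WI.block _ _ _ _ _ _ _ _ hc)).append (VLower.refl _)
  have hst2 : Stab f1 f2 l (wa ++ W2 ++ wb) :=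
    hst.vlower hPU (((VLower.refl _).append hv).append (VLower.refl _))
  have hfW1 : forget (cseg 0 (J + 4 + k) c) ++ ones Z = ones (seg 0 (J + 1)) ++
      (xs (J + 1), true) :: (xs (J + 2), true) :: (xs (J + 3), true) ::
        ones (seg (J + 4) k ++ Z) := by
    rw [cseg_forget, s1, Data.seg_add 0 J 1]
    simp [ones, seg, List.range']
  have hfW2 : forget W2 ++ ones Z = ones (seg 0 (J + 1)) ++
      (xs (J + 2), xor (c J) (c (J + 2))) :: (xs (J + 1), true) ::
        (xs (J + 3), xor (c (J + 1)) (c (J + 3))) :: ones (seg (J + 4) k ++ Z) := by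
    rw [hW2, forget_append, forget_append, cseg_forget, cseg_forget, Data.seg_add 0 J 1]
    simp [ones, seg, List.range', forget]
  have hlen : 3 ≤ (seg (J + 4) k ++ Z).length := by
    rw [List.length_append]
    omega
  have hd := fun i => Data.xs_dist i
  refine WFRAME.frame hPU (Q0 := ones (seg (J + 4) k ++ Z)) (P0 := ones (seg 0 (J + 1)))
    (x := xs (J + 1)) (y := xs (J + 2)) (z := xs (J + 3)) hF hX ha hb hst hst2 hfW1 hfW2
    ?_ ?_ ?_ ?_ ?_ ?_ ?_ ?_
  · rw [blk_ones]
    omega
  · rw [blk_ones]
    omega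
  · rw [cseg_forget, ← ones_append, blk_ones]
    omega
  · have : forget W2 ++ ones Z = ones (seg 0 J) ++
      (xs J, true) :: (xs (J + 2), xor (c J) (c (J + 2))) :: (xs (J + 1), true) ::
        (xs (J + 3), xor (c (J + 1)) (c (J + 3))) :: ones (seg (J + 4) k ++ Z) := by
      rw [hfW2, Data.seg_add 0 J 1]
      simp [ones, seg, List.range']
    rw [this, blk_ones_append]
    refine WI.blk_aux (by omega) _ _ _ _ _ _ ?_ _ hlen
    by_contra hcon
    rw [not_or] at hcon
    apply hirr
    constructor
    · have := hcon.1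
      revert this
      cases c J <;> cases c (J + 2) <;> simp
    · have := hcon.2
      revert this
      cases c (J + 1) <;> cases c (J + 3) <;> simp
  · rw [cseg_forget, ones_map_fst]
    exact hE
  · have h1 : (forget W2).map Prod.fst = seg 0 J ++ [xs J, xs (J + 2), xs (J + 1), xs (J + 3)] ++
        seg (J + 4) k := by
      rw [hW2, forget_append, forget_append, cseg_forget, cseg_forget]
      simp [ones, forget, Function.comp_def]
    have h2 := WFRAME.ends_replace (A := X ++ seg 0 J) (B := seg (J + 4) k ++ Z)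
      (u1 := [xs J, xs (J + 1), xs (J + 2), xs (J + 3)])
      (u2 := [xs J, xs (J + 2), xs (J + 1), xs (J + 3)]) (by
        intro h
        have := congrArg List.length h
        rw [List.length_append, List.length_nil] at this
        omega) (by
        intro h
        rw [h] at hlen
        simp at hlen) (by
        rw [s1] at hE
        simpa only [List.append_assoc] using hE) (by
        simp only [List.isChain_cons_cons, List.isChain_singleton, and_true]
        exact ⟨(hd J).2.1, (hd (J + 1)).1.symm, (hd (J + 1)).2.1⟩) rfl rfl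
    rw [h1]
    simpa only [List.append_assoc] using h2
  · rw [theta_ones]
    exact (Data.swap_three (J + 1)).1
  · rw [theta_ones]
    exact (Data.swap_three (J + 1)).2

end Pool.Agent.Lib.MP5f7e94
end

section
/-!
# WIN: a window with any colours
-/
set_option autoImplicit false

namespace Pool.Agent.Lib.MP5f7e94

namespace WIN

theorem forget_split {A : Type} {w : CW A} {u v : List (A × Bool)} (h : forget w = u ++ v) :
    ∃ w1 w2 : CW A, w = w1 ++ w2 ∧ forget w1 = u ∧ forget w2 = v := by
  obtain ⟨w1, w2, h1, h2, h3⟩ := List.map_eq_append_iff.1 h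
  exact ⟨w1, w2, h1, h2, h3⟩

theorem cseg_congr {a n : ℕ} {c c' : ℕ → Bool} (h : ∀ i, a ≤ i → i < a + n → c i = c' i) :
    cseg a n c = cseg a n c' := by
  unfold cseg
  refine List.map_congr_left fun i hi => ?_
  rw [List.mem_range'_1] at hi
  rw [h i hi.1 hi.2]

theorem exists_cseg {n : ℕ} : ∀ {a : ℕ} {W : CW Act}, forget W = ones (seg a n) →
    ∃ c, W = cseg a n c := by
  induction n with
  | zero =>
      intro a W h
      refine ⟨fun _ => true, ?_⟩
      cases W with
      | nil => rfl
      | cons b W => simp [forget, INS.seg_zero, ones] at h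
  | succ n ih =>
      intro a W h
      rw [Data.seg_succ, ones_cons] at h
      cases W with
      | nil => simp [forget] at h
      | cons b W =>
          obtain ⟨x, t, k⟩ := b
          have h' : (x, t) :: forget W = (xs a, true) :: ones (seg (a + 1) n) := h
          rw [List.cons.injEq, Prod.mk.injEq] at h'
          obtain ⟨⟨rfl, rfl⟩, h2⟩ := h'
          obtain ⟨c, rfl⟩ := ih h2
          refine ⟨fun i => if i = a then k else c i, ?_⟩
          rw [cseg_succ, if_pos rfl]
          congr 1
          refine cseg_congr fun i hi _ => ?_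
          rw [if_neg (by omega)]

theorem cseg_shift (a k n : ℕ) (κ : Bool) :
    cseg (a + 14 * k) n (fun _ => κ) = cseg a n fun _ => κ := by
  induction n generalizing a with
  | zero => rfl
  | succ n ih =>
      rw [cseg_succ, cseg_succ, Data.xs_add, show a + 14 * k + 1 = a + 1 + 14 * k by ring, ih]

theorem lastCol_cseg (p : Bool) (a n : ℕ) (c : ℕ → Bool) :
    lastCol p (cseg a (n + 1) c) = c (a + n) := by
  rw [cseg_add, lastCol_append, cseg_succ]
  rfl

theorem mem_mono {κ : Bool} {a n : ℕ} {x : Act × Bool × Bool}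
    (h : x ∈ cseg a n fun _ => κ) : x.2.2 = κ := by
  obtain ⟨i, _, rfl⟩ := List.mem_map.1 h
  rfl

end WIN

theorem specWin (hT : SpecTri) (hWI : SpecWI) (hWA : SpecWAlt) (hWM : SpecWM) : SpecWin := by
  intro M _ _ φ F X Z f1 f2 l w N hφ hs1 hs2 hF hN hid hX hZ hE hw hst hcol
  rw [ones_append, ones_append] at hw
  obtain ⟨w1, wb, rfl, hw1, hb⟩ := WIN.forget_split hw
  obtain ⟨wa, W, rfl, ha, hW⟩ := WIN.forget_split hw1
  obtain ⟨c, rfl⟩ := WIN.exists_cseg hW
  rcases hT (14 * (3 * N)) c (by omega) with ⟨J, h1, h2, h3, h4⟩ | h | h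
  · exact hWI F X Z f1 f2 l wa wb _ c J hF hX hZ hE ha hb hst h1 h2 h3 h4
  · exact hWA F X Z f1 f2 l wa wb _ c hF hX hZ hE ha hb hst (by omega) h
  · have hn : 14 * (3 * N) = 14 * N + 14 * N + 14 * N := by ring
    have e1 : cseg 0 (14 * (3 * N)) c = cseg 0 (14 * N) c ++
        cseg 0 (14 * N) (fun _ => c 1) ++ cseg (14 * N + 14 * N) (14 * N) c := by
      rw [hn, cseg_add, cseg_add, Nat.zero_add, Nat.zero_add]
      congr 2
      have h5 : cseg (14 * N) (14 * N) c = cseg (14 * N) (14 * N) fun _ => c 1 :=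
        WIN.cseg_congr fun i hi hi' => h i (by omega) (by omega)
      rw [h5]
      have h6 := WIN.cseg_shift 0 N (14 * N) (c 1)
      rw [Nat.zero_add] at h6
      exact h6
    have e2 : seg 0 (14 * (3 * N)) = seg 0 (14 * N) ++ seg 0 (14 * N) ++
        seg (14 * N + 14 * N) (14 * N) := by
      rw [hn, Data.seg_add, Data.seg_add, Nat.zero_add, Nat.zero_add]
      congr 2
      have h6 := Data.seg_shift 0 N (14 * N)
      rw [Nat.zero_add] at h6
      exact h6
    have e3 : wa ++ cseg 0 (14 * (3 * N)) c ++ wb = wa ++ cseg 0 (14 * N) c ++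
        cseg 0 (14 * N) (fun _ => c 1) ++ (cseg (14 * N + 14 * N) (14 * N) c ++ wb) := by
      rw [e1]
      simp only [List.append_assoc]
    have key := hWM M φ F (X ++ seg 0 (14 * N)) (seg (14 * N + 14 * N) (14 * N) ++ Z) f1 f2 l
      (wa ++ cseg 0 (14 * N) c) (cseg (14 * N + 14 * N) (14 * N) c ++ wb) N (c 1) hφ hs1 hs2 hF
      hN hid (by rw [List.length_append]; omega) (by rw [List.length_append]; omega) (by
        rw [e2] at hE
        simpa only [List.append_assoc] using hE) (by
        rw [forget_append, ha, cseg_forget, ← ones_append, List.append_assoc]) (by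
        rw [forget_append, hb, cseg_forget, ← ones_append, List.append_assoc]) (fun p => by
        rw [lastCol_append]
        obtain ⟨k, hk⟩ : ∃ k, 14 * N = k + 1 := ⟨14 * N - 1, by omega⟩
        rw [hk, WIN.lastCol_cseg]
        exact h (0 + k) (by omega) (by omega)) (by
        rw [← e3]
        exact hst) (by
        obtain ⟨a, ha', hc⟩ := hcol (!(c 1))
        rw [e3] at ha'
        refine ⟨a, ?_, hc⟩
        rcases List.mem_append.1 ha' with h' | h'
        · rcases List.mem_append.1 h' with h' | h'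
          · exact List.mem_append_left _ h'
          · exfalso
            rw [WIN.mem_mono h'] at hc
            revert hc
            cases c 1 <;> simp
        · exact List.mem_append_right _ h')
    rw [← List.append_assoc, Data.val_append tr _ (seg 0 (14 * N)), Data.val_seg_mul,
      mul_one] at key
    exact key

end Pool.Agent.Lib.MP5f7e94
end

section
/-!
# WM: a monochromatic window
-/
set_option autoImplicit false

namespace Pool.Agent.Lib.MP5f7e94

namespace WM

theorem view_ne_nil {A : Type} {κ p : Bool} {w : CW A} (h : ∃ a ∈ w, a.2.2 = κ) :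
    view κ p w ≠ [] := by
  induction w generalizing p with
  | nil =>
      obtain ⟨a, ha, _⟩ := h
      simp at ha
  | cons b w ih =>
      rw [view]
      split_ifs with hb
      · simp
      · obtain ⟨a, ha, hκ⟩ := h
        rcases List.mem_cons.1 ha with rfl | ha
        · exact absurd hκ hb
        · exact ih ⟨a, ha, hκ⟩

theorem lower_false {A : Type} (u : List (A × Bool)) :
    Lower u ((u.map Prod.fst).map fun x => (x, false)) := by
  induction u with
  | nil => exact List.Forall₂.nil
  | cons a u ih => exact List.Forall₂.cons ⟨rfl, fun h => absurd h (by simp)⟩ ih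

theorem phi_pow {M : Type} [Monoid M] {φ : List (Act × Bool) → M} (hφ : IsMor φ) {N : ℕ}
    (hid : φ (ones (seg 0 (14 * N))) * φ (ones (seg 0 (14 * N))) = φ (ones (seg 0 (14 * N))))
    (k : ℕ) : φ (ones (seg 0 (14 * (N * (k + 1))))) = φ (ones (seg 0 (14 * N))) := by
  induction k with
  | zero => rw [zero_add, mul_one]
  | succ k ih =>
      have e : seg 0 (14 * (N * (k + 1 + 1))) =
          seg 0 (14 * (N * (k + 1))) ++ seg 0 (14 * N) := by
        rw [show 14 * (N * (k + 1 + 1)) = 14 * (N * (k + 1)) + 14 * N by ring, Data.seg_add]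
        congr 1
        exact Data.seg_shift 0 (N * (k + 1)) (14 * N)
      rw [e, ones_append, hφ.2, ih, hid]

/-- the expression which reads the view of colour `c` -/
def sel (f1 f2 : Expr Act) (c : Bool) : Expr Act := if c = true then f1 else f2

theorem acc_iff {f1 f2 : Expr Act} {w : CW Act} :
    Acc f1 f2 w ↔ ∀ c, view c true w ∈ Lam (sel f1 f2 c) := by
  constructor
  · rintro ⟨h1, h2⟩ c
    cases c
    · exact h2
    · exact h1
  · intro h
    exact ⟨h true, h false⟩

theorem key (hPU : SpecPU) {M : Type} [Monoid M] {φ : List (Act × Bool) → M}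
    {f1 f2 : Expr Act} {l wa wb : CW Act} {N : ℕ} {κ : Bool} (hφ : IsMor φ)
    (hs1 : Sat φ (Lam f1)) (hs2 : Sat φ (Lam f2))
    (hlc : ∀ p, lastCol p wa = κ)
    (hst : Stab f1 f2 l (wa ++ cseg 0 (14 * N) (fun _ => κ) ++ wb)) {R : ℕ}
    (hR : φ (ones (seg 0 (14 * R))) = φ (ones (seg 0 (14 * N)))) {m : CW Act}
    (h1 : ∀ p, lastCol p m = κ) (h2 : Lower (ones (seg 0 (14 * R))) (view κ κ m))
    (h3 : view (!κ) κ m = ((view (!κ) κ wb ++ view (!κ) (lastCol true l) wa).map
      Prod.fst).map (fun x => (x, false))) :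
    Stab f1 f2 l (wa ++ m ++ wb) := by
  have hq : lastCol κ wb = lastCol true l := by
    have h := hst.1
    rw [lastCol_append, lastCol_append, lastCol_append, hlc, INS.lastCol_mono] at h
    exact h
  refine ⟨?_, fun r hr => ?_⟩
  · rw [lastCol_append, lastCol_append, lastCol_append, h1, hq]
  · rw [acc_iff]
    have hs : ∀ c, Sat φ (Lam (sel f1 f2 c)) := by
      intro c
      cases c
      · exact hs2
      · exact hs1
    have hPU' := fun c => hPU Act (sel f1 f2 c)
    have a1 := acc_iff.1 (hst.2 r hr) κ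
    have a2 := acc_iff.1 ((hst.append hst).2 r hr) (!κ)
    have v1 : view κ true (l ++ (wa ++ cseg 0 (14 * N) (fun _ => κ) ++ wb) ++ r) =
        (view κ true l ++ view κ (lastCol true l) wa) ++ ones (seg 0 (14 * N)) ++
          (view κ κ wb ++ view κ (lastCol true l) r) := by
      simp only [view_append, lastCol_append, hlc, INS.lastCol_mono, hq, INS.view_same,
        List.append_assoc]
    have v2 : view κ true (l ++ (wa ++ m ++ wb) ++ r) =
        (view κ true l ++ view κ (lastCol true l) wa) ++ view κ κ m ++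
          (view κ κ wb ++ view κ (lastCol true l) r) := by
      simp only [view_append, lastCol_append, hlc, h1, hq, List.append_assoc]
    have v3 : view (!κ) true (l ++ ((wa ++ cseg 0 (14 * N) (fun _ => κ) ++ wb) ++
        (wa ++ cseg 0 (14 * N) (fun _ => κ) ++ wb)) ++ r) =
        (view (!κ) true l ++ view (!κ) (lastCol true l) wa) ++
          (view (!κ) κ wb ++ view (!κ) (lastCol true l) wa) ++
          (view (!κ) κ wb ++ view (!κ) (lastCol true l) r) := by
      simp only [view_append, lastCol_append, hlc, INS.lastCol_mono, hq, INS.view_other,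
        List.append_assoc, List.nil_append]
    have v4 : view (!κ) true (l ++ (wa ++ m ++ wb) ++ r) =
        (view (!κ) true l ++ view (!κ) (lastCol true l) wa) ++ view (!κ) κ m ++
          (view (!κ) κ wb ++ view (!κ) (lastCol true l) r) := by
      simp only [view_append, lastCol_append, hlc, h1, hq, List.append_assoc]
    have r1 : view κ true (l ++ (wa ++ m ++ wb) ++ r) ∈ Lam (sel f1 f2 κ) := by
      rw [v1] at a1
      rw [v2]
      have e : φ ((view κ true l ++ view κ (lastCol true l) wa) ++ ones (seg 0 (14 * N)) ++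
          (view κ κ wb ++ view κ (lastCol true l) r)) =
          φ ((view κ true l ++ view κ (lastCol true l) wa) ++ ones (seg 0 (14 * R)) ++
          (view κ κ wb ++ view κ (lastCol true l) r)) := by
        rw [hφ.2, hφ.2, hφ.2 (_ ++ _), hφ.2 _ (ones (seg 0 (14 * R))), hR]
      exact hPU' κ _ _ (((Lower.refl _).append h2).append (Lower.refl _)) ((hs κ _ _ e).1 a1)
    have r2 : view (!κ) true (l ++ (wa ++ m ++ wb) ++ r) ∈ Lam (sel f1 f2 (!κ)) := by
      rw [v3] at a2
      rw [v4, h3]
      exact hPU' (!κ) _ _ (((Lower.refl _).append (lower_false _)).append (Lower.refl _)) a2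
    intro c
    by_cases hc : c = κ
    · rw [hc]
      exact r1
    · have : c = !κ := by
        cases c <;> cases κ <;> simp_all
      rw [this]
      exact r2

end WM

theorem specWM (hPU : SpecPU) (hI : SpecIns) : SpecWM := by
  intro M _ _ φ F X Z f1 f2 l wa wb N κ hφ hs1 hs2 hF hN hid hX hZ hE ha hb hlc hst hex
  have hne : (view (!κ) κ wb ++ view (!κ) (lastCol true l) wa).map Prod.fst ≠ [] := by
    intro h
    rw [List.map_eq_nil_iff, List.append_eq_nil_iff] at h
    obtain ⟨a, ha, hc⟩ := hex
    rcases List.mem_append.1 ha with h' | h'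
    · exact WM.view_ne_nil ⟨a, h', hc⟩ h.2
    · exact WM.view_ne_nil ⟨a, h', hc⟩ h.1
  obtain ⟨v, rest, hL⟩ := List.exists_cons_of_ne_nil hne
  have hR : rest.length + 1 ≤ N * (rest.length + 1) := Nat.le_mul_of_pos_left _ (by omega)
  obtain ⟨j, T, m1, m2, hj, h3, h0, fm1, fm2, ch1, ch2, hT, hTl, lc1, lc2, lo1, lo2, ot1, ot2⟩ :=
    hI v rest κ _ hR
  rw [← hL] at ot1 ot2
  have hp := WM.phi_pow hφ hid rest.length
  have st1 := WM.key hPU hφ hs1 hs2 hlc hst hp lc1 lo1 ot1
  have st2 := WM.key hPU hφ hs1 hs2 hlc hst hp lc2 lo2 ot2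
  obtain ⟨z, T', rfl⟩ := List.exists_cons_of_ne_nil hT
  have hXn : X ≠ [] := by
    rintro rfl
    simp at hX
  have hZn : Z ≠ [] := by
    rintro rfl
    simp at hZ
  have ends : ∀ u2 : List Act, u2.IsChain (· ≠ ·) → u2.head? = some (xs 0) →
      u2.getLast? = some (xs 13) → Ends oa ob (X ++ u2 ++ Z) := by
    intro u2 k1 k2 k3
    refine WFRAME.ends_replace hXn hZn hE k1 ?_ ?_
    · rw [k2, INS.seg_head (by omega)]
    · rw [k3, INS.seg_last (by omega), Nat.zero_add, INS.xs_last (by omega)]
  refine WFRAME.frame hPU (Q0 := ones (T' ++ Z)) (P0 := ones (seg 0 j)) (b1 := true) (b2 := true)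
    (c1 := true) (c2 := true) (x := v) (y := xs j) (z := z) hF hX ha hb st1 st2
    ?_ ?_ ?_ ?_ ?_ ?_ ?_ ?_ ?_ ?_
  · rw [fm1]
    simp [ones]
  · rw [fm2]
    simp [ones]
  · rw [blk_ones]
    omega
  · rw [blk_ones, List.length_append]
    omega
  · rw [fm1, ← ones_append, blk_ones]
    omega
  · rw [fm2, ← ones_append, blk_ones]
    omega
  · rw [fm1, ones_map_fst]
    refine ends _ ch1 ?_ ?_
    · rw [List.head?_append_of_ne_nil, INS.seg_head (by omega)]
      intro h'
      have := congrArg List.length h'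
      rw [Data.seg_length] at this
      simp at this
      omega
    · rw [List.getLast?_append_of_ne_nil _ (by simp), List.getLast?_cons_cons,
        List.getLast?_cons_cons]
      exact hTl
  · rw [fm2, ones_map_fst]
    refine ends _ ch2 ?_ ?_
    · rw [List.head?_append_of_ne_nil, INS.seg_head (by omega)]
      intro h'
      have := congrArg List.length h'
      rw [Data.seg_length] at this
      simp at this
      omega
    · rw [List.getLast?_append_of_ne_nil _ (by simp), List.getLast?_cons_cons,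
        List.getLast?_cons_cons]
      exact hTl
  · rw [theta_ones]
    exact h3
  · rw [theta_ones]
    exact h0

end Pool.Agent.Lib.MP5f7e94
end
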