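import Pool.Agent.Lib.MP_5f7e94_lc.Spec
import Pool.Agent.Lib.MP_5f7e94_lc.Univ
import Pool.Agent.Lib.MP_5f7e94_lc.WM

section
/-!
# Module VAL: the automaton on bar words
-/
set_option autoImplicit false

namespace Pool.Agent.Lib.MP5f7e94

namespace VAL

variable {A G : Type} [Group G] {π : A → G}

theorem run_append (q q' : Q A G) (u v : List (ST A)) :
    Run π q (u ++ v) q' ↔ ∃ r, Run π q u r ∧ Run π r v q' := by
  induction u generalizing q with
  | nil => simp [Run]
  | cons l u ih =>
    simp only [List.cons_append, Run, ih]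
    constructor
    · rintro ⟨r, h1, s, h2, h3⟩
      exact ⟨s, ⟨r, h1, h2⟩, h3⟩
    · rintro ⟨s, ⟨r, h1, h2⟩, h3⟩
      exact ⟨r, h1, s, h2, h3⟩

/-- reading `(x, true)` from a state `A1` -/
theorem a1_true {g : G} {p x : A} {u : List (A × Bool)} {q' : Q A G}
    (h : Run π (.A1 g p) (mid p ((x, true) :: u)) q') :
    Run π (.A1 (g * π x) x) (mid x u) q' := by
  obtain ⟨r, h1, s, h2, h3⟩ := h
  simp only [Step] at h1
  obtain ⟨hx, rfl⟩ := h1
  simp only [Step] at h2
  rcases h2 with ⟨_, rfl⟩ | ⟨h4, _⟩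
  · exact h3
  · exact absurd h4.symm hx

/-- reading `(x, false)` from a state `A1` -/
theorem a1_false {g : G} {p x : A} {u : List (A × Bool)} {q' : Q A G}
    (h : Run π (.A1 g p) (mid p ((x, false) :: u)) q') :
    Run π (.A1 (g * π x) x) (mid x u) q' ∨ Run π (.G1 g x) (mid x u) q' := by
  obtain ⟨r, h1, s, h2, h3⟩ := h
  simp only [Step] at h1
  obtain ⟨_, rfl⟩ := h1
  simp only [Step] at h2
  rcases h2 with rfl | rfl
  · exact Or.inl h3
  · exact Or.inr h3

theorem a1p_true {g : G} {p x : A} {u : List (A × Bool)} {q' : Q A G}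
    (h : Run π (.A1p g p) (mid p ((x, true) :: u)) q') : False := by
  obtain ⟨r, h1, s, h2, h3⟩ := h
  simp only [Step] at h1

theorem a1p_false {g : G} {p x : A} {u : List (A × Bool)} {q' : Q A G}
    (h : Run π (.A1p g p) (mid p ((x, false) :: u)) q') :
    Run π (.A1 (g * π x) x) (mid x u) q' ∨ Run π (.G1 g x) (mid x u) q' := by
  obtain ⟨r, h1, s, h2, h3⟩ := h
  simp only [Step] at h1
  obtain ⟨_, rfl⟩ := h1
  simp only [Step] at h2
  rcases h2 with rfl | rfl
  · exact Or.inl h3
  · exact Or.inr h3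

theorem g1_true {g : G} {p x : A} {u : List (A × Bool)} {q' : Q A G}
    (h : Run π (.G1 g p) (mid p ((x, true) :: u)) q') :
    Run π (.A1p (g * π x * π p) x) (mid x u) q' := by
  obtain ⟨r, h1, s, h2, h3⟩ := h
  simp only [Step] at h1
  obtain ⟨hx, rfl⟩ := h1
  simp only [Step] at h2
  rcases h2 with ⟨h4, _⟩ | ⟨_, rfl⟩
  · exact absurd h4.symm hx
  · exact h3

theorem dead_a1p {n : ℕ} (hn : n ≤ 2) {g : G} {p : A} {u : List (A × Bool)} {q' : Q A G}
    (hu : blk n u) (h : Run π (.A1p g p) (mid p u) q') : False := by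
  cases u with
  | nil => simp only [blk] at hu; omega
  | cons a u =>
    obtain ⟨x, b⟩ := a
    cases b with
    | true => exact a1p_true h
    | false => have := hu.1; omega

theorem dead_g1 {n : ℕ} (hn : n ≤ 1) {g : G} {p : A} {u : List (A × Bool)} {q' : Q A G}
    (hu : blk n u) (h : Run π (.G1 g p) (mid p u) q') : False := by
  cases u with
  | nil => simp only [blk] at hu; omega
  | cons a u =>
    obtain ⟨x, b⟩ := a
    cases b with
    | true => exact dead_a1p (n := n + 1) (by omega) hu (g1_true h)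
    | false => have := hu.1; omega

theorem run_a1 {n : ℕ} {g : G} {p : A} {u : List (A × Bool)} {q' : Q A G}
    (hu : blk n u) (h : Run π (.A1 g p) (mid p u) q') :
    q' = .A1 (g * theta π u) (lastL p u) := by
  induction u generalizing n g p with
  | nil =>
    simp only [mid, Run] at h
    rw [← h, theta_nil, mul_one]
    rfl
  | cons a u ih =>
    obtain ⟨x, b⟩ := a
    rw [theta_cons, ← mul_assoc]
    cases b with
    | true => exact ih (n := n + 1) hu (a1_true h)
    | false =>
      rcases a1_false h with h | h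
      · exact ih hu.2 h
      · exact (dead_g1 le_rfl hu.2 h).elim

end VAL

open VAL in
theorem specAmb1 : SpecAmb1 := by
  intro A G _ π u hu p q q' hq h
  obtain ⟨g, rfl | rfl | rfl⟩ := hq
  · exact ⟨g, rfl, theta π u, rfl, run_a1 hu h⟩
  · exact (dead_a1p (n := 0) (by omega) hu h).elim
  · exact (dead_g1 (n := 0) (by omega) hu h).elim

open VAL in
theorem specAmb2 : SpecAmb2 := by
  intro A G _ π P S x y z hP hS p q q' hq h
  rw [mid_append, run_append] at h
  obtain ⟨r, h1, h2⟩ := h
  obtain ⟨g, rfl, v, hv, rfl⟩ := specAmb1 A G π P hP p q r hq h1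
  rw [Set.mem_singleton_iff] at hv
  subst hv
  refine ⟨g, rfl, ?_⟩
  have hl : lastL p (P ++ (x, false) :: (y, true) :: (z, false) :: S) = lastL z S := by
    rw [lastL_append]; rfl
  rw [hl]
  rcases a1_false h2 with h3 | h3
  · have h4 := a1_true h3
    rcases a1_false h4 with h5 | h5
    · refine ⟨_, Or.inl rfl, ?_⟩
      rw [run_a1 hS h5]
      simp only [mul_assoc]
    · exact (dead_g1 le_rfl hS h5).elim
  · have h4 := g1_true h3
    rcases a1p_false h4 with h5 | h5
    · refine ⟨_, Or.inr rfl, ?_⟩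
      rw [run_a1 hS h5]
      simp only [mul_assoc]
    · exact (dead_g1 le_rfl hS h5).elim

open VAL in
theorem specAmbMul : SpecAmbMul := by
  intro A G _ π u v U V W hu hv hW p q q' hq h
  rw [mid_append, run_append] at h
  obtain ⟨r, h1, h2⟩ := h
  obtain ⟨g, rfl, a, ha, rfl⟩ := hu p q r hq h1
  obtain ⟨g', h3, b, hb, rfl⟩ := hv (lastL p u) _ q' ⟨_, Or.inl rfl⟩ h2
  injection h3 with h3 _
  refine ⟨g, rfl, a * b, hW a ha b hb, ?_⟩
  rw [lastL_append, ← h3, mul_assoc]

open VAL in
theorem specAmbEnd : SpecAmbEnd := by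
  intro A G _ π o u V _ hu h
  have h0 : Run π (.A0 1) (.s o :: (mid o (u ++ [(o, true)]) ++ [.t (lastL o (u ++ [(o, true)]))]))
      (.A0 1) := h
  rw [mid_append, lastL_append] at h0
  obtain ⟨r, h1, h2⟩ := h0
  rw [run_append] at h2
  obtain ⟨s, h3, h4⟩ := h2
  rw [run_append] at h3
  obtain ⟨k, h5, h6⟩ := h3
  have hr : Act1 o r := by
    simp only [Step] at h1
    rcases h1 with rfl | rfl
    · exact ⟨_, Or.inl rfl⟩
    · exact ⟨_, Or.inr (Or.inr rfl)⟩
  obtain ⟨g, rfl, v, hv, rfl⟩ := hu o r k hr h5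
  have hg : g = π o := by
    simp only [Step] at h1
    rcases h1 with h1 | h1
    · injection h1 with h1 _
      rw [h1, one_mul]
    · cases h1
  subst hg
  refine ⟨v, hv, ?_⟩
  have h7 := a1_true h6
  simp only [mid, Run] at h7
  subst h7
  obtain ⟨r, h8, h9⟩ := h4
  simp only [Run] at h9
  subst h9
  simp only [Step] at h8
  have h10 := h8.2
  injection h10 with h10
  exact h10.symm

open VAL in
theorem specConn : SpecConn := by
  intro A G _ π x l hl hv
  have key : ∀ (l : List A) (p : A) (g : G), (p :: l).IsChain (· ≠ ·) →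
      Run π (.A1 g p) (mid p (ones l)) (.A1 (g * val π l) (lastL p (ones l))) := by
    intro l
    induction l with
    | nil => intro p g _; simp [ones, mid, Run, val, lastL]
    | cons y l ih =>
      intro p g hc
      rw [List.isChain_cons_cons] at hc
      rw [ones_cons]
      have h1 := ih y (g * π y) hc.2
      have hval : val π (y :: l) = π y * val π l := by simp [val]
      rw [hval, ← mul_assoc]
      refine ⟨.A2 (g * π y) p y, ?_, .A1 (g * π y) y, ?_, h1⟩
      · simp only [Step]
        exact ⟨hc.1.symm, trivial⟩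
      · simp [Step]
  have h1 := key l x (π x) hl
  change Run π (.A0 1) (.s x :: (mid x (ones l) ++ [.t (lastL x (ones l))])) (.A0 1)
  refine ⟨.A1 (π x) x, ?_, ?_⟩
  · simp only [Step]
    exact Or.inl (by rw [one_mul])
  · rw [run_append]
    refine ⟨_, h1, ?_⟩
    have hval : π x * val π l = 1 := by
      rw [← hv]; simp [val]
    rw [hval]
    exact ⟨.A0 1, by simp [Step], rfl⟩

end Pool.Agent.Lib.MP5f7e94
end

section
/-!
# Module YPROP: properties of the sets `Y_a`
-/
set_option autoImplicit false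

namespace Pool.Agent.Lib.MP5f7e94

namespace YPROP

theorem swap_theta {A G : Type} [Group G] (π : A → G) {a : G} {t1 t2 : List (A × Bool)}
    (h : Swap π a t1 t2) : theta π t1 * (theta π t2)⁻¹ = a := by
  obtain ⟨P, Q, x, y, z, b1, b2, c1, c2, rfl, rfl, _, _, rfl⟩ := h
  simp only [theta_append, theta_cons, cm]
  group

theorem swap_symm {A G : Type} [Group G] (π : A → G) {a : G} {t1 t2 : List (A × Bool)}
    (h : Swap π a t1 t2) : Swap π a⁻¹ t2 t1 := by
  obtain ⟨P, Q, x, y, z, b1, b2, c1, c2, h1, h2, hP, hQ, ha⟩ := h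
  refine ⟨P, Q, y, x, z, c1, c2, b1, b2, h2, h1, hP, hQ, ?_⟩
  rw [ha]
  simp only [cm]
  group

theorem swap_prepend {A G : Type} [Group G] (π : A → G) {a : G} {t1 t2 : List (A × Bool)}
    (t : List (A × Bool)) (ht : blk 0 t) (h : Swap π a t1 t2) :
    Swap π (theta π t * a * (theta π t)⁻¹) (t ++ t1) (t ++ t2) := by
  obtain ⟨P, Q, x, y, z, b1, b2, c1, c2, h1, h2, hP, hQ, ha⟩ := h
  refine ⟨t ++ P, Q, x, y, z, b1, b2, c1, c2, ?_, ?_, blk_append ht hP, hQ, ?_⟩
  · rw [h1, List.append_assoc]
  · rw [h2, List.append_assoc]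
  · rw [ha, theta_append]
    simp only [cm]
    group

theorem is3_conj (a g : G4) (h : Is3 a) : Is3 (g⁻¹ * a * g) := by
  refine ⟨?_, ?_⟩
  · intro h1
    apply h.1
    have : a = g * (g⁻¹ * a * g) * g⁻¹ := by group
    rw [this, h1]
    group
  · have : g⁻¹ * a * g * (g⁻¹ * a * g) * (g⁻¹ * a * g) = g⁻¹ * (a * a * a) * g := by group
    rw [this, h.2]
    group

theorem blk_append_true {A : Type} {n : ℕ} {u : List (A × Bool)} (hu : blk n u) (x : A) :
    blk n (u ++ [(x, true)]) := by
  induction u generalizing n with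
  | nil =>
    simp only [blk, List.nil_append] at hu ⊢
    omega
  | cons a u ih =>
    obtain ⟨y, b⟩ := a
    cases b with
    | true => exact ih hu
    | false => exact ⟨hu.1, ih hu.2⟩

end YPROP

theorem specYprop : SpecYprop := by
  intro F H _ D hF
  have ho : oa ≠ ob := Data.ends_ne.1
  refine ⟨?_, ?_, ?_, ?_⟩
  · rintro a h ⟨t1, t2, h1, h2, hs, rfl⟩
    rw [map_mul, map_inv, D.val t1 h1, D.val t2 h2]
    exact YPROP.swap_theta tr hs
  · rintro a h ⟨t1, t2, h1, h2, hs, rfl⟩
    exact ⟨t2, t1, h2, h1, YPROP.swap_symm tr hs, by group⟩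
  · rintro a h k ⟨t1, t2, h1, h2, hs, rfl⟩
    obtain ⟨t, ht, rfl⟩ := D.surj k
    refine ⟨t ++ t1, t ++ t2, ht.append ho hF h1, ht.append ho hF h2, ?_, ?_⟩
    · rw [D.val t ht]
      exact YPROP.swap_prepend tr t (ht.inD ho hF).1 hs
    · rw [D.mul t t1 ht h1, D.mul t t2 ht h2]
      group
  · intro a ha
    obtain ⟨x, y, z, hE1, hE2, hv⟩ := Data.table _ (YPROP.is3_conj a (theta tr F) ha)
    have hDF : ∀ l : List Act, 3 ≤ l.length → Ends oa ob l → DF oa ob F (F ++ ones l ++ F) :=
      fun l hl hE => ⟨ones l, InV.inD ⟨hl, hE⟩, rfl⟩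
    refine ⟨_, F ++ ones [oa, x, y, z, ob] ++ F, F ++ ones [oa, y, x, z, ob] ++ F,
      hDF _ (by simp) hE1, hDF _ (by simp) hE2, ?_, rfl⟩
    refine ⟨F ++ [(oa, true)], (ob, true) :: F, x, y, z, true, true, true, true, ?_, ?_, ?_, ?_, ?_⟩
    · simp [ones]
    · simp [ones]
    · exact YPROP.blk_append_true hF.1 oa
    · show blk 2 F
      exact blk_mono (by norm_num) F hF.1
    · have e : a = theta tr F * ((theta tr F)⁻¹ * a * theta tr F) * (theta tr F)⁻¹ := by group
      rw [e, hv, theta_append]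
      simp only [theta_cons, theta_nil, cm, Data.val_cons, Data.val_nil]
      group

end Pool.Agent.Lib.MP5f7e94
end

section
/-!
# All modules together
-/
set_option autoImplicit false

namespace Pool.Agent.Lib.MP5f7e94

theorem specMain' : SpecMain :=
  Main.specMain specIdem (specWin specTri (specWI specPU) (specWAlt specPU) (specWM specPU specIns))
    (specStabGrp specYprop specLemG) specPigeon specCaseA

theorem specUniv' : SpecUniv :=
  specUniv specPU specPS specAmb1 specAmb2 specAmbMul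

/-- No generalized synchronization expression denotes the language `Lw tr`. -/
theorem not_expressible (e : Expr Act) : e.lang ≠ Lw tr :=
  Final.not_expressible specBarTo specBarFrom specRec specConn specAmbEnd (specSemi specIdem)
    specHgrp specYprop specUniv' specMain' e

/-- There is a regular `θ`-closed st-language over six actions which is not a generalized
synchronization language. -/
theorem main_theorem : ∃ L : Language (ST (Fin 6)), L.IsRegular ∧ (∀ u ∈ L, IsST u) ∧
    (∀ u v : List (ST (Fin 6)), ThetaStep u v → u ∈ L → v ∈ L) ∧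
    ∀ e : Expr (Fin 6), e.lang ≠ L :=
  ⟨Lw tr, (specReg Act G4 tr).1, (specReg Act G4 tr).2.1, (specReg Act G4 tr).2.2,
    not_expressible⟩

end Pool.Agent.Lib.MP5f7e94
end
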