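import Pool.Agent.Lib.MP_5f7e94_lc.Defs

section
/-!
# The concrete data: six actions (the transpositions of `S_4`), the window word
-/
set_option autoImplicit false

namespace Pool.Agent.Lib.MP5f7e94

/-- the actions -/
abbrev Act := Fin 6

/-- the group -/
abbrev G4 := Equiv.Perm (Fin 4)

/-- the transpositions -/
def tr : Act → G4 := ![Equiv.swap 0 1, Equiv.swap 0 2, Equiv.swap 0 3, Equiv.swap 1 2,
  Equiv.swap 1 3, Equiv.swap 2 3]

/-- the window word `ω` -/
def om : List Act := [0, 3, 1, 2, 5, 3, 0, 1, 5, 2, 0, 3, 5, 2]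

/-- the letters of `ω ω ω ...` -/
def xs (n : ℕ) : Act := om.getD (n % 14) 0

/-- the factor of length `n` of `ω ω ω ...` starting at position `a` -/
def seg (a n : ℕ) : List Act := (List.range' a n).map xs

/-- 3-cycles -/
def Is3 (a : G4) : Prop := a ≠ 1 ∧ a * a * a = 1

instance (a : G4) : Decidable (Is3 a) := by unfold Is3; infer_instance

/-- first letter of all words of the semigroups -/
abbrev oa : Act := 0

/-- last letter of all words of the semigroups -/
abbrev ob : Act := 2

/-- the action used at both ends of the test word -/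
abbrev oc : Act := 5

/-- the 3-cycle `(0 1 2)` -/
def a1 : G4 := Equiv.swap 0 1 * Equiv.swap 1 2

/-- the 3-cycle `(0 1 3)` -/
def a2 : G4 := Equiv.swap 0 1 * Equiv.swap 1 3

/-- the 3-cycle `(0 3 2)`; no product `a1 ^ i * a2 ^ j * g0` is the identity -/
def g0 : G4 := Equiv.swap 0 3 * Equiv.swap 2 3

namespace Data

theorem is3_a1 : Is3 a1 := by decide +kernel
theorem is3_a2 : Is3 a2 := by decide +kernel
theorem is3_g0 : Is3 g0 := by decide +kernel

theorem g0_ne : ∀ i j : Fin 3, a1 ^ (i : ℕ) * a2 ^ (j : ℕ) * g0 ≠ 1 := by decide +kernel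

theorem g0_ne' (i j : ℕ) : a1 ^ i * a2 ^ j * g0 ≠ 1 := by
  have h1 : a1 ^ i = a1 ^ (i % 3) := by
    conv_lhs => rw [← Nat.div_add_mod i 3]
    rw [pow_add, pow_mul]
    have : a1 ^ 3 = 1 := by decide +kernel
    rw [this, one_pow, one_mul]
  have h2 : a2 ^ j = a2 ^ (j % 3) := by
    conv_lhs => rw [← Nat.div_add_mod j 3]
    rw [pow_add, pow_mul]
    have : a2 ^ 3 = 1 := by decide +kernel
    rw [this, one_pow, one_mul]
  rw [h1, h2]
  exact g0_ne ⟨i % 3, Nat.mod_lt _ (by norm_num)⟩ ⟨j % 3, Nat.mod_lt _ (by norm_num)⟩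

theorem xs_mod (n : ℕ) : xs n = xs (n % 14) := by
  simp [xs]

theorem xs_add (n k : ℕ) : xs (n + 14 * k) = xs n := by
  simp [xs, Nat.add_mod, Nat.mul_mod_right]

theorem tr_mul_self : ∀ x : Act, tr x * tr x = 1 := by decide +kernel

theorem ends_ne : oa ≠ ob ∧ oc ≠ oa ∧ oc ≠ ob := by decide

theorem seg14 : seg 0 14 = om := by decide +kernel

theorem val_om : val tr om = 1 := by decide +kernel

theorem dist_aux : ∀ n : Fin 14, xs n ≠ xs (n + 1) ∧ xs n ≠ xs (n + 2) ∧ xs n ≠ xs (n + 3) := by
  decide +kernel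

theorem xs_dist (n : ℕ) : xs n ≠ xs (n + 1) ∧ xs n ≠ xs (n + 2) ∧ xs n ≠ xs (n + 3) := by
  have h := dist_aux ⟨n % 14, Nat.mod_lt _ (by norm_num)⟩
  have e : ∀ k, xs (n + k) = xs (n % 14 + k) := by
    intro k
    conv_lhs => rw [← Nat.mod_add_div n 14]
    rw [show n % 14 + 14 * (n / 14) + k = (n % 14 + k) + 14 * (n / 14) by ring, xs_add]
  have e0 := e 0
  simp only [Nat.add_zero] at e0
  rw [e 1, e 2, e 3, e0]
  exact h

theorem seg_add (a m n : ℕ) : seg a (m + n) = seg a m ++ seg (a + m) n := by
  unfold seg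
  rw [← List.map_append]
  congr 1
  simp

theorem seg_shift (a k n : ℕ) : seg (a + 14 * k) n = seg a n := by
  induction n generalizing a with
  | zero => simp [seg]
  | succ n ih =>
    have h1 : seg (a + 14 * k) (n + 1) = xs (a + 14 * k) :: seg (a + 1 + 14 * k) n := by
      simp [seg, List.range'_succ]
      congr 2
      ring
    have h2 : seg a (n + 1) = xs a :: seg (a + 1) n := by
      simp [seg, List.range'_succ]
    rw [h1, h2, ih, xs_add]

theorem seg_succ (a n : ℕ) : seg a (n + 1) = xs a :: seg (a + 1) n := by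
  simp [seg, List.range'_succ]

theorem seg_length (a n : ℕ) : (seg a n).length = n := by simp [seg]

theorem val_nil {A G : Type} [Group G] (π : A → G) : val π [] = 1 := rfl

theorem val_cons {A G : Type} [Group G] (π : A → G) (a : A) (l : List A) :
    val π (a :: l) = π a * val π l := by simp [val]

theorem val_append {A G : Type} [Group G] (π : A → G) (l m : List A) :
    val π (l ++ m) = val π l * val π m := by simp [val]

theorem val_seg_mul (k : ℕ) : val tr (seg 0 (14 * k)) = 1 := by
  induction k with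
  | zero => rfl
  | succ k ih =>
    rw [show 14 * (k + 1) = 14 * k + 14 by ring, seg_add, val_append, ih,
      seg_shift 0 k 14, seg14, val_om, mul_one]

theorem val_seg_mod (n : ℕ) : val tr (seg 0 n) = val tr (seg 0 (n % 14)) := by
  conv_lhs => rw [← Nat.div_add_mod n 14]
  rw [seg_add, val_append, val_seg_mul, one_mul, seg_shift]

/-- the element of a swap of two neighbours of the window word -/
theorem swap_aux : ∀ n : Fin 14,
    Is3 (val tr (seg 0 n) * cm (tr (xs n)) (tr (xs (n + 1))) * (val tr (seg 0 n))⁻¹) ∧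
    (val tr (seg 0 n) * cm (tr (xs n)) (tr (xs (n + 1))) * (val tr (seg 0 n))⁻¹) 0 ≠ 0 := by
  decide +kernel

theorem swap_three (n : ℕ) :
    Is3 (val tr (seg 0 n) * cm (tr (xs n)) (tr (xs (n + 1))) * (val tr (seg 0 n))⁻¹) ∧
    (val tr (seg 0 n) * cm (tr (xs n)) (tr (xs (n + 1))) * (val tr (seg 0 n))⁻¹) 0 ≠ 0 := by
  have h := swap_aux ⟨n % 14, Nat.mod_lt _ (by norm_num)⟩
  have e : xs (n + 1) = xs (n % 14 + 1) := by
    conv_lhs => rw [← Nat.mod_add_div n 14]
    rw [show n % 14 + 14 * (n / 14) + 1 = (n % 14 + 1) + 14 * (n / 14) by ring, xs_add]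
  rw [val_seg_mod n, xs_mod n, e]
  exact h

/-- (M): every action can be inserted in the window and moved by one place -/
theorem ins_three : ∀ v : Act, ∃ j : ℕ, 1 ≤ j ∧ j ≤ 12 ∧ v ≠ xs (j - 1) ∧ v ≠ xs j ∧
    v ≠ xs (j + 1) ∧
    Is3 (val tr (seg 0 j) * cm (tr v) (tr (xs j)) * (val tr (seg 0 j))⁻¹) ∧
    (val tr (seg 0 j) * cm (tr v) (tr (xs j)) * (val tr (seg 0 j))⁻¹) 0 ≠ 0 := by
  have h : ∀ v : Act, ∃ j : Fin 13, 1 ≤ (j : ℕ) ∧ (j : ℕ) ≤ 12 ∧ v ≠ xs (j - 1) ∧ v ≠ xs j ∧
    v ≠ xs (j + 1) ∧
    Is3 (val tr (seg 0 j) * cm (tr v) (tr (xs j)) * (val tr (seg 0 j))⁻¹) ∧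
    (val tr (seg 0 j) * cm (tr v) (tr (xs j)) * (val tr (seg 0 j))⁻¹) 0 ≠ 0 := by
    decide +kernel
  intro v
  obtain ⟨j, hj⟩ := h v
  exact ⟨j, hj⟩

/-- every action can be inserted in the window -/
theorem ins_any : ∀ v : Act, ∃ j : ℕ, 1 ≤ j ∧ j ≤ 13 ∧ v ≠ xs (j - 1) ∧ v ≠ xs j := by
  have h : ∀ v : Act, ∃ j : Fin 14, 1 ≤ (j : ℕ) ∧ (j : ℕ) ≤ 13 ∧ v ≠ xs (j - 1) ∧ v ≠ xs j := by
    decide +kernel
  intro v
  obtain ⟨j, hj⟩ := h v
  exact ⟨j, hj⟩

/-- (ALT): the two alignments of the alternating window -/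
theorem alt_three :
    Is3 (val tr [xs 0, xs 2, xs 1, xs 4, xs 3] * cm (tr (xs 5)) (tr (xs 6)) *
      (val tr [xs 0, xs 2, xs 1, xs 4, xs 3])⁻¹) ∧
    (val tr [xs 0, xs 2, xs 1, xs 4, xs 3] * cm (tr (xs 5)) (tr (xs 6)) *
      (val tr [xs 0, xs 2, xs 1, xs 4, xs 3])⁻¹) 0 ≠ 0 := by
  decide +kernel

/-- the connectors -/
def con : Fin 4 → List Act := ![[], [0, 3], [0, 1], [0, 2]]

/-- the connectors after the windows -/
def con' : Fin 4 → List Act := ![[], [0, 2, 5, 2], [0, 2, 3, 2], [4, 2]]

theorem con_val : ∀ i : Fin 4, val tr (con i) * val tr (con' i) = 1 := by decide +kernel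

theorem con_pt : ∀ i : Fin 4, (val tr (con i)) 0 = i := by decide +kernel

theorem con_ends : ∀ i : Fin 4, Ends oa ob (con i ++ om ++ con' i) := by
  unfold Ends; decide +kernel

/-- a table showing that all sets `Y_a` (for 3-cycles `a`) are nonempty -/
theorem table : ∀ a : G4, Is3 a → ∃ x y z : Act, Ends oa ob [oa, x, y, z, ob] ∧
    Ends oa ob [oa, y, x, z, ob] ∧
    a = val tr [oa] * cm (tr x) (tr y) * (val tr [oa])⁻¹ := by
  unfold Ends; decide +kernel

end Data

end Pool.Agent.Lib.MP5f7e94
end

section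
/-!
# Basic lemmas on bar words and coloured bar words
-/
set_option autoImplicit false

namespace Pool.Agent.Lib.MP5f7e94

variable {A : Type}

/-! ## `lastL`, `mid` -/

theorem lastL_append (p : A) (u v : List (A × Bool)) : lastL p (u ++ v) = lastL (lastL p u) v := by
  induction u generalizing p with
  | nil => rfl
  | cons a u ih => simpa [lastL] using ih a.1

theorem mid_append (p : A) (u v : List (A × Bool)) :
    mid p (u ++ v) = mid p u ++ mid (lastL p u) v := by
  induction u generalizing p with
  | nil => rfl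
  | cons a u ih =>
    obtain ⟨x, b⟩ := a
    cases b <;> simp [mid, lastL, ih]

theorem lastL_of_getLast? (p : A) (u : List (A × Bool)) (x : A)
    (h : (u.map Prod.fst).getLast? = some x) : lastL p u = x := by
  induction u generalizing p with
  | nil => simp at h
  | cons a u ih =>
    cases u with
    | nil => simpa [lastL] using h
    | cons b u =>
      have := ih a.1 (by simpa using h)
      simpa [lastL] using this

/-! ## `Head0`, `Lower`, `ones` -/

theorem head0_append_of_ne {u v : List (A × Bool)} (hu : u ≠ []) :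
    Head0 (u ++ v) ↔ Head0 u := by
  cases u with
  | nil => exact absurd rfl hu
  | cons a u => simp [Head0]

theorem ones_append (l m : List A) : ones (l ++ m) = ones l ++ ones m := by simp [ones]

theorem ones_map_fst (l : List A) : (ones l).map Prod.fst = l := by
  simp [ones, Function.comp_def]

theorem ones_length (l : List A) : (ones l).length = l.length := by simp [ones]

theorem ones_cons (x : A) (l : List A) : ones (x :: l) = (x, true) :: ones l := by simp [ones]

theorem ones_nil : ones ([] : List A) = [] := rfl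

theorem Lower.refl (u : List (A × Bool)) : Lower u u := by
  induction u with
  | nil => exact List.Forall₂.nil
  | cons a u ih => exact List.Forall₂.cons ⟨rfl, id⟩ ih

theorem Lower.trans {u v w : List (A × Bool)} (h1 : Lower u v) (h2 : Lower v w) : Lower u w := by
  induction h1 generalizing w with
  | nil => exact h2
  | cons hab _ ih =>
    cases h2 with
    | cons hbc h2 => exact List.Forall₂.cons ⟨hab.1.trans hbc.1, fun h => hab.2 (hbc.2 h)⟩ (ih h2)

theorem Lower.append {u u' v v' : List (A × Bool)} (h1 : Lower u u') (h2 : Lower v v') :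
    Lower (u ++ v) (u' ++ v') :=
  List.rel_append (R := fun a b : A × Bool => a.1 = b.1 ∧ (b.2 = true → a.2 = true)) h1 h2

theorem Lower.map_fst {u v : List (A × Bool)} (h : Lower u v) :
    u.map Prod.fst = v.map Prod.fst := by
  induction h with
  | nil => rfl
  | cons hab _ ih => simp [hab.1, ih]

theorem Lower.of_fst (F : List (A × Bool)) : Lower (ones (F.map Prod.fst)) F := by
  induction F with
  | nil => exact List.Forall₂.nil
  | cons a u ih => exact List.Forall₂.cons ⟨rfl, fun _ => rfl⟩ ih

theorem Lower.head0 {u v : List (A × Bool)} (h : Lower u v) (hu : Head0 u) : Head0 v := by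
  cases h with
  | nil => trivial
  | @cons a b l1 l2 hab _ =>
    simp only [Head0] at hu ⊢
    cases hb : b.2 with
    | false => rfl
    | true => rw [hab.2 hb] at hu; exact hu

/-! ## `blk` -/

theorem blk_mono {n m : ℕ} (h : n ≤ m) (u : List (A × Bool)) (hu : blk n u) : blk m u := by
  induction u generalizing n m with
  | nil => exact le_trans hu h
  | cons a u ih =>
    obtain ⟨x, b⟩ := a
    cases b with
    | true => exact ih (Nat.succ_le_succ h) hu
    | false => exact ⟨le_trans hu.1 h, hu.2⟩

theorem blk_append {n : ℕ} {u v : List (A × Bool)} (hu : blk n u) (hv : blk 0 v) :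
    blk n (u ++ v) := by
  induction u generalizing n with
  | nil => exact blk_mono (Nat.zero_le n) v hv
  | cons a u ih =>
    obtain ⟨x, b⟩ := a
    cases b with
    | true => exact ih hu
    | false => exact ⟨hu.1, ih hu.2⟩

theorem blk_ones_append (n : ℕ) (l : List A) (u : List (A × Bool)) :
    blk n (ones l ++ u) ↔ blk (n + l.length) u := by
  induction l generalizing n with
  | nil => simp [ones]
  | cons x l ih =>
    rw [ones_cons, List.cons_append, blk, ih, List.length_cons]
    rw [show n + 1 + l.length = n + (l.length + 1) by ring]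

theorem blk_ones (n : ℕ) (l : List A) : blk n (ones l) ↔ 3 ≤ n + l.length := by
  have := blk_ones_append n l []
  simpa [blk] using this

theorem blk_zero_ne_nil {u : List (A × Bool)} (h : blk 0 u) : u ≠ [] := by
  rintro rfl
  simp [blk] at h

/-! ## `Ends`, `InD`, `InV`, `DF` -/

theorem Ends.append {o1 o2 : A} (ho : o1 ≠ o2) {l m : List A} (hl : Ends o1 o2 l)
    (hm : Ends o1 o2 m) : Ends o1 o2 (l ++ m) := by
  refine ⟨?_, ?_, ?_⟩
  · rw [List.isChain_append]
    refine ⟨hl.1, hm.1, ?_⟩
    intro x hx y hy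
    rw [hl.2.2] at hx
    rw [hm.2.1] at hy
    simp only [Option.mem_some_iff] at hx hy
    subst hx hy
    exact ho.symm
  · rw [List.head?_append, hl.2.1]; rfl
  · rw [List.getLast?_append, hm.2.2]; rfl

theorem Ends.ne_nil {o1 o2 : A} {l : List A} (h : Ends o1 o2 l) : l ≠ [] := by
  rintro rfl
  simpa using h.2.1

theorem InD.append {o1 o2 : A} (ho : o1 ≠ o2) {u v : List (A × Bool)} (hu : InD o1 o2 u)
    (hv : InD o1 o2 v) : InD o1 o2 (u ++ v) := by
  refine ⟨blk_append hu.1 hv.1, ?_⟩
  rw [List.map_append]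
  exact Ends.append ho hu.2 hv.2

theorem InV.append {o1 o2 : A} (ho : o1 ≠ o2) {l m : List A} (hl : InV o1 o2 l)
    (hm : InV o1 o2 m) : InV o1 o2 (l ++ m) :=
  ⟨by rw [List.length_append]; have := hl.1; omega, Ends.append ho hl.2 hm.2⟩

theorem InV.inD {o1 o2 : A} {l : List A} (h : InV o1 o2 l) : InD o1 o2 (ones l) :=
  ⟨(blk_ones 0 l).2 (by simpa using h.1), by rw [ones_map_fst]; exact h.2⟩

theorem InD.map_fst {o1 o2 : A} {u : List (A × Bool)} (h : InD o1 o2 u) :
    InV o1 o2 (u.map Prod.fst) := by
  refine ⟨?_, h.2⟩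
  have key : ∀ (n : ℕ) (u : List (A × Bool)), blk n u → 3 ≤ n + u.length := by
    intro n u
    induction u generalizing n with
    | nil => intro h; simpa [blk] using h
    | cons a u ih =>
      obtain ⟨x, b⟩ := a
      cases b with
      | true => intro h; have := ih (n + 1) h; simp only [List.length_cons]; omega
      | false => intro h; have := h.1; simp only [List.length_cons]; omega
  simpa using key 0 u h.1

theorem DF.append {o1 o2 : A} (ho : o1 ≠ o2) {F t t' : List (A × Bool)} (hF : InD o1 o2 F)
    (h : DF o1 o2 F t) (h' : DF o1 o2 F t') : DF o1 o2 F (t ++ t') := by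
  obtain ⟨d, hd, rfl⟩ := h
  obtain ⟨d', hd', rfl⟩ := h'
  exact ⟨d ++ F ++ F ++ d', ((hd.append ho hF).append ho hF).append ho hd',
    by simp [List.append_assoc]⟩

theorem DF.inD {o1 o2 : A} (ho : o1 ≠ o2) {F t : List (A × Bool)} (hF : InD o1 o2 F)
    (h : DF o1 o2 F t) : InD o1 o2 t := by
  obtain ⟨d, hd, rfl⟩ := h
  exact (hF.append ho hd).append ho hF

/-! ## coloured words -/

theorem forget_append (u v : CW A) : forget (u ++ v) = forget u ++ forget v := by
  simp [forget]

theorem forget_map_fst (w : CW A) : (forget w).map Prod.fst = w.map Prod.fst := by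
  simp [forget]

theorem lastCol_append (p : Bool) (u v : CW A) :
    lastCol p (u ++ v) = lastCol (lastCol p u) v := by
  induction u generalizing p with
  | nil => rfl
  | cons a u ih => simpa [lastCol] using ih a.2.2

theorem view_append (κ p : Bool) (u v : CW A) :
    view κ p (u ++ v) = view κ p u ++ view κ (lastCol p u) v := by
  induction u generalizing p with
  | nil => rfl
  | cons a u ih =>
    by_cases h : a.2.2 = κ
    · simp [view, lastCol, ih, h]
    · simp [view, lastCol, ih, h]

theorem view_head0 (κ : Bool) (w : CW A) : Head0 (view κ (!κ) w) := by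
  have key : ∀ (w : CW A) (p : Bool), p ≠ κ → Head0 (view κ p w) := by
    intro w
    induction w with
    | nil => intro p _; trivial
    | cons a w ih =>
      intro p hp
      by_cases h : a.2.2 = κ
      · have : (p == κ) = false := by simpa using hp
        simp [view, h, Head0, this]
      · simp only [view, h, if_false]
        exact ih _ h
  exact key w _ (by cases κ <;> simp)

/-- lowering the bits of a coloured word lowers the views -/
theorem view_lower {w w' : CW A} (κ p : Bool)
    (h : List.Forall₂ (fun a b : A × Bool × Bool => a.1 = b.1 ∧ a.2.2 = b.2.2 ∧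
      (b.2.1 = true → a.2.1 = true)) w w') : Lower (view κ p w) (view κ p w') := by
  induction h generalizing p with
  | nil => exact List.Forall₂.nil
  | @cons a b l1 l2 hab _ ih =>
    by_cases hc : a.2.2 = κ
    · have hc' : b.2.2 = κ := by rw [← hab.2.1]; exact hc
      simp only [view, hc, hc', if_true]
      refine List.Forall₂.cons ⟨hab.1, ?_⟩ ?_
      · simp only [Bool.and_eq_true]
        exact fun h => ⟨hab.2.2 h.1, h.2⟩
      · exact ih κ
    · have hc' : ¬ b.2.2 = κ := by rw [← hab.2.1]; exact hc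
      simp only [view, hc, hc', if_false]
      rw [← hab.2.1]
      exact ih _

theorem VLower.refl (w : CW A) : VLower w w := ⟨fun _ => rfl, fun _ _ => Lower.refl _⟩

theorem VLower.trans {u v w : CW A} (h1 : VLower u v) (h2 : VLower v w) : VLower u w :=
  ⟨fun p => (h1.1 p).trans (h2.1 p), fun κ p => (h1.2 κ p).trans (h2.2 κ p)⟩

theorem VLower.append {u u' v v' : CW A} (h1 : VLower u u') (h2 : VLower v v') :
    VLower (u ++ v) (u' ++ v') := by
  refine ⟨fun p => ?_, fun κ p => ?_⟩
  · rw [lastCol_append, lastCol_append, h1.1, h2.1]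
  · rw [view_append, view_append, h1.1]
    exact (h1.2 κ p).append (h2.2 κ _)

theorem VLower.of_bits {w w' : CW A}
    (h : List.Forall₂ (fun a b : A × Bool × Bool => a.1 = b.1 ∧ a.2.2 = b.2.2 ∧
      (b.2.1 = true → a.2.1 = true)) w w') : VLower w w' := by
  refine ⟨fun p => ?_, fun κ p => view_lower κ p h⟩
  induction h generalizing p with
  | nil => rfl
  | cons hab _ ih => simp [lastCol, hab.2.1, ih]

/-- the colours can be kept when the underlying word is replaced by a lower one -/
theorem exists_lower_colouring (w : CW A) (v : List (A × Bool)) (h : Lower (forget w) v) :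
    ∃ w' : CW A, forget w' = v ∧ VLower w w' := by
  have key : ∃ w' : CW A, forget w' = v ∧
      List.Forall₂ (fun a b : A × Bool × Bool => a.1 = b.1 ∧ a.2.2 = b.2.2 ∧
        (b.2.1 = true → a.2.1 = true)) w w' := by
    induction w generalizing v with
    | nil =>
      have : v = [] := by
        cases h; rfl
      subst this
      exact ⟨[], rfl, List.Forall₂.nil⟩
    | cons a w ih =>
      cases v with
      | nil => cases h
      | cons b v =>
        have h' : (a.1 = b.1 ∧ (b.2 = true → a.2.1 = true)) ∧ Lower (forget w) v := by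
          have h0 : List.Forall₂ (fun a b : A × Bool => a.1 = b.1 ∧ (b.2 = true → a.2 = true))
            ((a.1, a.2.1) :: forget w) (b :: v) := h
          rw [List.forall₂_cons] at h0
          exact h0
        obtain ⟨w', h1, h2⟩ := ih v h'.2
        refine ⟨(b.1, b.2, a.2.2) :: w', ?_, List.Forall₂.cons ⟨h'.1.1, rfl, h'.1.2⟩ h2⟩
        simp [forget] at h1 ⊢
        exact h1
  obtain ⟨w', h1, h2⟩ := key
  exact ⟨w', h1, VLower.of_bits h2⟩

theorem Stab.append {f1 f2 : Expr A} {l w w' : CW A} (h : Stab f1 f2 l w)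
    (h' : Stab f1 f2 l w') : Stab f1 f2 l (w ++ w') := by
  refine ⟨?_, fun r hr => ?_⟩
  · rw [← List.append_assoc, lastCol_append, h.1, ← lastCol_append, h'.1]
  · have h1 := h'.2 r hr
    rw [List.append_assoc] at h1
    have h2 := h.2 _ h1
    simpa [List.append_assoc] using h2

/-! ## values -/

theorem theta_append {G : Type} [Group G] (π : A → G) (u v : List (A × Bool)) :
    theta π (u ++ v) = theta π u * theta π v := by
  simp [theta, val]

theorem theta_ones {G : Type} [Group G] (π : A → G) (l : List A) :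
    theta π (ones l) = val π l := by
  simp [theta, ones_map_fst]

theorem theta_nil {G : Type} [Group G] (π : A → G) : theta π ([] : List (A × Bool)) = 1 := rfl

theorem theta_cons {G : Type} [Group G] (π : A → G) (a : A × Bool) (u : List (A × Bool)) :
    theta π (a :: u) = π a.1 * theta π u := by
  simp [theta, val]

theorem Lower.theta {G : Type} [Group G] (π : A → G) {u v : List (A × Bool)} (h : Lower u v) :
    Pool.Agent.Lib.MP5f7e94.theta π u = Pool.Agent.Lib.MP5f7e94.theta π v := by
  simp [Pool.Agent.Lib.MP5f7e94.theta, h.map_fst]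

/-! ## domination -/

theorem Dom.refl (W : List (A × Bool)) : Dom W W := fun _ _ _ h => h

theorem Dom.trans {W V t : List (A × Bool)} (h1 : Dom W V) (h2 : Dom V t) : Dom W t :=
  fun f α β h => h1 f α β (h2 f α β h)

theorem Dom.append {W W' t t' : List (A × Bool)} (h : Dom W t) (h' : Dom W' t') :
    Dom (W ++ W') (t ++ t') := by
  intro f α β hf
  have h1 : α ++ t ++ (t' ++ β) ∈ Lam f := by simpa [List.append_assoc] using hf
  have h2 := h f α (t' ++ β) h1
  have h3 : (α ++ W) ++ t' ++ β ∈ Lam f := by simpa [List.append_assoc] using h2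
  have h4 := h' f (α ++ W) β h3
  simpa [List.append_assoc] using h4

theorem isMor_theta {G : Type} [Group G] (π : A → G) :
    IsMor (theta π : List (A × Bool) → G) :=
  ⟨rfl, theta_append π⟩

end Pool.Agent.Lib.MP5f7e94
end
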