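import Pool.Agent.Lib.MP_5f7e94_lc.Statement

/-!
# Definitions of the proof

Bar words: a letter `(x, true)` is linked to the previous letter (the event `x` starts before the
previous event ends), a letter `(x, false)` has a bar before it.
-/

set_option autoImplicit false

namespace Pool.Agent.Lib.MP5f7e94

/-! ## Bar words -/

/-- `mid p u`: the letters of `Σ_s ∪ Σ_t` emitted by the bar word `u` read after the event `p`
(which is running), without the last termination. -/
def mid {A : Type} : A → List (A × Bool) → List (ST A)
  | _, [] => []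
  | p, (x, true) :: u => .s x :: .t p :: mid x u
  | p, (x, false) :: u => .t p :: .s x :: mid x u

/-- the last letter of `u` (or `p` if `u` is empty) -/
def lastL {A : Type} : A → List (A × Bool) → A
  | p, [] => p
  | _, a :: u => lastL a.1 u

/-- The word over `Σ_s ∪ Σ_t` of a bar word. -/
def stw {A : Type} : List (A × Bool) → List (ST A)
  | [] => []
  | a :: u => .s a.1 :: (mid a.1 u ++ [.t (lastL a.1 u)])

/-- the first bit is `false` -/
def Head0 {A : Type} : List (A × Bool) → Prop
  | [] => True
  | a :: _ => a.2 = false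

/-- first bit `false`, linked neighbours are distinct -/
def Proper {A : Type} (u : List (A × Bool)) : Prop :=
  Head0 u ∧ u.IsChain (fun a b => b.2 = true → a.1 ≠ b.1)

/-- `Lower u v`: `v` is obtained from `u` by lowering some bits. -/
def Lower {A : Type} (u v : List (A × Bool)) : Prop :=
  List.Forall₂ (fun a b => a.1 = b.1 ∧ (b.2 = true → a.2 = true)) u v

/-- all bits `true` -/
def ones {A : Type} (l : List A) : List (A × Bool) := l.map (fun x => (x, true))

/-- `blk n u`: if `u` is appended to a linked stretch of length `n`, then all stretches have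
length at least `3`. -/
def blk {A : Type} : ℕ → List (A × Bool) → Prop
  | n, [] => 3 ≤ n
  | n, (_, true) :: u => blk (n + 1) u
  | n, (_, false) :: u => 3 ≤ n ∧ blk 1 u

/-- neighbours distinct, first letter `o1`, last letter `o2` -/
def Ends {A : Type} (o1 o2 : A) (l : List A) : Prop :=
  l.IsChain (· ≠ ·) ∧ l.head? = some o1 ∧ l.getLast? = some o2

/-- The semigroup `𝒟`: all stretches of length at least 3, neighbours distinct, first letter
`o1` (with bit `true`), last letter `o2`. -/
def InD {A : Type} (o1 o2 : A) (u : List (A × Bool)) : Prop :=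
  blk 0 u ∧ Ends o1 o2 (u.map Prod.fst)

/-- The semigroup `𝒱` (words with all bits `true`, given by their letters). -/
def InV {A : Type} (o1 o2 : A) (l : List A) : Prop :=
  3 ≤ l.length ∧ Ends o1 o2 l

/-- The words `F d F` with `d ∈ 𝒟`. -/
def DF {A : Type} (o1 o2 : A) (F t : List (A × Bool)) : Prop :=
  ∃ d, InD o1 o2 d ∧ t = F ++ d ++ F

/-! ## Coloured bar words: (letter, bit, colour) -/

/-- coloured bar words -/
abbrev CW (A : Type) := List (A × Bool × Bool)

/-- forget the colours -/
def forget {A : Type} (w : CW A) : List (A × Bool) := w.map (fun a => (a.1, a.2.1))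

/-- colour of the last letter (`p` if there is none) -/
def lastCol {A : Type} : Bool → CW A → Bool
  | p, [] => p
  | _, a :: w => lastCol a.2.2 w

/-- `view κ p w`: the letters of colour `κ` of `w`; a bit stays `true` only if the previous letter
(colour `p` before the first one) has colour `κ`. -/
def view {A : Type} (κ : Bool) : Bool → CW A → List (A × Bool)
  | _, [] => []
  | p, a :: w => if a.2.2 = κ then (a.1, a.2.1 && (p == κ)) :: view κ a.2.2 w
      else view κ a.2.2 w

/-! ## The bar languages of expressions -/

/-- The set of bar words of an expression. -/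
def Lam {A : Type} : Expr A → Set (List (A × Bool))
  | .eps => {[]}
  | .act a => {[(a, false)]}
  | .seq e f => {w | ∃ u ∈ Lam e, ∃ v ∈ Lam f, w = u ++ v}
  | .alt e f => Lam e ∪ Lam f
  | .conj e f => Lam e ∩ Lam f
  | .par e f => {w | Head0 w ∧ ∃ c : CW A, forget c = w ∧ view true true c ∈ Lam e ∧
      view false true c ∈ Lam f}
  | .star e => {w | ∃ l : List (List (A × Bool)), (∀ u ∈ l, u ∈ Lam e) ∧ w = l.flatten}

/-- `W` dominates `t`: in every context and for every expression, acceptance of `t` implies
acceptance of `W`. -/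
def Dom {A : Type} (W t : List (A × Bool)) : Prop :=
  ∀ (f : Expr A) (α β : List (A × Bool)), α ++ t ++ β ∈ Lam f → α ++ W ++ β ∈ Lam f

/-! ## Finite recognition -/

/-- morphisms from words to a monoid -/
def IsMor {B M : Type} [Monoid M] (φ : List B → M) : Prop :=
  φ [] = 1 ∧ ∀ u v, φ (u ++ v) = φ u * φ v

/-- `S` is a union of classes of `φ` -/
def Sat {B M : Type} (φ : List B → M) (S : Set (List B)) : Prop :=
  ∀ u v, φ u = φ v → (u ∈ S ↔ v ∈ S)

/-- `S` is recognised by a finite monoid -/
def Recog {B : Type} (S : Set (List B)) : Prop :=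
  ∃ (M : Type) (_ : Monoid M) (_ : Finite M) (φ : List B → M), IsMor φ ∧ Sat φ S

/-- `φ` recognises the bar languages of all subexpressions -/
def RecAll {A M : Type} (φ : List (A × Bool) → M) : Expr A → Prop
  | .eps => Sat φ (Lam (.eps : Expr A))
  | .act a => Sat φ (Lam (.act a))
  | .seq e f => Sat φ (Lam (.seq e f)) ∧ RecAll φ e ∧ RecAll φ f
  | .alt e f => Sat φ (Lam (.alt e f)) ∧ RecAll φ e ∧ RecAll φ f
  | .conj e f => Sat φ (Lam (.conj e f)) ∧ RecAll φ e ∧ RecAll φ f
  | .par e f => Sat φ (Lam (.par e f)) ∧ RecAll φ e ∧ RecAll φ f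
  | .star e => Sat φ (Lam (.star e)) ∧ RecAll φ e

/-! ## The language -/

/-- States of the automaton which guesses an enumeration `z_1, z_2, ...` of the events in which
`z_i` ends before `z_j` starts for `j ≥ i + 2`; `g` is the product of the letters of the
enumerated events. -/
inductive Q (A G : Type) where
  /-- nothing is running -/
  | A0 : G → Q A G
  /-- the last event is running -/
  | A1 : G → A → Q A G
  /-- the last two events are running -/
  | A2 : G → A → A → Q A G
  /-- the last but one event is running, the last one has ended -/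
  | A1p : G → A → Q A G
  /-- the last event `z_j = y` is running, `z_(j-1)` has not started; `g` is the product up to
  `z_(j-2)` -/
  | G1 : G → A → Q A G
  /-- the last event `z_j = y` has ended, `z_(j-1)` has not started -/
  | G0 : G → A → Q A G

/-- transitions -/
def Step {A G : Type} [Group G] (π : A → G) : Q A G → ST A → Q A G → Prop
  | .A0 g, .s x, q => q = .A1 (g * π x) x ∨ q = .G1 g x
  | .A1 g a, .s x, q => x ≠ a ∧ q = .A2 (g * π x) a x
  | .A1 g a, .t x, q => x = a ∧ q = .A0 g
  | .A2 g a b, .t x, q => (x = a ∧ q = .A1 g b) ∨ (x = b ∧ q = .A1p g a)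
  | .A1p g a, .t x, q => x = a ∧ q = .A0 g
  | .G1 g y, .s x, q => x ≠ y ∧ q = .A2 (g * π x * π y) x y
  | .G1 g y, .t x, q => x = y ∧ q = .G0 g y
  | .G0 g y, .s x, q => q = .A1p (g * π x * π y) x
  | _, _, _ => False

/-- runs -/
def Run {A G : Type} [Group G] (π : A → G) : Q A G → List (ST A) → Q A G → Prop
  | p, [], q => p = q
  | p, l :: u, q => ∃ r, Step π p l r ∧ Run π r u q

/-- The language. -/
def Lw {A G : Type} [Group G] (π : A → G) : Language (ST A) :=
  {u | Run π (.A0 1) u (.A0 1)}

/-- the states in which exactly the event `p` is running -/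
def Act1 {A G : Type} (p : A) (q : Q A G) : Prop :=
  ∃ g, q = .A1 g p ∨ q = .A1p g p ∨ q = .G1 g p

/-- `Amb π u V`: the bar word `u` (read after a running event) can only be read from a state `A1`
to a state `A1` and multiplies the value by an element of `V`. -/
def Amb {A G : Type} [Group G] (π : A → G) (u : List (A × Bool)) (V : Set G) : Prop :=
  ∀ (p : A) (q q' : Q A G), Act1 p q → Run π q (mid p u) q' →
    ∃ g, q = .A1 g p ∧ ∃ v ∈ V, q' = .A1 (g * v) (lastL p u)

/-- value of a list of letters -/
def val {A G : Type} [Group G] (π : A → G) (l : List A) : G := (l.map π).prod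

/-- value of a bar word -/
def theta {A G : Type} [Group G] (π : A → G) (u : List (A × Bool)) : G :=
  val π (u.map Prod.fst)

/-- The commutator `[g, h] = g h g⁻¹ h⁻¹`. -/
def cm {G : Type} [Group G] (g h : G) : G := g * h * g⁻¹ * h⁻¹

/-- A swap pair with element `a`: two bar words which differ only in the order of two neighbouring
letters and in the bars next to them. -/
def Swap {A G : Type} [Group G] (π : A → G) (a : G) (t1 t2 : List (A × Bool)) : Prop :=
  ∃ (P Q : List (A × Bool)) (x y z : A) (b1 b2 c1 c2 : Bool),
    t1 = P ++ (x, b1) :: (y, true) :: (z, b2) :: Q ∧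
    t2 = P ++ (y, c1) :: (x, true) :: (z, c2) :: Q ∧
    blk 0 P ∧ blk 1 Q ∧ a = theta π P * cm (π x) (π y) * (theta π P)⁻¹

/-- acceptance of a coloured word by a pair of expressions -/
def Acc {A : Type} (f1 f2 : Expr A) (w : CW A) : Prop :=
  view true true w ∈ Lam f1 ∧ view false true w ∈ Lam f2

/-- the stabiliser of the coloured word `l` -/
def Stab {A : Type} (f1 f2 : Expr A) (l w : CW A) : Prop :=
  lastCol true (l ++ w) = lastCol true l ∧
    ∀ r : CW A, Acc f1 f2 (l ++ r) → Acc f1 f2 (l ++ w ++ r)

/-- `w'` has lower views than `w`. -/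
def VLower {A : Type} (w w' : CW A) : Prop :=
  (∀ p, lastCol p w = lastCol p w') ∧ ∀ κ p, Lower (view κ p w) (view κ p w')

end Pool.Agent.Lib.MP5f7e94
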