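import Pool.Agent.Lib.MP_5f7e94_lc.Basics

/-!
# Modules of the proof

Text of the proof: `/team-store/MP_5f7e94_lc_PROOF.md`.
-/

set_option autoImplicit false

namespace Pool.Agent.Lib.MP5f7e94

/-! ## Part I: languages and bar words (general alphabet) -/

/-- Module BARTO. -/
def SpecBarTo : Prop :=
  ∀ (A : Type) [DecidableEq A] (e : Expr A) (w : List (A × Bool)), Proper w →
    stw w ∈ e.lang → w ∈ Lam e

/-- Module BARFROM. -/
def SpecBarFrom : Prop :=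
  ∀ (A : Type) [DecidableEq A] (e : Expr A) (w : List (A × Bool)), Proper w →
    w ∈ Lam e → stw w ∈ e.lang

/-- Module LOW, part 1: bits can be lowered. -/
def SpecPU : Prop :=
  ∀ (A : Type) (f : Expr A) (u v : List (A × Bool)), Lower u v → u ∈ Lam f → v ∈ Lam f

/-- Module LOW, part 2: an isolated linked pair can be read in both orders. -/
def SpecPS : Prop :=
  ∀ (A : Type) (f : Expr A) (α β : List (A × Bool)) (x y : A), Head0 β →
    α ++ (x, false) :: (y, true) :: β ∈ Lam f → α ++ (y, false) :: (x, true) :: β ∈ Lam f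

/-- Module RECSEQ. -/
def SpecRecSeq : Prop :=
  ∀ (B : Type) (S T : Set (List B)), Recog S → Recog T →
    Recog {w | ∃ u ∈ S, ∃ v ∈ T, w = u ++ v}

/-- Module RECSTAR. -/
def SpecRecStar : Prop :=
  ∀ (B : Type) (S : Set (List B)), Recog S →
    Recog {w | ∃ l : List (List B), (∀ u ∈ l, u ∈ S) ∧ w = l.flatten}

/-- Module RECPAR. -/
def SpecRecPar : Prop :=
  ∀ (A : Type) (S T : Set (List (A × Bool))), Recog S → Recog T →
    Recog {w | Head0 w ∧ ∃ c : CW A, forget c = w ∧ view true true c ∈ S ∧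
      view false true c ∈ T}

/-- Module REC (uses RECSEQ, RECSTAR, RECPAR): one finite monoid recognises the bar languages of
all subexpressions. -/
def SpecRec : Prop :=
  ∀ (A : Type) (e : Expr A), ∃ (M : Type) (_ : Monoid M) (_ : Finite M)
    (φ : List (A × Bool) → M), IsMor φ ∧ RecAll φ e

/-- Module REG: the language is a regular, `θ`-closed st-language. -/
def SpecReg : Prop :=
  ∀ (A G : Type) [DecidableEq A] [Finite A] [Group G] [Finite G] (π : A → G),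
    (Lw π).IsRegular ∧ (∀ u ∈ Lw π, IsST u) ∧
    (∀ u v : List (ST A), ThetaStep u v → u ∈ Lw π → v ∈ Lw π)

/-- Module VAL, part 1: connected words of value `1` belong to the language. -/
def SpecConn : Prop :=
  ∀ (A G : Type) [Group G] (π : A → G) (x : A) (l : List A),
    (x :: l).IsChain (· ≠ ·) → val π (x :: l) = 1 → stw ((x, false) :: ones l) ∈ Lw π

/-- Module VAL, part 2: words all of whose stretches have length at least 3 have one value. -/
def SpecAmb1 : Prop :=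
  ∀ (A G : Type) [Group G] (π : A → G) (u : List (A × Bool)), blk 0 u → Amb π u {theta π u}

/-- Module VAL, part 3: an isolated pair can be read in two orders. -/
def SpecAmb2 : Prop :=
  ∀ (A G : Type) [Group G] (π : A → G) (P Q : List (A × Bool)) (x y z : A), blk 0 P → blk 1 Q →
    Amb π (P ++ (x, false) :: (y, true) :: (z, false) :: Q)
      {theta π P * (π x * π y) * (π z * theta π Q), theta π P * (π y * π x) * (π z * theta π Q)}

/-- Module VAL, part 4: products. -/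
def SpecAmbMul : Prop :=
  ∀ (A G : Type) [Group G] (π : A → G) (u v : List (A × Bool)) (U V W : Set G),
    Amb π u U → Amb π v V → (∀ g ∈ U, ∀ h ∈ V, g * h ∈ W) → Amb π (u ++ v) W

/-- Module VAL, part 5: the test word. -/
def SpecAmbEnd : Prop :=
  ∀ (A G : Type) [Group G] (π : A → G) (o : A) (u : List (A × Bool)) (V : Set G),
    u ≠ [] → Amb π u V → stw ((o, false) :: (u ++ [(o, true)])) ∈ Lw π →
    ∃ v ∈ V, π o * v * π o = 1

/-! ## Part II: semigroups and groups -/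

/-- Module IDEM: minimal idempotents. -/
def SpecIdem : Prop :=
  ∀ (M : Type) [Monoid M] [Finite M] (T : Set M), T.Nonempty →
    (∀ s ∈ T, ∀ t ∈ T, s * t ∈ T) →
    ∃ f ∈ T, f * f = f ∧ ∀ s ∈ T, ∃ n : ℕ, 1 ≤ n ∧ (f * s * f) ^ n = f

/-- Module SEMI (uses IDEM): the words `E` and `F`. -/
def SpecSemi : Prop :=
  ∀ (M : Type) [Monoid M] [Finite M] (φ : List (Act × Bool) → M), IsMor φ →
    ∃ (E : List Act) (F : List (Act × Bool)), InV oa ob E ∧ InD oa ob F ∧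
      F.map Prod.fst = E ∧
      φ (ones E) * φ (ones E) = φ (ones E) ∧ φ F * φ F = φ F ∧
      φ (ones E) * φ F = φ F ∧ φ F * φ (ones E) = φ F ∧
      (∀ v, InV oa ob v → ∃ r, InV oa ob r ∧
        φ (ones (E ++ v ++ E ++ r ++ E)) = φ (ones E)) ∧
      (∀ d, InD oa ob d → ∃ r, InD oa ob r ∧ φ (F ++ d ++ F ++ r ++ F) = φ F)

/-- The group of the words `F d F`, `d ∈ 𝒟`. -/
structure HData (F : List (Act × Bool)) (H : Type) [Group H] where
  ρ : List (Act × Bool) → H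
  θ : H →* G4
  mul : ∀ t t', DF oa ob F t → DF oa ob F t' → ρ (t ++ t') = ρ t * ρ t'
  surj : ∀ h, ∃ t, DF oa ob F t ∧ ρ t = h
  val : ∀ t, DF oa ob F t → θ (ρ t) = theta tr t

/-- Module HGRP. -/
def SpecHgrp : Prop :=
  ∀ (M : Type) [Monoid M] [Finite M] (φ : List (Act × Bool) → M) (F : List (Act × Bool)),
    IsMor φ → (∀ u v, φ u = φ v → theta tr u = theta tr v) → InD oa ob F → φ F * φ F = φ F →
    (∀ d, InD oa ob d → ∃ r, InD oa ob r ∧ φ (F ++ d ++ F ++ r ++ F) = φ F) →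
    ∃ (H : Type) (_ : Group H) (_ : Finite H) (D : HData F H),
      ∀ t t', DF oa ob F t → DF oa ob F t' → (D.ρ t = D.ρ t' ↔ φ t = φ t')

/-- The sets `Y_a`: quotients of swap pairs. -/
def Yset {F : List (Act × Bool)} {H : Type} [Group H] (D : HData F H) (a : G4) : Set H :=
  {h | ∃ t1 t2, DF oa ob F t1 ∧ DF oa ob F t2 ∧ Swap tr a t1 t2 ∧ h = D.ρ t1 * (D.ρ t2)⁻¹}

/-- Module YPROP: properties of the sets `Y_a`. -/
def SpecYprop : Prop :=
  ∀ (F : List (Act × Bool)) (H : Type) [Group H] (D : HData F H), InD oa ob F →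
    (∀ a h, h ∈ Yset D a → D.θ h = a) ∧
    (∀ a h, h ∈ Yset D a → h⁻¹ ∈ Yset D a⁻¹) ∧
    (∀ a h k, h ∈ Yset D a → k * h * k⁻¹ ∈ Yset D (D.θ k * a * (D.θ k)⁻¹)) ∧
    (∀ a, Is3 a → (Yset D a).Nonempty)

/-- Module LEMG: the group theoretical lemma. -/
def SpecLemG : Prop :=
  ∀ (H : Type) [Group H] (θ : H →* G4) (Y : G4 → Set H),
    (∀ a h, h ∈ Y a → θ h = a) → (∀ a h, h ∈ Y a → h⁻¹ ∈ Y a⁻¹) →
    (∀ a h k, h ∈ Y a → k * h * k⁻¹ ∈ Y (θ k * a * (θ k)⁻¹)) →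
    (∀ a, Is3 a → (Y a).Nonempty) →
    ∀ S : Subgroup H, (∀ pt : Fin 4, ∃ a, Is3 a ∧ a pt ≠ pt ∧ ∃ y ∈ Y a, y ∈ S) →
    ∀ h ∈ Y g0, ∃ y ∈ Y a1, ∃ y' ∈ Y a1, ∃ z ∈ Y a2, ∃ z' ∈ Y a2,
      y⁻¹ * y' * (z * z'⁻¹) * h ∈ S

/-- Module UNIV (uses PU, PS, AMB1, AMB2, AMBMUL): the universal word `F m F`. -/
def SpecUniv : Prop :=
  ∀ (F : List (Act × Bool)) (H : Type) [Group H] [Finite H] (D : HData F H), InD oa ob F →
    ∀ h0 ∈ Yset D g0, ∃ m : List (Act × Bool),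
      Ends oa ob ((F ++ m ++ F).map Prod.fst) ∧
      Amb tr (F ++ m ++ F) {v | ∃ i j : ℕ, v = a1 ^ i * a2 ^ j * g0} ∧
      ∀ y ∈ Yset D a1, ∀ y' ∈ Yset D a1, ∀ z ∈ Yset D a2, ∀ z' ∈ Yset D a2,
        ∃ t, DF oa ob F t ∧ D.ρ t = y⁻¹ * y' * (z * z'⁻¹) * h0 ∧ Dom (F ++ m ++ F) t

/-! ## Part III: windows -/

/-- the coloured factor of length `n` of `ω ω ω ...` starting at position `a` -/
def cseg (a n : ℕ) (c : ℕ → Bool) : CW Act :=
  (List.range' a n).map (fun i => (xs i, true, c i))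

/-- The conclusion of the analysis of a window. -/
def WinConcl (F : List (Act × Bool)) (f1 f2 : Expr Act) (l : CW Act) (pt : Fin 4) : Prop :=
  ∃ (a : G4) (c1 c2 : CW Act), Is3 a ∧ a pt ≠ pt ∧ Stab f1 f2 l c1 ∧ Stab f1 f2 l c2 ∧
    DF oa ob F (forget c1) ∧ DF oa ob F (forget c2) ∧ Swap tr a (forget c1) (forget c2)

/-- Module TRI: a colouring has an irregular change, or alternates, or is constant. -/
def SpecTri : Prop :=
  ∀ (n : ℕ) (c : ℕ → Bool), 4 ≤ n →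
    (∃ J, 1 ≤ J ∧ J + 2 < n ∧ c J ≠ c (J + 1) ∧
      ¬ (c (J - 1) = c (J + 1) ∧ c J = c (J + 2))) ∨
    (∀ i, i + 1 < n → c i ≠ c (i + 1)) ∨ (∀ i, 1 ≤ i → i + 1 < n → c i = c 1)

/-- Module WI (uses PU): a window with an irregular change of colour. -/
def SpecWI : Prop :=
  ∀ (F : List (Act × Bool)) (X Z : List Act) (f1 f2 : Expr Act) (l wa wb : CW Act) (n : ℕ)
    (c : ℕ → Bool) (J : ℕ), InD oa ob F → 3 ≤ X.length → 3 ≤ Z.length →
    Ends oa ob (X ++ seg 0 n ++ Z) →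
    forget wa = ones (F.map Prod.fst ++ X) → forget wb = ones (Z ++ F.map Prod.fst) →
    Stab f1 f2 l (wa ++ cseg 0 n c ++ wb) →
    1 ≤ J → J + 2 < n → c J ≠ c (J + 1) → ¬ (c (J - 1) = c (J + 1) ∧ c J = c (J + 2)) →
    WinConcl F f1 f2 l (val tr (F.map Prod.fst ++ X) 0)

/-- Module WALT (uses PU): an alternating window. -/
def SpecWAlt : Prop :=
  ∀ (F : List (Act × Bool)) (X Z : List Act) (f1 f2 : Expr Act) (l wa wb : CW Act) (n : ℕ)
    (c : ℕ → Bool), InD oa ob F → 3 ≤ X.length → 3 ≤ Z.length →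
    Ends oa ob (X ++ seg 0 n ++ Z) →
    forget wa = ones (F.map Prod.fst ++ X) → forget wb = ones (Z ++ F.map Prod.fst) →
    Stab f1 f2 l (wa ++ cseg 0 n c ++ wb) →
    8 ≤ n → (∀ i, i + 1 < n → c i ≠ c (i + 1)) →
    WinConcl F f1 f2 l (val tr (F.map Prod.fst ++ X) 0)

/-- Module INS: insertion of the letters `v :: rest` of the other colour into a monochromatic
window, in two versions. -/
def SpecIns : Prop :=
  ∀ (v : Act) (rest : List Act) (κ : Bool) (R : ℕ), rest.length + 1 ≤ R →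
    ∃ (j : ℕ) (T : List Act) (m1 m2 : CW Act), 1 ≤ j ∧
      Is3 (val tr (seg 0 j) * cm (tr v) (tr (xs j)) * (val tr (seg 0 j))⁻¹) ∧
      (val tr (seg 0 j) * cm (tr v) (tr (xs j)) * (val tr (seg 0 j))⁻¹) 0 ≠ 0 ∧
      forget m1 = ones (seg 0 j ++ v :: xs j :: T) ∧
      forget m2 = ones (seg 0 j ++ xs j :: v :: T) ∧
      (seg 0 j ++ v :: xs j :: T).IsChain (· ≠ ·) ∧
      (seg 0 j ++ xs j :: v :: T).IsChain (· ≠ ·) ∧
      T ≠ [] ∧ T.getLast? = some (xs 13) ∧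
      (∀ p, lastCol p m1 = κ) ∧ (∀ p, lastCol p m2 = κ) ∧
      Lower (ones (seg 0 (14 * R))) (view κ κ m1) ∧
      Lower (ones (seg 0 (14 * R))) (view κ κ m2) ∧
      view (!κ) κ m1 = (v :: rest).map (fun x => (x, false)) ∧
      view (!κ) κ m2 = (v :: rest).map (fun x => (x, false))

/-- Module WM (uses PU, INS): a monochromatic window. -/
def SpecWM : Prop :=
  ∀ (M : Type) [Monoid M] [Finite M] (φ : List (Act × Bool) → M) (F : List (Act × Bool))
    (X Z : List Act) (f1 f2 : Expr Act) (l wa wb : CW Act) (N : ℕ) (κ : Bool),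
    IsMor φ → Sat φ (Lam f1) → Sat φ (Lam f2) → InD oa ob F → 1 ≤ N →
    φ (ones (seg 0 (14 * N))) * φ (ones (seg 0 (14 * N))) = φ (ones (seg 0 (14 * N))) →
    3 ≤ X.length → 3 ≤ Z.length → Ends oa ob (X ++ seg 0 (14 * N) ++ Z) →
    forget wa = ones (F.map Prod.fst ++ X) → forget wb = ones (Z ++ F.map Prod.fst) →
    (∀ p, lastCol p wa = κ) →
    Stab f1 f2 l (wa ++ cseg 0 (14 * N) (fun _ => κ) ++ wb) →
    (∃ a ∈ wa ++ wb, a.2.2 = !κ) →
    WinConcl F f1 f2 l (val tr (F.map Prod.fst ++ X) 0)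

/-- Module WIN (uses TRI, WI, WALT, WM): a window `ω^(3N)` with any colours. -/
def SpecWin : Prop :=
  ∀ (M : Type) [Monoid M] [Finite M] (φ : List (Act × Bool) → M) (F : List (Act × Bool))
    (X Z : List Act) (f1 f2 : Expr Act) (l w : CW Act) (N : ℕ),
    IsMor φ → Sat φ (Lam f1) → Sat φ (Lam f2) → InD oa ob F → 1 ≤ N →
    φ (ones (seg 0 (14 * N))) * φ (ones (seg 0 (14 * N))) = φ (ones (seg 0 (14 * N))) →
    3 ≤ X.length → 3 ≤ Z.length → Ends oa ob (X ++ seg 0 (14 * (3 * N)) ++ Z) →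
    forget w = ones (F.map Prod.fst ++ X ++ seg 0 (14 * (3 * N)) ++ (Z ++ F.map Prod.fst)) →
    Stab f1 f2 l w → (∀ κ : Bool, ∃ a ∈ w, a.2.2 = κ) →
    WinConcl F f1 f2 l (val tr (F.map Prod.fst ++ X) 0)

/-! ## Part IV: the main lemma -/

/-- Module STABGRP (uses YPROP, LEMG). -/
def SpecStabGrp : Prop :=
  ∀ (F : List (Act × Bool)) (H : Type) [Group H] [Finite H] (D : HData F H)
    (f1 f2 : Expr Act) (l : CW Act), InD oa ob F → (∀ pt, WinConcl F f1 f2 l pt) →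
    ∀ h0 ∈ Yset D g0, ∃ y ∈ Yset D a1, ∃ y' ∈ Yset D a1, ∃ z ∈ Yset D a2, ∃ z' ∈ Yset D a2,
      ∃ c : CW Act, Stab f1 f2 l c ∧ DF oa ob F (forget c) ∧
        D.ρ (forget c) = y⁻¹ * y' * (z * z'⁻¹) * h0

/-- Module PIGEON. -/
def SpecPigeon : Prop :=
  ∀ (M : Type) [Monoid M] [Finite M] (φ : List (Act × Bool) → M) (f1 f2 : Expr Act)
    (α β B : List (Act × Bool)), IsMor φ → Sat φ (Lam f1) → Sat φ (Lam f2) →
    ∃ m : ℕ, 1 ≤ m ∧ ∀ c : CW Act, forget c = α ++ (List.replicate m B).flatten ++ β →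
      Acc f1 f2 c → ∃ (l w r : CW Act) (i n k : ℕ), 1 ≤ n ∧ c = l ++ w ++ r ∧
        forget l = α ++ (List.replicate i B).flatten ∧
        forget w = (List.replicate n B).flatten ∧
        forget r = (List.replicate k B).flatten ++ β ∧
        Acc f1 f2 (l ++ r) ∧ Stab f1 f2 l w

/-- Module CASEA. -/
def SpecCaseA : Prop :=
  ∀ (E : List Act) (W : List (Act × Bool)) (f1 f2 : Expr Act) (l w r : CW Act) (κ : Bool),
    E ≠ [] → (∀ α β, α ++ ones E ++ β ∈ Lam f1 → α ++ W ++ β ∈ Lam f1) →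
    (∀ α β, α ++ ones E ++ β ∈ Lam f2 → α ++ W ++ β ∈ Lam f2) →
    forget w = ones (E ++ E) → (∀ a ∈ w, a.2.2 = κ) → Acc f1 f2 (l ++ w ++ r) →
    Head0 (forget l) → l ≠ [] →
    forget l ++ ones E ++ W ++ forget r ∈ Lam (.par f1 f2)

/-- Module MAIN (uses nearly everything): the main lemma. -/
def SpecMain : Prop :=
  ∀ (M : Type) [Monoid M] [Finite M] (φ : List (Act × Bool) → M) (E : List Act)
    (F m : List (Act × Bool)) (H : Type) [Group H] [Finite H] (D : HData F H) (h0 : H),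
    IsMor φ → (∀ u v, φ u = φ v → theta tr u = theta tr v) →
    InV oa ob E → InD oa ob F → F.map Prod.fst = E →
    φ (ones E) * φ (ones E) = φ (ones E) → φ F * φ F = φ F →
    φ (ones E) * φ F = φ F → φ F * φ (ones E) = φ F →
    (∀ v, InV oa ob v → ∃ r, InV oa ob r ∧
        φ (ones (E ++ v ++ E ++ r ++ E)) = φ (ones E)) →
    (∀ t t', DF oa ob F t → DF oa ob F t' → (D.ρ t = D.ρ t' ↔ φ t = φ t')) →
    h0 ∈ Yset D g0 →
    (∀ y ∈ Yset D a1, ∀ y' ∈ Yset D a1, ∀ z ∈ Yset D a2, ∀ z' ∈ Yset D a2,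
        ∃ t, DF oa ob F t ∧ D.ρ t = y⁻¹ * y' * (z * z'⁻¹) * h0 ∧ Dom (F ++ m ++ F) t) →
    ∀ f : Expr Act, RecAll φ f → ∀ α β, α ++ ones E ++ β ∈ Lam f →
      α ++ (F ++ m ++ F) ++ β ∈ Lam f

end Pool.Agent.Lib.MP5f7e94
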