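import Mathlib

/-!
# Generalized synchronization expressions: the definitions of the final statement

Problem MP_5f7e94_lc.  `ST A` is the alphabet `Σ_s ∪ Σ_t`, `IsST` the st-words, `Expr A` the
generalized synchronization expressions with their languages `Expr.lang`, `ThetaStep` one step of
the semi-commutation `θ_Σ`.
-/

set_option autoImplicit false

namespace Pool.Agent.Lib.MP5f7e94

/-- The alphabet `Σ_s ∪ Σ_t` over the set of actions `A`: `ST.s a` is `a_s`, `ST.t a` is `a_t`. -/
inductive ST (A : Type) where
  | s : A → ST A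
  | t : A → ST A

/-- The action to which a letter of `Σ_s ∪ Σ_t` belongs. -/
def ST.act {A : Type} : ST A → A
  | .s a => a
  | .t a => a

/-- `u` is an st-word: for every action `x`, the projection of `u` to `{x_s, x_t}` is
`(x_s x_t)^n` for some `n`. -/
def IsST {A : Type} [DecidableEq A] (u : List (ST A)) : Prop :=
  ∀ x : A, ∃ n : ℕ, u.filter (fun l => decide (l.act = x)) =
    (List.replicate n [ST.s x, ST.t x]).flatten

/-- `IsShuffle u v w`: the word `w` is an interleaving of `u` and `v`. -/
inductive IsShuffle {B : Type} : List B → List B → List B → Prop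
  | nil : IsShuffle [] [] []
  | left (a : B) (u v w : List B) : IsShuffle u v w → IsShuffle (a :: u) v (a :: w)
  | right (a : B) (u v w : List B) : IsShuffle u v w → IsShuffle u (a :: v) (a :: w)

/-- Generalized synchronization expressions over the set of actions `A`. -/
inductive Expr (A : Type) where
  | eps : Expr A
  | act : A → Expr A
  | seq : Expr A → Expr A → Expr A
  | alt : Expr A → Expr A → Expr A
  | conj : Expr A → Expr A → Expr A
  | par : Expr A → Expr A → Expr A
  | star : Expr A → Expr A

/-- The language of an expression. -/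
def Expr.lang {A : Type} [DecidableEq A] : Expr A → Language (ST A)
  | .eps => {[]}
  | .act a => {[ST.s a, ST.t a]}
  | .seq e f => e.lang * f.lang
  | .alt e f => e.lang ⊔ f.lang
  | .conj e f => e.lang ⊓ f.lang
  | .par e f => {w | IsST w ∧ ∃ u ∈ e.lang, ∃ v ∈ f.lang, IsShuffle u v w}
  | .star e => KStar.kstar e.lang

/-- One step of the semi-commutation `θ_Σ` (the rules are for `x ≠ y`):
`x_s y_s ↔ y_s x_s`, `x_t y_t ↔ y_t x_t`, `x_s y_t → y_t x_s`. -/
inductive ThetaStep {A : Type} : List (ST A) → List (ST A) → Prop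
  | ss (p q : List (ST A)) (x y : A) (h : x ≠ y) :
      ThetaStep (p ++ [ST.s x, ST.s y] ++ q) (p ++ [ST.s y, ST.s x] ++ q)
  | tt (p q : List (ST A)) (x y : A) (h : x ≠ y) :
      ThetaStep (p ++ [ST.t x, ST.t y] ++ q) (p ++ [ST.t y, ST.t x] ++ q)
  | st (p q : List (ST A)) (x y : A) (h : x ≠ y) :
      ThetaStep (p ++ [ST.s x, ST.t y] ++ q) (p ++ [ST.t y, ST.s x] ++ q)

end Pool.Agent.Lib.MP5f7e94
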